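import Pool.Agent.Helper216.XRay.Stmt

open Set Filter Topology MeasureTheory

namespace Pool.Agent.Helper216.XRay

/-- the folding map of (0,1) onto [0,1) with peak at 3/4 -/
noncomputable def sJ (X : ℝ) : ℝ := if X ≤ 3/4 then 1 - 4/3*X else 4*X - 3

structure NiceN (N N' : ℝ → ℝ) : Prop where
  der : ∀ X ∈ Icc (0:ℝ) 1, HasDerivAt N (N' X) X
  cont : ContinuousOn N' (Icc 0 1)
  lo : ∀ X ∈ Icc (0:ℝ) 1, 29/10 ≤ N' X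
  hi : ∀ X ∈ Icc (0:ℝ) 1, N' X ≤ 71/10
  str : ∀ X ∈ Icc (0:ℝ) 1, ∀ Y ∈ Icc (0:ℝ) 1, X ≤ Y → 9/10*(Y-X) ≤ N' Y - N' X
  mean : ∫ X in (0:ℝ)..1, N X = 0

structure Cls (w v : ℝ → ℝ) : Prop where
  cont : ContinuousOn w (Ico 0 1)
  der : ∀ s ∈ Ioo (0:ℝ) 1, HasDerivAt w (-v s) s
  vcont : ContinuousOn v (Ico 0 1)
  v0 : v 0 = 0
  up : ∀ s ∈ Ico (0:ℝ) 1, v s ≤ (100*s+213)/(30*(1-s))
  inc : ∀ s ∈ Ico (0:ℝ) 1, ∀ t ∈ Ico (0:ℝ) 1, s ≤ t →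
    (1/100)*(1/(1-t) - 1/(1-s)) ≤ v t - v s

noncomputable def hh (w N : ℝ → ℝ) (X : ℝ) : ℝ := w (sJ X) - N X

noncomputable def gg (v N' : ℝ → ℝ) (X : ℝ) : ℝ :=
  if X ≤ 3/4 then 4/3 * v (1 - 4/3*X) - N' X else -4 * v (4*X-3) - N' X

structure Hill (h g : ℝ → ℝ) : Prop where
  der : ∀ X ∈ Ioo (0:ℝ) 1, HasDerivAt h (g X) X
  cont : ContinuousOn g (Ioo 0 1)
  anti : StrictAntiOn g (Ioo 0 1)
  lim0 : Tendsto h (𝓝[>] 0) atBot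
  lim1 : Tendsto h (𝓝[<] 1) atBot

/-- x is the left end of the level chord of length s of h (g = h') -/
def IsCh (h g : ℝ → ℝ) (s x : ℝ) : Prop :=
  0 < x ∧ x + s < 1 ∧ h x = h (x+s) ∧ 0 ≤ g x ∧ g (x+s) ≤ 0

noncomputable def vn (g xm : ℝ → ℝ) (s : ℝ) : ℝ :=
  g (xm s) * (-g (xm s + s)) / (g (xm s) - g (xm s + s))

/-- w1 is the rearranged function of hh w N -/
def IsT (N w w1 : ℝ → ℝ) : Prop := ∀ s ∈ Ico (0:ℝ) 1,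
  (∃ x ∈ Ioo 0 (1-s), hh w N x = w1 s ∧ hh w N (x+s) = w1 s) ∧
  ∀ X ∈ Ioo 0 (1-s), min (hh w N X) (hh w N (X+s)) ≤ w1 s

/-- w is a pointwise limit (along some filter) of normalised members of the class -/
def LimCls (w : ℝ → ℝ) : Prop := ∃ (F : Filter ℕ) (W V : ℕ → ℝ → ℝ), F.NeBot ∧
  (∀ n, Cls (W n) (V n)) ∧ (∀ n, W n 0 = 0) ∧
  ∀ s ∈ Ico (0:ℝ) 1, Tendsto (fun n => W n s) F (𝓝 (w s))

def body (a b : ℝ) (f : ℝ → ℝ) : Set E2 := {p | p 0 ∈ Icc a b ∧ |p 1| ≤ f (p 0)}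

structure Prof (a b : ℝ) (f : ℝ → ℝ) : Prop where
  lt : a < b
  conc : ConcaveOn ℝ (Ioo a b) f
  pos : ∀ x ∈ Ioo a b, 0 < f x
  fa : f a = 0
  fb : f b = 0
  lima : Tendsto f (𝓝[>] a) (𝓝 0)
  limb : Tendsto f (𝓝[<] b) (𝓝 0)

noncomputable def NN (η X : ℝ) : ℝ :=
  100000 * Real.log (((2-X)*(100000+η-2+X))/((2-X-η)*(100000+2-X)))

noncomputable def Kf (w : ℝ → ℝ) (x : ℝ) : ℝ :=
  if 1 < x ∧ x < 2 then (100000+x)*Real.exp (w (sJ (2-x))/100000) else 0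

noncomputable def Lf (η : ℝ) (w : ℝ → ℝ) (x : ℝ) : ℝ :=
  if η - 2 < x ∧ x < η - 1 then
    (100000+x)*Real.exp (hh w (NN η) (2-η+x)/100000) else 0

end Pool.Agent.Helper216.XRay
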