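import Pool.Agent.Helper216.XRay.Defs

open Set Filter Topology MeasureTheory

namespace Pool.Agent.Helper216.XRay



theorem Lf_eq {w : ℝ → ℝ} {η x : ℝ} (hη : η ∈ Icc (4/100000:ℝ) (5/100000))
    (hx : x ∈ Icc (η-2) (η-1)) : Lf η w x = (-x) * Kf w (η - x) / (η - x) := by
  unfold Lf Kf
  obtain ⟨hη1, hη2⟩ := hη
  by_cases h : η - 2 < x ∧ x < η - 1
  · obtain ⟨h1, h2⟩ := h
    rw [if_pos ⟨h1, h2⟩, if_pos ⟨by linarith, by linarith⟩]
    have e1 : 2 - (η - x) = 2 - η + x := by ring
    rw [e1]
    unfold hh NN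
    have e2 : 2 - (2 - η + x) = η - x := by ring
    have e3 : 100000 + η - 2 + (2 - η + x) = 100000 + x := by ring
    have e4 : η - x - η = -x := by ring
    have e5 : 100000 + 2 - (2 - η + x) = 100000 + η - x := by ring
    rw [e2, e3, e4, e5]
    have p1 : 0 < η - x := by linarith
    have p2 : 0 < 100000 + x := by linarith
    have p3 : 0 < -x := by linarith
    have p4 : 0 < 100000 + η - x := by linarith
    have pR : 0 < (η - x) * (100000 + x) / (-x * (100000 + η - x)) := by positivity
    have e6 : (w (sJ (2 - η + x)) - 100000 * Real.log ((η - x) * (100000 + x) /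
        (-x * (100000 + η - x)))) / 100000 = w (sJ (2 - η + x)) / 100000 -
        Real.log ((η - x) * (100000 + x) / (-x * (100000 + η - x))) := by ring
    rw [e6, Real.exp_sub, Real.exp_log pR]
    have e7 : 100000 + (η - x) = 100000 + η - x := by ring
    rw [e7]
    have hx0 : x ≠ 0 := by linarith
    field_simp
  · rw [if_neg h, if_neg]
    · simp
    · rintro ⟨h1, h2⟩
      exact h ⟨by linarith, by linarith⟩

end Pool.Agent.Helper216.XRay
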