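import Pool.Agent.Helper216.XRay.Defs

open Set Filter Topology MeasureTheory

namespace Pool.Agent.Helper216.XRay



theorem NN_cont : ContinuousOn (fun η : ℝ => ∫ X in (0:ℝ)..1, NN η X)
    (Icc (4/100000:ℝ) (5/100000)) := by
  have hψc : Continuous fun η : ℝ => max (4/100000:ℝ) (min (5/100000) η) := by fun_prop
  have hχc : Continuous fun X : ℝ => max (0:ℝ) (min 1 X) := by fun_prop
  have hψ1 : ∀ η : ℝ, (4/100000:ℝ) ≤ max (4/100000:ℝ) (min (5/100000) η) := fun η => le_max_left _ _
  have hψ2 : ∀ η : ℝ, max (4/100000:ℝ) (min (5/100000) η) ≤ 5/100000 := fun η =>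
    max_le (by norm_num) (min_le_left _ _)
  have hχ1 : ∀ X : ℝ, (0:ℝ) ≤ max (0:ℝ) (min 1 X) := fun η => le_max_left _ _
  have hχ2 : ∀ X : ℝ, max (0:ℝ) (min 1 X) ≤ 1 := fun η => max_le (by norm_num) (min_le_left _ _)
  have hG : Continuous (Function.uncurry fun η X : ℝ =>
      NN (max (4/100000:ℝ) (min (5/100000) η)) (max (0:ℝ) (min 1 X))) := by
    have hp : Continuous fun p : ℝ × ℝ => max (4/100000:ℝ) (min (5/100000) p.1) :=
      hψc.comp continuous_fst
    have hq : Continuous fun p : ℝ × ℝ => max (0:ℝ) (min 1 p.2) := hχc.comp continuous_snd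
    simp only [Function.uncurry_def, NN]
    have hn : ∀ p : ℝ × ℝ, 0 < (2 - max (0:ℝ) (min 1 p.2)) *
        (100000 + max (4/100000:ℝ) (min (5/100000) p.1) - 2 + max (0:ℝ) (min 1 p.2)) := fun p =>
      mul_pos (by linarith [hχ2 p.2]) (by linarith [hχ1 p.2, hψ1 p.1])
    have hd : ∀ p : ℝ × ℝ, 0 < (2 - max (0:ℝ) (min 1 p.2) - max (4/100000:ℝ) (min (5/100000) p.1)) *
        (100000 + 2 - max (0:ℝ) (min 1 p.2)) := fun p =>
      mul_pos (by linarith [hχ2 p.2, hψ2 p.1]) (by linarith [hχ2 p.2])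
    refine continuous_const.mul (Continuous.log (Continuous.div ?_ ?_ fun p => (hd p).ne') fun p =>
      (div_pos (hn p) (hd p)).ne')
    · exact (continuous_const.sub hq).mul (((continuous_const.add hp).sub continuous_const).add hq)
    · exact ((continuous_const.sub hq).sub hp).mul (continuous_const.sub hq)
  have hI := intervalIntegral.continuous_parametric_intervalIntegral_of_continuous' (μ := volume)
    hG 0 1
  refine hI.continuousOn.congr fun η hη => ?_
  refine intervalIntegral.integral_congr fun X hX => ?_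
  rw [uIcc_of_le (zero_le_one)] at hX
  rw [min_eq_right hη.2, max_eq_right hη.1, min_eq_right hX.2, max_eq_right hX.1]

end Pool.Agent.Helper216.XRay
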