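import Pool.Agent.Helper216.XRay.Defs

open Set Filter Topology MeasureTheory

namespace Pool.Agent.Helper216.XRay



theorem NN_neg_pt {X : ℝ} (hX : X ∈ Icc (0:ℝ) 1) :
    NN (4/100000) X ≤ 4.001 / (2 - X) - 1.999 * (2 - X) := by
  obtain ⟨h0, h1⟩ := hX
  obtain ⟨u, hu⟩ : ∃ u, u = 2 - X := ⟨_, rfl⟩
  have hX' : X = 2 - u := by linarith
  subst hX'
  have hu1 : 1 ≤ u := by linarith
  have hu2 : u ≤ 2 := by linarith
  have e1 : 2 - (2 - u) = u := by ring
  unfold NN
  rw [e1]
  have e2 : (100000 + 4 / 100000 - 2 + (2 - u) : ℝ) = 100000 + 4 / 100000 - u := by ring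
  have e3 : (100000 + 2 - (2 - u) : ℝ) = 100000 + u := by ring
  rw [e2, e3]
  have hp1 : 0 < u - 4 / 100000 := by linarith
  have hp2 : 0 < 100000 + u := by linarith
  have hA : 0 < u * (100000 + 4 / 100000 - u) / ((u - 4 / 100000) * (100000 + u)) :=
    div_pos (mul_pos (by linarith) (by linarith)) (mul_pos hp1 hp2)
  have hlog := Real.log_le_sub_one_of_pos hA
  have hkey : 100000 * (u * (100000 + 4 / 100000 - u) / ((u - 4 / 100000) * (100000 + u)) - 1) ≤
      4.001 / u - 1.999 * u := by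
    have hu0 : 0 < u := by linarith
    have e4 : 4.001 / u - 1.999 * u = (4.001 - 1.999 * u ^ 2) / u := by
      field_simp
    rw [e4, le_div_iff₀ hu0, div_sub_one (mul_pos hp1 hp2).ne', mul_div_assoc', div_mul_eq_mul_div,
      div_le_iff₀ (mul_pos hp1 hp2)]
    nlinarith [mul_nonneg (sub_nonneg.2 hu1) (sub_nonneg.2 hu2), mul_nonneg (mul_nonneg (sub_nonneg.2 hu1) (sub_nonneg.2 hu2)) hu0.le, mul_nonneg (mul_nonneg (sub_nonneg.2 hu1) (sub_nonneg.2 hu2)) (mul_nonneg hu0.le hu0.le), pow_pos hu0 3, pow_pos hu0 2]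
  linarith

theorem NN_neg_cont : ContinuousOn (fun X => NN (4/100000) X) (Icc (0:ℝ) 1) := by
  unfold NN
  refine ContinuousOn.mul continuousOn_const (ContinuousOn.log ?_ ?_)
  · refine ContinuousOn.div (by fun_prop) (by fun_prop) fun X hX => ?_
    have h1 : 0 < 2 - X - 4 / 100000 := by linarith [hX.2]
    have h2 : 0 < 100000 + 2 - X := by linarith [hX.2]
    exact (mul_pos h1 h2).ne'
  · intro X hX
    have h1 : 0 < 2 - X - 4 / 100000 := by linarith [hX.2]
    have h2 : 0 < 100000 + 2 - X := by linarith [hX.2]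
    have h3 : 0 < 2 - X := by linarith [hX.2]
    have h4 : 0 < 100000 + 4 / 100000 - 2 + X := by linarith [hX.1]
    exact (div_pos (mul_pos h3 h4) (mul_pos h1 h2)).ne'

theorem NN_neg : ∫ X in (0:ℝ)..1, NN (4/100000) X < 0 := by
  have hg : ContinuousOn (fun X : ℝ => 4.001 / (2 - X) - 1.999 * (2 - X)) (Icc (0:ℝ) 1) := by
    refine ContinuousOn.sub (ContinuousOn.div continuousOn_const (by fun_prop) fun X hX => ?_)
      (by fun_prop)
    have : 0 < 2 - X := by linarith [hX.2]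
    exact this.ne'
  have hu : uIcc (0:ℝ) 1 = Icc 0 1 := uIcc_of_le zero_le_one
  have hi1 : IntervalIntegrable (fun X => NN (4/100000) X) volume 0 1 :=
    ContinuousOn.intervalIntegrable (by rw [hu]; exact NN_neg_cont)
  have hi2 : IntervalIntegrable (fun X : ℝ => 4.001 / (2 - X) - 1.999 * (2 - X)) volume 0 1 :=
    ContinuousOn.intervalIntegrable (by rw [hu]; exact hg)
  have h1 := intervalIntegral.integral_mono_on zero_le_one hi1 hi2 fun X hX => NN_neg_pt hX
  have h2 : ∫ X in (0:ℝ)..1, (4.001 / (2 - X) - 1.999 * (2 - X)) =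
      (-4.001 * Real.log (2 - 1) + 1.999 * (2 - 1) ^ 2 / 2) -
      (-4.001 * Real.log (2 - 0) + 1.999 * (2 - 0) ^ 2 / 2) := by
    refine intervalIntegral.integral_eq_sub_of_hasDerivAt
      (f := fun X : ℝ => -4.001 * Real.log (2 - X) + 1.999 * (2 - X) ^ 2 / 2) (fun X hX => ?_) hi2
    rw [hu] at hX
    have h3 : 0 < 2 - X := by linarith [hX.2]
    have hd : HasDerivAt (fun X : ℝ => 2 - X) (-1) X := by
      simpa using (hasDerivAt_id X).const_sub 2
    have h4 := (hd.log h3.ne').const_mul (-4.001)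
    have h5 := ((hd.pow 2).const_mul (1.999 : ℝ)).div_const 2
    have h6 := h4.add h5
    have e : (-4.001 * (-1 / (2 - X)) + 1.999 * (((2:ℕ):ℝ) * (2 - X) ^ (2 - 1) * -1) / 2) =
        4.001 / (2 - X) - 1.999 * (2 - X) := by
      simp only [Nat.cast_ofNat, Nat.add_one_sub_one, pow_one]
      ring
    rw [← e]
    exact h6
  rw [h2] at h1
  have h3 := Real.log_two_lt_d9
  have e1 : (2:ℝ) - 1 = 1 := by norm_num
  have e2 : (2:ℝ) - 0 = 2 := by norm_num
  rw [e1, e2, Real.log_one] at h1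
  refine lt_of_le_of_lt h1 ?_
  norm_num at h3 ⊢
  linarith

end Pool.Agent.Helper216.XRay
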