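import Pool.Agent.Helper216.XRay.Defs

open Set Filter Topology MeasureTheory

namespace Pool.Agent.Helper216.XRay



/-- the derivative -/
noncomputable def NN_nice_d (η X : ℝ) : ℝ :=
  100000 * η / ((2 - X) * (2 - X - η)) + 100000 / (100000 + η - 2 + X) + 100000 / (100000 + 2 - X)

theorem NN_nice_der {η X : ℝ} (h0 : 4 / 100000 ≤ η) (h1 : η ≤ 5 / 100000) (hX0 : 0 ≤ X)
    (hX1 : X ≤ 1) : HasDerivAt (NN η) (NN_nice_d η X) X := by
  have a1 : 0 < 2 - X := by linarith
  have a2 : 0 < 100000 + η - 2 + X := by linarith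
  have a3 : 0 < 2 - X - η := by linarith
  have a4 : 0 < 100000 + 2 - X := by linarith
  have d1 : HasDerivAt (fun X : ℝ => 2 - X) (-1) X := by
    simpa using (hasDerivAt_id X).const_sub 2
  have d2 : HasDerivAt (fun X : ℝ => 100000 + η - 2 + X) 1 X := by
    simpa using (hasDerivAt_id X).const_add (100000 + η - 2)
  have d3 : HasDerivAt (fun X : ℝ => 2 - X - η) (-1) X := d1.sub_const η
  have d4 : HasDerivAt (fun X : ℝ => 100000 + 2 - X) (-1) X := by
    simpa using (hasDerivAt_id X).const_sub (100000 + 2)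
  have dF := (d1.mul d2).div (d3.mul d4) (mul_pos a3 a4).ne'
  have hF : ((2 - X) * (100000 + η - 2 + X)) / ((2 - X - η) * (100000 + 2 - X)) ≠ 0 := by
    positivity
  have dL := (dF.log hF).const_mul 100000
  have e : HasDerivAt (NN η) _ X := dL
  convert e using 1
  unfold NN_nice_d
  simp only [Pi.mul_apply, Pi.div_apply]
  field_simp
  ring

theorem NN_nice_s1 {η u u' : ℝ} (h0 : 4 / 100000 ≤ η) (h1 : η ≤ 5 / 100000) (hu : u ≤ 2)
    (hu' : 1 ≤ u') (h : u' ≤ u) : 95 / 100 * (u - u') ≤
    100000 * η / (u' * (u' - η)) - 100000 * η / (u * (u - η)) := by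
  have a1 : 0 < u' := by linarith
  have a2 : 0 < u := by linarith
  have a3 : 0 < u' - η := by linarith
  have a4 : 0 < u - η := by linarith
  have e : 100000 * η / (u' * (u' - η)) - 100000 * η / (u * (u - η)) =
      (u - u') * (100000 * η * (u + u' - η) / (u * u' * ((u - η) * (u' - η)))) := by
    field_simp
    ring
  rw [e, mul_comm]
  apply mul_le_mul_of_nonneg_left _ (by linarith)
  rw [le_div_iff₀ (by positivity)]
  have b1 : (u - η) * (u' - η) ≤ u * u' :=
    mul_le_mul (by linarith) (by linarith) a3.le a2.le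
  have b2 : u * u' ≤ 4 := by
    calc u * u' ≤ 2 * 2 := mul_le_mul hu (by linarith) a1.le (by norm_num)
      _ = 4 := by norm_num
  have b3 : u * u' ≤ u + u' := by
    have := mul_nonneg (show 0 ≤ 2 - u by linarith) (show 0 ≤ u' - 1 by linarith)
    have := mul_nonneg (show 0 ≤ u - u' by linarith) (show (0:ℝ) ≤ 1 by norm_num)
    nlinarith
  have b4 : 0 < u * u' := mul_pos a2 a1
  have b5 : u * u' * ((u - η) * (u' - η)) ≤ 4 * (u + u') := by
    calc u * u' * ((u - η) * (u' - η)) ≤ u * u' * (u * u') :=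
          mul_le_mul_of_nonneg_left b1 b4.le
      _ ≤ 4 * (u + u') := mul_le_mul b2 b3 b4.le (by norm_num)
  have b6 : 4 * (u + u' - η) ≤ 100000 * η * (u + u' - η) :=
    mul_le_mul_of_nonneg_right (by linarith) (by linarith)
  linarith

theorem NN_nice_s2 {c X Y : ℝ} (hc : 99998 ≤ c) (hX : 0 ≤ X) (h : X ≤ Y) :
    -(1 / 100) * (Y - X) ≤ 100000 / (c + Y) - 100000 / (c + X) := by
  have a1 : 0 < c + X := by linarith
  have a2 : 0 < c + Y := by linarith
  have e : 100000 / (c + Y) - 100000 / (c + X) = -(100000 / ((c + Y) * (c + X))) * (Y - X) := by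
    field_simp
    ring
  rw [e]
  apply mul_le_mul_of_nonneg_right _ (by linarith)
  rw [neg_le_neg_iff, div_le_div_iff₀ (by positivity) (by norm_num)]
  have : (99998:ℝ) * 99998 ≤ (c + Y) * (c + X) :=
    mul_le_mul (by linarith) (by linarith) (by norm_num) a2.le
  linarith

theorem NN_nice {η : ℝ} (hη : η ∈ Icc (4/100000:ℝ) (5/100000))
    (hm : ∫ X in (0:ℝ)..1, NN η X = 0) : ∃ N', NiceN (NN η) N' := by
  obtain ⟨h0, h1⟩ := hη
  refine ⟨NN_nice_d η, ?_, ?_, ?_, ?_, ?_, hm⟩
  · intro X hX
    exact NN_nice_der h0 h1 hX.1 hX.2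
  · unfold NN_nice_d
    refine ContinuousOn.add (ContinuousOn.add ?_ ?_) ?_
    · apply ContinuousOn.div (by fun_prop) (by fun_prop)
      intro X hX
      have a1 : 0 < 2 - X := by linarith [hX.2]
      have a3 : 0 < 2 - X - η := by linarith [hX.2]
      positivity
    · apply ContinuousOn.div (by fun_prop) (by fun_prop)
      intro X hX
      have : 0 < 100000 + η - 2 + X := by linarith [hX.1]
      exact this.ne'
    · apply ContinuousOn.div (by fun_prop) (by fun_prop)
      intro X hX
      have : 0 < 100000 + 2 - X := by linarith [hX.2]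
      exact this.ne'
  · rintro X ⟨hX0, hX1⟩
    have a1 : 0 < 2 - X := by linarith
    have a3 : 0 < 2 - X - η := by linarith
    have t1 : 1 ≤ 100000 * η / ((2 - X) * (2 - X - η)) := by
      rw [le_div_iff₀ (by positivity)]
      have : (2 - X) * (2 - X - η) ≤ 2 * 2 :=
        mul_le_mul (by linarith) (by linarith) a3.le (by norm_num)
      linarith
    have t2 : 1 ≤ 100000 / (100000 + η - 2 + X) := by
      rw [le_div_iff₀ (by linarith)]
      linarith
    have t3 : 99 / 100 ≤ 100000 / (100000 + 2 - X) := by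
      rw [le_div_iff₀ (by linarith)]
      linarith
    unfold NN_nice_d
    linarith
  · rintro X ⟨hX0, hX1⟩
    have a1 : 0 < 2 - X := by linarith
    have a3 : 0 < 2 - X - η := by linarith
    have t1 : 100000 * η / ((2 - X) * (2 - X - η)) ≤ 505 / 100 := by
      rw [div_le_iff₀ (by positivity)]
      have : (1:ℝ) * (1 - 5 / 100000) ≤ (2 - X) * (2 - X - η) :=
        mul_le_mul (by linarith) (by linarith) (by norm_num) a1.le
      linarith
    have t2 : 100000 / (100000 + η - 2 + X) ≤ 101 / 100 := by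
      rw [div_le_iff₀ (by linarith)]
      linarith
    have t3 : 100000 / (100000 + 2 - X) ≤ 1 := by
      rw [div_le_iff₀ (by linarith)]
      linarith
    unfold NN_nice_d
    linarith
  · rintro X ⟨hX0, hX1⟩ Y ⟨hY0, hY1⟩ hXY
    have t1 := NN_nice_s1 (u := 2 - X) (u' := 2 - Y) h0 h1 (by linarith) (by linarith) (by linarith)
    have t2 := NN_nice_s2 (c := 100000 + η - 2) (X := X) (Y := Y) (by linarith) hX0 hXY
    have t3 : 100000 / (100000 + 2 - X) ≤ 100000 / (100000 + 2 - Y) :=
      div_le_div_of_nonneg_left (by norm_num) (by linarith) (by linarith)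
    unfold NN_nice_d
    linarith

end Pool.Agent.Helper216.XRay
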