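import Pool.Agent.Helper216.XRay.Defs

open Set Filter Topology MeasureTheory

namespace Pool.Agent.Helper216.XRay



theorem NN_pos_pt (X : ℝ) (hX : X ∈ Icc (0:ℝ) 1) :
    5 / (2 - X) - 20001/10000 * (2 - X) ≤ NN (5/100000) X := by
  obtain ⟨h0, h1⟩ := hX
  unfold NN
  set u : ℝ := 2 - X with hu
  have hu1 : 1 ≤ u := by rw [hu]; linarith
  have hu2 : u ≤ 2 := by rw [hu]; linarith
  have e1 : (100000 + 5/100000 - 2 + X : ℝ) = 100000 + 5/100000 - u := by rw [hu]; ring
  have e2 : (100000 + 2 - X : ℝ) = 100000 + u := by rw [hu]; ring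
  rw [e1, e2]
  have hA : 0 < u - 5/100000 := by linarith
  have hB : 0 < 100000 + u := by linarith
  have hC : (0:ℝ) < 100000 + 5/100000 - u := by linarith
  have hu0 : 0 < u := by linarith
  have e3 : u * (100000 + 5/100000 - u) / ((u - 5/100000) * (100000 + u))
      = (u / (u - 5/100000)) / ((100000 + u) / (100000 + 5/100000 - u)) := by
    field_simp
  rw [e3, Real.log_div (by positivity) (by positivity)]
  have k1 : 1 - (u / (u - 5/100000))⁻¹ ≤ Real.log (u / (u - 5/100000)) :=
    Real.one_sub_inv_le_log_of_pos (by positivity)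
  have k2 : Real.log ((100000 + u) / (100000 + 5/100000 - u)) ≤
      (100000 + u) / (100000 + 5/100000 - u) - 1 :=
    Real.log_le_sub_one_of_pos (by positivity)
  have k3 : 1 - (u / (u - 5/100000))⁻¹ = (5/100000) / u := by
    rw [inv_div]; field_simp; ring
  have k4 : (100000 + u) / (100000 + 5/100000 - u) - 1 ≤ 20001/1000000000 * u := by
    rw [sub_le_iff_le_add, div_le_iff₀ hC]
    nlinarith [mul_nonneg (sub_nonneg.2 hu1) (sub_nonneg.2 hu2)]
  have k5 : (5:ℝ) / u = 100000 * ((5/100000) / u) := by ring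
  rw [k5]
  rw [k3] at k1
  linarith

theorem NN_pos_cont : ContinuousOn (fun X => NN (5/100000) X) (Icc (0:ℝ) 1) := by
  unfold NN
  apply ContinuousOn.mul continuousOn_const
  apply ContinuousOn.log
  · apply ContinuousOn.div (by fun_prop) (by fun_prop)
    intro X hX
    obtain ⟨h0, h1⟩ := hX
    have hA : 0 < 2 - X - 5/100000 := by linarith
    have hB : 0 < 100000 + 2 - X := by linarith
    exact (mul_pos hA hB).ne'
  · intro X hX
    obtain ⟨h0, h1⟩ := hX
    have hA : 0 < 2 - X - 5/100000 := by linarith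
    have hB : 0 < 100000 + 2 - X := by linarith
    have hC : (0:ℝ) < 2 - X := by linarith
    have hD : (0:ℝ) < 100000 + 5/100000 - 2 + X := by linarith
    exact (div_pos (mul_pos hC hD) (mul_pos hA hB)).ne'

theorem NN_pos_low : ∫ X in (0:ℝ)..1, (5 / (2 - X) - 20001/10000 * (2 - X))
    = 5 * Real.log 2 - 60003/20000 := by
  have h : ∀ X ∈ uIcc (0:ℝ) 1, HasDerivAt
      (fun X : ℝ => -5 * Real.log (2 - X) + 20001/20000 * (2 - X)^2)
      (5 / (2 - X) - 20001/10000 * (2 - X)) X := by
    intro X hX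
    rw [uIcc_of_le zero_le_one] at hX
    obtain ⟨h0, h1⟩ := hX
    have hC : (0:ℝ) < 2 - X := by linarith
    have d1 : HasDerivAt (fun X : ℝ => 2 - X) (-1) X := by
      simpa using (hasDerivAt_id X).const_sub 2
    have d2 := (d1.log hC.ne').const_mul (-5)
    have d3 := (d1.pow 2).const_mul (20001/20000 : ℝ)
    refine (d2.add d3).congr_deriv ?_
    field_simp
    ring
  have hc : ContinuousOn (fun X : ℝ => 5 / (2 - X) - 20001/10000 * (2 - X)) (uIcc (0:ℝ) 1) := by
    rw [uIcc_of_le zero_le_one]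
    apply ContinuousOn.sub
    · apply ContinuousOn.div (by fun_prop) (by fun_prop)
      intro X hX
      obtain ⟨h0, h1⟩ := hX
      have hC : (0:ℝ) < 2 - X := by linarith
      exact hC.ne'
    · fun_prop
  rw [intervalIntegral.integral_eq_sub_of_hasDerivAt h hc.intervalIntegrable]
  norm_num
  ring

theorem NN_pos : 0 < ∫ X in (0:ℝ)..1, NN (5/100000) X := by
  have hc : ContinuousOn (fun X : ℝ => 5 / (2 - X) - 20001/10000 * (2 - X)) (uIcc (0:ℝ) 1) := by
    rw [uIcc_of_le zero_le_one]
    apply ContinuousOn.sub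
    · apply ContinuousOn.div (by fun_prop) (by fun_prop)
      intro X hX
      obtain ⟨h0, h1⟩ := hX
      have hC : (0:ℝ) < 2 - X := by linarith
      exact hC.ne'
    · fun_prop
  have hN : IntervalIntegrable (fun X => NN (5/100000) X) volume 0 1 := by
    apply ContinuousOn.intervalIntegrable
    rw [uIcc_of_le zero_le_one]
    exact NN_pos_cont
  have h1 := intervalIntegral.integral_mono_on zero_le_one hc.intervalIntegrable hN
    NN_pos_pt
  rw [NN_pos_low] at h1
  have h2 := Real.log_two_gt_d9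
  linarith

end Pool.Agent.Helper216.XRay
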