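import Pool.Agent.Helper216.XRay.Defs

open Set Filter Topology MeasureTheory

namespace Pool.Agent.Helper216.XRay



theorem alg_cube_aux {x q t : ℝ} (hx : 0 < x) (hq : 0 < q) (ht : 0 < t) :
    3 * q * t ^ 2 - 2 * t ^ 3 * x ≤ q ^ 3 / x ^ 2 := by
  rw [le_div_iff₀ (by positivity)]
  have h1 : 0 ≤ (q - t * x) ^ 2 * (q + 2 * (t * x)) := by positivity
  nlinarith [h1]

theorem alg_cube {x z p q : ℝ} (hx : 0 < x) (hz : 0 < z) (hp : 0 < p) (hq : 0 < q) :
    1/(x+z)^2*(p+q)^3 ≤ q^3/x^2 + p^3/z^2 := by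
  have ht : 0 < (p + q) / (x + z) := by positivity
  have h1 := alg_cube_aux hx hq ht
  have h2 := alg_cube_aux hz hp ht
  have h3 : 1/(x+z)^2*(p+q)^3 = (3 * q * ((p + q) / (x + z)) ^ 2 - 2 * ((p + q) / (x + z)) ^ 3 * x)
      + (3 * p * ((p + q) / (x + z)) ^ 2 - 2 * ((p + q) / (x + z)) ^ 3 * z) := by
    have hxz : x + z ≠ 0 := by positivity
    field_simp
    ring
  rw [h3]
  exact add_le_add h1 h2

end Pool.Agent.Helper216.XRay
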