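import Pool.Agent.Helper216.XRay.Defs

open Set Filter Topology MeasureTheory

namespace Pool.Agent.Helper216.XRay



theorem alg_up {x z p q : ℝ} (hx : 0 < x) (hz : 0 < z) (hx2 : x ≤ 3/4) (hz2 : z ≤ 1/4)
    (hp : 0 < p) (hq : 0 < q) (h1 : p ≤ (313-(400/3)*x)/(30*x) - 29/10)
    (h2 : q ≤ (313-400*z)/(30*z) + 71/10) :
    p*q/(p+q) ≤ (313-100*(x+z))/(30*(x+z)) := by
  have e1 : (313-(400/3)*x)/(30*x) - 29/10 = (313 - 661/3*x)/(30*x) := by
    field_simp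
    ring
  have e2 : (313-400*z)/(30*z) + 71/10 = (313 - 187*z)/(30*z) := by
    field_simp
    ring
  rw [e1] at h1
  rw [e2] at h2
  have h1' : p * (30*x) ≤ 313 - 661/3*x := (le_div_iff₀ (by positivity)).1 h1
  have h2' : q * (30*z) ≤ 313 - 187*z := (le_div_iff₀ (by positivity)).1 h2
  have hP : 0 < 313 - 661/3*x := lt_of_lt_of_le (by positivity) h1'
  have hQ : 0 < 313 - 187*z := lt_of_lt_of_le (by positivity) h2'
  obtain ⟨P, hPdef⟩ : ∃ P, P = 313 - 661/3*x := ⟨_, rfl⟩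
  obtain ⟨Q, hQdef⟩ : ∃ Q, Q = 313 - 187*z := ⟨_, rfl⟩
  rw [← hPdef] at h1' hP
  rw [← hQdef] at h2' hQ
  have hW : 0 < x + z := by positivity
  have hC : 0 < 313 - 100*(x+z) := by linarith
  -- Cauchy
  have k1 : (x+z)^2 ≤ (x/P+z/Q) * (x*P+z*Q) := by
    have k0 : (x/P+z/Q) * (x*P+z*Q) - (x+z)^2 = x*z*(P-Q)^2/(P*Q) := by
      field_simp
      ring
    have k00 : 0 ≤ x*z*(P-Q)^2/(P*Q) := by positivity
    linarith
  have k2 : x*P+z*Q ≤ (313-100*(x+z))*(x+z) := by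
    rw [hPdef, hQdef]
    nlinarith [sq_nonneg (361*x - 300*z), sq_nonneg z]
  have k3 : 0 < x/P+z/Q := by positivity
  have k4 : (x+z)*(x+z) ≤ ((x/P+z/Q)*(313-100*(x+z)))*(x+z) := by
    have := mul_le_mul_of_nonneg_left k2 k3.le
    nlinarith
  have k5 : x+z ≤ (x/P+z/Q)*(313-100*(x+z)) := le_of_mul_le_mul_right k4 hW
  have k6 : 30*x/P ≤ 1/p := by
    rw [div_le_div_iff₀ hP hp]
    linarith
  have k7 : 30*z/Q ≤ 1/q := by
    rw [div_le_div_iff₀ hQ hq]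
    linarith
  have k8 : 30*(x+z) ≤ (1/p+1/q)*(313-100*(x+z)) := by
    have h : (30*x/P + 30*z/Q)*(313-100*(x+z)) ≤ (1/p+1/q)*(313-100*(x+z)) :=
      mul_le_mul_of_nonneg_right (by linarith) hC.le
    have h' : (30*x/P + 30*z/Q)*(313-100*(x+z)) = 30*((x/P+z/Q)*(313-100*(x+z))) := by ring
    rw [h'] at h
    linarith
  rw [div_le_div_iff₀ (by positivity) (by positivity)]
  have k9 : (1/p+1/q)*(313-100*(x+z))*(p*q) = (313-100*(x+z))*(p+q) := by
    field_simp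
    ring
  have k10 := mul_le_mul_of_nonneg_right k8 (by positivity : 0 ≤ p*q)
  rw [k9] at k10
  linarith

end Pool.Agent.Helper216.XRay
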