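import Pool.Agent.Helper216.XRay.Defs

open Set Filter Topology MeasureTheory

namespace Pool.Agent.Helper216.XRay



theorem cls_nonneg {w v : ℝ → ℝ} (hC : Cls w v) : ∀ s ∈ Ico (0:ℝ) 1, 0 ≤ v s := by
  intro s hs
  have h := hC.inc 0 ⟨le_rfl, by norm_num⟩ s hs hs.1
  rw [hC.v0] at h
  have h1 : (1:ℝ) ≤ 1 / (1 - s) := by
    rw [le_div_iff₀ (by linarith [hs.2])]
    linarith [hs.1]
  have h2 : (1/100 : ℝ) * (1/(1-s) - 1/(1-0)) ≥ 0 := by
    have : (1:ℝ)/(1-0) = 1 := by norm_num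
    rw [this]
    linarith
  linarith

end Pool.Agent.Helper216.XRay
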