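import Pool.Agent.Helper216.XRay.Defs
import Pool.Agent.Helper216.XRay.P_cls_nonneg

open Set Filter Topology MeasureTheory

namespace Pool.Agent.Helper216.XRay



theorem cls_bounds {w v : ℝ → ℝ} (hC : Cls w v) : ∀ s ∈ Ico (0:ℝ) 1, ∀ t ∈ Ico (0:ℝ) 1, s ≤ t →
    (1/100)*((Real.log (1-s) + s) - (Real.log (1-t) + t)) ≤ w s - w t ∧
    w s - w t ≤ (313/30)*(Real.log (1-s) - Real.log (1-t)) := by
  intro s hs t ht hst
  have hlog : ContinuousOn (fun r : ℝ => Real.log (1 - r)) (Ico 0 1) := by
    apply ContinuousOn.log (by fun_prop)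
    intro x hx
    have := hx.2
    linarith
  have hld : ∀ r ∈ Ioo (0:ℝ) 1, HasDerivAt (fun r : ℝ => Real.log (1 - r)) (-(1 / (1 - r))) r := by
    intro r hr
    have h1 : (1 - r) ≠ 0 := by have := hr.2; linarith
    have h2 : HasDerivAt (fun r : ℝ => 1 - r) (-1) r := by
      simpa using (hasDerivAt_id r).const_sub 1
    have h3 := h2.log h1
    convert h3 using 1
    ring
  constructor
  · have hd : ∀ r ∈ Ioo (0:ℝ) 1, HasDerivAt (fun r => w r - (1/100)*(Real.log (1-r) + r))
        (-v r - (1/100) * (-(1/(1-r)) + 1)) r := by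
      intro r hr
      exact (hC.der r hr).sub (((hld r hr).add (hasDerivAt_id r)).const_mul (1/100))
    have hanti : AntitoneOn (fun r => w r - (1/100)*(Real.log (1-r) + r)) (Ico 0 1) := by
      apply antitoneOn_of_deriv_nonpos (convex_Ico 0 1)
      · exact hC.cont.sub (continuousOn_const.mul (hlog.add continuousOn_id))
      · rw [interior_Ico]
        intro r hr
        exact (hd r hr).differentiableAt.differentiableWithinAt
      · rw [interior_Ico]
        intro r hr
        rw [(hd r hr).deriv]
        have h1 := hC.inc 0 ⟨le_refl _, one_pos⟩ r ⟨hr.1.le, hr.2⟩ hr.1.le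
        rw [hC.v0] at h1
        have h2 : (1 : ℝ) / (1 - 0) = 1 := by norm_num
        rw [h2] at h1
        linarith
    have h := hanti hs ht hst
    simp only at h
    linarith
  · have hd : ∀ r ∈ Ioo (0:ℝ) 1, HasDerivAt (fun r => w r - (313/30)*(Real.log (1-r)))
        (-v r - (313/30) * (-(1/(1-r)))) r := by
      intro r hr
      exact (hC.der r hr).sub ((hld r hr).const_mul (313/30))
    have hmono : MonotoneOn (fun r => w r - (313/30)*(Real.log (1-r))) (Ico 0 1) := by
      apply monotoneOn_of_deriv_nonneg (convex_Ico 0 1)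
      · exact hC.cont.sub (continuousOn_const.mul hlog)
      · rw [interior_Ico]
        intro r hr
        exact (hd r hr).differentiableAt.differentiableWithinAt
      · rw [interior_Ico]
        intro r hr
        rw [(hd r hr).deriv]
        have h1 := hC.up r ⟨hr.1.le, hr.2⟩
        have h2 : 0 < 1 - r := by have := hr.2; linarith
        have h3 : (100 * r + 213) / (30 * (1 - r)) ≤ (313/30) * (1 / (1 - r)) := by
          rw [div_le_iff₀ (by positivity)]
          have h4 : (313/30) * (1 / (1 - r)) * (30 * (1 - r)) = 313 := by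
            field_simp
          rw [h4]
          have := hr.2
          linarith
        linarith
    have h := hmono hs ht hst
    simp only at h
    linarith

end Pool.Agent.Helper216.XRay
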