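import Pool.Agent.Helper216.XRay.Defs

open Set Filter Topology MeasureTheory

namespace Pool.Agent.Helper216.XRay



theorem cls_shift {w v : ℝ → ℝ} (h : Cls w v) (c : ℝ) : Cls (fun s => w s - c) v := by
  exact {
    cont := h.cont.sub continuousOn_const
    der := fun s hs => (h.der s hs).sub_const c
    vcont := h.vcont
    v0 := h.v0
    up := h.up
    inc := h.inc }
end Pool.Agent.Helper216.XRay
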