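import Pool.Agent.Helper216.XRay.Defs

open Set Filter Topology MeasureTheory

namespace Pool.Agent.Helper216.XRay



theorem isT_shift {N w w1 : ℝ → ℝ} (h : IsT N w w1) (c : ℝ) :
    IsT N (fun s => w s - c) (fun s => w1 s - c) := by
  have e : ∀ X, hh (fun s => w s - c) N X = hh w N X - c := by
    intro X
    unfold hh
    ring
  intro s hs
  obtain ⟨⟨x, hx, h1, h2⟩, h3⟩ := h s hs
  refine ⟨⟨x, hx, ?_, ?_⟩, ?_⟩
  · rw [e, h1]
  · rw [e, h2]
  · intro X hX
    rw [e, e, min_sub_sub_right]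
    exact sub_le_sub_right (h3 X hX) c

end Pool.Agent.Helper216.XRay
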