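import Pool.Agent.Helper216.XRay.Defs
import Pool.Agent.Helper216.XRay.P_cls_nonneg

open Set Filter Topology MeasureTheory

namespace Pool.Agent.Helper216.XRay



theorem cls_anti {w v : ℝ → ℝ} (hC : Cls w v) : AntitoneOn w (Ico 0 1) := by
  apply antitoneOn_of_deriv_nonpos (convex_Ico 0 1) hC.cont
  · rw [interior_Ico]
    intro s hs
    exact (hC.der s hs).differentiableAt.differentiableWithinAt
  · rw [interior_Ico]
    intro s hs
    rw [(hC.der s hs).deriv]
    have := cls_nonneg hC s ⟨hs.1.le, hs.2⟩
    linarith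

end Pool.Agent.Helper216.XRay
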