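import Pool.Agent.Helper216.XRay.Defs

open Set Filter Topology MeasureTheory

namespace Pool.Agent.Helper216.XRay



theorem cls_base : Cls (fun s => (1/100)*(Real.log (1-s) + s)) (fun s => (1/100)*(1/(1-s) - 1)) := by
  have hder : ∀ s : ℝ, s < 1 → HasDerivAt (fun s : ℝ => (1/100)*(Real.log (1-s) + s))
      (-((1/100)*(1/(1-s) - 1))) s := by
    intro s hs
    have h0 : (1 - s) ≠ 0 := by
      have : 0 < 1 - s := by linarith
      exact this.ne'
    have h1 : HasDerivAt (fun s : ℝ => 1 - s) (-1) s := (hasDerivAt_id' s).const_sub 1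
    have h2 : HasDerivAt (fun s : ℝ => Real.log (1 - s)) (-1 / (1 - s)) s := h1.log h0
    refine ((h2.add (hasDerivAt_id' s)).const_mul (1/100 : ℝ)).congr_deriv ?_
    field_simp
    ring
  refine ⟨?_, ?_, ?_, ?_, ?_, ?_⟩
  · intro s hs
    exact (hder s hs.2).continuousAt.continuousWithinAt
  · intro s hs
    exact hder s hs.2
  · refine ContinuousOn.mul continuousOn_const (ContinuousOn.sub ?_ continuousOn_const)
    refine ContinuousOn.div continuousOn_const (by fun_prop) ?_
    intro s hs
    have : 0 < 1 - s := by linarith [hs.2]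
    exact this.ne'
  · norm_num
  · intro s hs
    have h1 : 0 < 1 - s := by linarith [hs.2]
    have h2 : (1/100 : ℝ)*(1/(1-s) - 1) = (s / 100) / (1 - s) := by
      field_simp
      ring
    beta_reduce
    rw [h2, div_le_div_iff₀ h1 (by positivity)]
    have h3 := hs.1
    nlinarith [mul_nonneg h3 h1.le]
  · intro s hs t ht hst
    beta_reduce
    apply le_of_eq
    ring

end Pool.Agent.Helper216.XRay
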