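import Pool.Agent.Helper216.XRay.Defs

open Set Filter Topology MeasureTheory

namespace Pool.Agent.Helper216.XRay



theorem cls_mix {w v w' v' : ℝ → ℝ} {a : ℝ} (h : Cls w v) (h' : Cls w' v') (h0 : 0 ≤ a)
    (h1 : a ≤ 1) : Cls (fun s => (1-a)*w s + a*w' s) (fun s => (1-a)*v s + a*v' s) := by
  have ha : 0 ≤ 1 - a := by linarith
  refine ⟨?_, ?_, ?_, ?_, ?_, ?_⟩
  · exact (continuousOn_const.mul h.cont).add (continuousOn_const.mul h'.cont)
  · intro s hs
    have h2 := ((h.der s hs).const_mul (1 - a)).add ((h'.der s hs).const_mul a)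
    have h3 : (1 - a) * -v s + a * -v' s = -((1 - a) * v s + a * v' s) := by ring
    rw [h3] at h2
    exact h2
  · exact (continuousOn_const.mul h.vcont).add (continuousOn_const.mul h'.vcont)
  · show (1 - a) * v 0 + a * v' 0 = 0
    rw [h.v0, h'.v0]
    ring
  · intro s hs
    show (1 - a) * v s + a * v' s ≤ _
    have h2 := mul_le_mul_of_nonneg_left (h.up s hs) ha
    have h3 := mul_le_mul_of_nonneg_left (h'.up s hs) h0
    calc (1 - a) * v s + a * v' s ≤ (1 - a) * ((100*s+213)/(30*(1-s))) + a * ((100*s+213)/(30*(1-s))) :=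
          add_le_add h2 h3
      _ = (100*s+213)/(30*(1-s)) := by ring
  · intro s hs t ht hst
    show _ ≤ ((1 - a) * v t + a * v' t) - ((1 - a) * v s + a * v' s)
    have h2 := mul_le_mul_of_nonneg_left (h.inc s hs t ht hst) ha
    have h3 := mul_le_mul_of_nonneg_left (h'.inc s hs t ht hst) h0
    calc (1/100)*(1/(1-t) - 1/(1-s)) = (1 - a) * ((1/100)*(1/(1-t) - 1/(1-s))) +
          a * ((1/100)*(1/(1-t) - 1/(1-s))) := by ring
      _ ≤ (1 - a) * (v t - v s) + a * (v' t - v' s) := add_le_add h2 h3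
      _ = ((1 - a) * v t + a * v' t) - ((1 - a) * v s + a * v' s) := by ring

end Pool.Agent.Helper216.XRay
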