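import Pool.Agent.Helper216.XRay.Defs

open Set Filter Topology MeasureTheory

namespace Pool.Agent.Helper216.XRay



theorem dini_inc {f : ℝ → ℝ} (hf : ContinuousOn f (Ico 0 1))
    (hd : ∀ s ∈ Ioo (0:ℝ) 1, ∀ K, K < (1/100)/(1-s)^2 →
      ∀ᶠ t in 𝓝[>] s, K * (t - s) ≤ f t - f s) :
    ∀ s ∈ Ico (0:ℝ) 1, ∀ t ∈ Ico (0:ℝ) 1, s ≤ t →
      (1/100)*(1/(1-t) - 1/(1-s)) ≤ f t - f s := by
  have key : ∀ s ∈ Ioo (0:ℝ) 1, ∀ t ∈ Ico (0:ℝ) 1, s ≤ t →
      (1/100)*(1/(1-t) - 1/(1-s)) ≤ f t - f s := by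
    intro s hs t ht hst
    have hsub : Icc s t ⊆ Ico (0:ℝ) 1 := fun y hy => ⟨hs.1.le.trans hy.1, hy.2.trans_lt ht.2⟩
    have hder : ∀ y ∈ Icc s t, HasDerivAt (fun r => -f s - (1/100)*(1/(1-r) - 1/(1-s)))
        (-((1/100)/(1-y)^2)) y := by
      intro y hy
      have hy1 : (1 - y) ≠ 0 := by
        have := (hsub hy).2
        linarith
      have h1 : HasDerivAt (fun r : ℝ => 1 - r) (-1) y := by
        simpa using (hasDerivAt_id y).const_sub 1
      have h2 := (((h1.inv hy1).sub_const (1/(1-s))).const_mul (1/100 : ℝ)).const_sub (-f s)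
      have e1 : (fun r : ℝ => -f s - (1/100)*(1/(1-r) - 1/(1-s)))
          = fun r : ℝ => -f s - (1/100)*((1-r)⁻¹ - 1/(1-s)) := by
        funext r
        rw [one_div (1 - r)]
      rw [e1]
      have e2 : (-((1/100)/(1-y)^2) : ℝ) = -((1/100 : ℝ) * (-(-1)/(1-y)^2)) := by ring
      rw [e2]
      exact h2
    have hfin := image_le_of_liminf_slope_right_le_deriv_boundary (f := fun r => -f r)
      (a := s) (b := t) (hf.mono hsub).neg
      (B := fun r => -f s - (1/100)*(1/(1-r) - 1/(1-s)))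
      (B' := fun y => -((1/100)/(1-y)^2)) (by simp)
      (fun y hy => (hder y hy).continuousAt.continuousWithinAt)
      (fun y hy => (hder y ⟨hy.1, hy.2.le⟩).hasDerivWithinAt)
      (by
        intro y hy r hr
        have hy0 : y ∈ Ioo (0:ℝ) 1 := ⟨hs.1.trans_le hy.1, hy.2.trans ht.2⟩
        have hK : -((-((1/100)/(1-y)^2) + r)/2) < (1/100)/(1-y)^2 := by linarith
        have h := hd y hy0 _ hK
        have h2 : ∀ᶠ z in 𝓝[>] y, slope (fun r => -f r) y z < r := by
          filter_upwards [h, self_mem_nhdsWithin] with z hz hzy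
          have hzy' : 0 < z - y := sub_pos.mpr hzy
          rw [slope_def_field, div_lt_iff₀ hzy']
          have : ((-((1/100)/(1-y)^2) + r)/2) * (z - y) < r * (z - y) := by
            apply mul_lt_mul_of_pos_right _ hzy'
            linarith
          nlinarith
        exact h2.frequently)
    have := hfin (x := t) ⟨hst, le_rfl⟩
    have this' : -f t ≤ -f s - (1/100)*(1/(1-t) - 1/(1-s)) := this
    linarith
  intro s hs t ht hst
  rcases hs.1.eq_or_lt with h0 | h0
  · subst h0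
    rcases ht.1.eq_or_lt with h1 | h1
    · subst h1
      simp
    · have hc : Tendsto f (𝓝[>] 0) (𝓝 (f 0)) := by
        have := hf 0 ⟨le_rfl, one_pos⟩
        refine (this.mono (Ioo_subset_Ico_self)).tendsto.mono_left ?_
        rw [nhdsWithin_Ioo_eq_nhdsGT one_pos]
      have hr : Tendsto (fun s : ℝ => f t - f s) (𝓝[>] 0) (𝓝 (f t - f 0)) :=
        tendsto_const_nhds.sub hc
      have hl : Tendsto (fun s : ℝ => (1/100)*(1/(1-t) - 1/(1-s))) (𝓝[>] 0)
          (𝓝 ((1/100)*(1/(1-t) - 1/(1-0)))) := by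
        have hca : ContinuousAt (fun s : ℝ => (1/100)*(1/(1-t) - 1/(1-s))) 0 := by
          refine ContinuousAt.mul continuousAt_const (ContinuousAt.sub continuousAt_const ?_)
          refine ContinuousAt.div continuousAt_const (by fun_prop) (by norm_num)
        exact hca.tendsto.mono_left nhdsWithin_le_nhds
      refine le_of_tendsto_of_tendsto hl hr ?_
      have hev : ∀ᶠ s in 𝓝[>] (0:ℝ), s ∈ Ioo 0 t := Ioo_mem_nhdsGT h1
      filter_upwards [hev] with y hy
      exact key y ⟨hy.1, hy.2.trans ht.2⟩ t ht hy.2.le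
  · exact key s ⟨h0, hs.2⟩ t ht hst

end Pool.Agent.Helper216.XRay
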