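import Pool.Agent.Helper216.XRay.Defs

open Set Filter Topology MeasureTheory

namespace Pool.Agent.Helper216.XRay


theorem hill_ch_exists_aux {h g : ℝ → ℝ} (H : Hill h g) (s : ℝ) (hs0 : 0 < s) (hs1 : s < 1) :
    ∃ x, IsCh h g s x ∧ ∃ c ∈ Ioo (0:ℝ) 1, g c = 0 := by
  have hc : ∀ x ∈ Ioo (0:ℝ) 1, ContinuousAt h x := fun x hx => (H.der x hx).continuousAt
  obtain ⟨φ, hφ⟩ : ∃ φ : ℝ → ℝ, ∀ x, φ x = h (x + s) - h x := ⟨_, fun _ => rfl⟩
  have hφe : φ = fun x => h (x + s) - h x := funext hφ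
  have hφc : ContinuousOn φ (Ioo 0 (1 - s)) := by
    intro x hx
    rw [hφe]
    have h1 : ContinuousAt h (x + s) := hc _ ⟨by linarith [hx.1], by linarith [hx.2]⟩
    have h2 : ContinuousAt h x := hc _ ⟨hx.1, by linarith [hx.2]⟩
    have h3 : ContinuousAt (fun x => h (x + s)) x :=
      ContinuousAt.comp (f := fun x => x + s) h1 (by fun_prop)
    exact (h3.sub h2).continuousWithinAt
  -- near 0
  obtain ⟨x1, hx1, hx1p⟩ : ∃ x1 ∈ Ioo 0 (1 - s), 0 < φ x1 := by
    have h1 : Tendsto (fun x => h (x + s)) (𝓝[>] 0) (𝓝 (h s)) := by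
      have h2 : ContinuousAt (fun x => h (x + s)) 0 := by
        have h3 : ContinuousAt h (0 + s) := by
          rw [zero_add]
          exact hc s ⟨hs0, hs1⟩
        exact ContinuousAt.comp (f := fun x => x + s) h3 (by fun_prop)
      have h4 := h2.tendsto
      simp only [zero_add] at h4
      exact h4.mono_left nhdsWithin_le_nhds
    have h2 : Tendsto (fun x => -h x) (𝓝[>] 0) atTop := tendsto_neg_atBot_atTop.comp H.lim0
    have h3 : Tendsto (fun x => h (x + s) + -h x) (𝓝[>] 0) atTop := h1.add_atTop h2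
    have h4 := (h3.eventually (eventually_gt_atTop 0)).and
      (Ioo_mem_nhdsGT (show (0:ℝ) < 1 - s by linarith))
    obtain ⟨x, hx, hx'⟩ := h4.exists
    refine ⟨x, hx', ?_⟩
    rw [hφ]
    linarith
  obtain ⟨x2, hx2, hx2p⟩ : ∃ x2 ∈ Ioo 0 (1 - s), φ x2 < 0 := by
    have h1 : Tendsto (fun x => h x) (𝓝[<] (1 - s)) (𝓝 (h (1 - s))) :=
      (hc (1 - s) ⟨by linarith, by linarith⟩).tendsto.mono_left nhdsWithin_le_nhds
    have h2 : Tendsto (fun x => h (x + s)) (𝓝[<] (1 - s)) atBot := by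
      apply H.lim1.comp
      apply tendsto_nhdsWithin_of_tendsto_nhds_of_eventually_within
      · have : Tendsto (fun x : ℝ => x + s) (𝓝 (1 - s)) (𝓝 (1 - s + s)) :=
          (continuous_id.add continuous_const).tendsto _
        rw [sub_add_cancel] at this
        exact this.mono_left nhdsWithin_le_nhds
      · filter_upwards [self_mem_nhdsWithin] with x hx
        have hx' : x < 1 - s := hx
        show x + s < 1
        linarith
    have h3 : Tendsto (fun x => -h x + h (x + s)) (𝓝[<] (1 - s)) atBot :=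
      h1.neg.add_atBot h2
    have h4 := (h3.eventually (eventually_lt_atBot 0)).and
      (Ioo_mem_nhdsLT (show (0:ℝ) < 1 - s by linarith))
    obtain ⟨x, hx, hx'⟩ := h4.exists
    refine ⟨x, hx', ?_⟩
    rw [hφ]
    linarith
  have hsub : uIcc x1 x2 ⊆ Ioo 0 (1 - s) := ordConnected_Ioo.uIcc_subset hx1 hx2
  have hivt := intermediate_value_uIcc (hφc.mono hsub)
  obtain ⟨x, hx, hx0⟩ := hivt (show (0:ℝ) ∈ uIcc (φ x1) (φ x2) by
    rw [mem_uIcc]
    right
    exact ⟨hx2p.le, hx1p.le⟩)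
  have hx' := hsub hx
  rw [hφ] at hx0
  have heq : h x = h (x + s) := by linarith
  obtain ⟨c, hc1, hc2⟩ := exists_hasDerivAt_eq_zero (f := h) (f' := g) (a := x) (b := x + s)
    (by linarith) (by
      intro y hy
      exact (hc y ⟨by linarith [hx'.1, hy.1], by linarith [hx'.2, hy.2]⟩).continuousWithinAt) heq
    (by
      intro y hy
      exact H.der y ⟨by linarith [hx'.1, hy.1], by linarith [hx'.2, hy.2]⟩)
  have hcI : c ∈ Ioo (0:ℝ) 1 := ⟨by linarith [hx'.1, hc1.1], by linarith [hx'.2, hc1.2]⟩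
  have hxI : x ∈ Ioo (0:ℝ) 1 := ⟨hx'.1, by linarith [hx'.2]⟩
  have hxsI : x + s ∈ Ioo (0:ℝ) 1 := ⟨by linarith [hx'.1], by linarith [hx'.2]⟩
  refine ⟨x, ⟨hx'.1, by linarith [hx'.2], heq, ?_, ?_⟩, c, hcI, hc2⟩
  · have := H.anti hxI hcI hc1.1
    rw [hc2] at this
    exact this.le
  · have := H.anti hcI hxsI hc1.2
    rw [hc2] at this
    exact this.le

theorem hill_ch_exists {h g : ℝ → ℝ} (H : Hill h g) :
    ∀ s ∈ Ico (0:ℝ) 1, ∃ x, IsCh h g s x := by
  intro s hs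
  rcases eq_or_lt_of_le hs.1 with h0 | h0
  · obtain ⟨_, _, c, hc, hc0⟩ := hill_ch_exists_aux H (1 / 2) (by norm_num) (by norm_num)
    refine ⟨c, hc.1, ?_, ?_, ?_, ?_⟩
    · rw [← h0, add_zero]
      exact hc.2
    · rw [← h0, add_zero]
    · rw [hc0]
    · rw [← h0, add_zero, hc0]
  · obtain ⟨x, hx, _⟩ := hill_ch_exists_aux H s h0 hs.2
    exact ⟨x, hx⟩

end Pool.Agent.Helper216.XRay
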