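import Pool.Agent.Helper216.XRay.Defs

open Set Filter Topology MeasureTheory

namespace Pool.Agent.Helper216.XRay



theorem hill_mono_auxA {h g : ℝ → ℝ} (H : Hill h g) {u v z : ℝ} (hu : 0 < u) (huv : u < v)
    (hvz : v ≤ z) (hz : z < 1) (hg : 0 ≤ g z) : h u < h v := by
  have hm : StrictMonoOn h (Icc u v) := by
    apply strictMonoOn_of_deriv_pos (convex_Icc u v)
    · intro X hX
      exact (H.der X ⟨by linarith [hX.1], by linarith [hX.2]⟩).continuousAt.continuousWithinAt
    · intro X hX
      rw [interior_Icc] at hX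
      rw [(H.der X ⟨by linarith [hX.1], by linarith [hX.2]⟩).deriv]
      have := H.anti (a := X) (b := z) ⟨by linarith [hX.1], by linarith [hX.2]⟩ ⟨by linarith, hz⟩ (by linarith [hX.2])
      linarith
  exact hm ⟨le_rfl, huv.le⟩ ⟨huv.le, le_rfl⟩ huv

theorem hill_mono_auxB {h g : ℝ → ℝ} (H : Hill h g) {u v z : ℝ} (hz : 0 < z) (hzu : z ≤ u)
    (huv : u < v) (hv : v < 1) (hg : g z ≤ 0) : h v < h u := by
  have hm : StrictAntiOn h (Icc u v) := by
    apply strictAntiOn_of_deriv_neg (convex_Icc u v)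
    · intro X hX
      exact (H.der X ⟨by linarith [hX.1], by linarith [hX.2]⟩).continuousAt.continuousWithinAt
    · intro X hX
      rw [interior_Icc] at hX
      rw [(H.der X ⟨by linarith [hX.1], by linarith [hX.2]⟩).deriv]
      have := H.anti (a := z) (b := X) ⟨hz, by linarith⟩ ⟨by linarith [hX.1], by linarith [hX.2]⟩ (by linarith [hX.1])
      linarith
  exact hm ⟨le_rfl, huv.le⟩ ⟨huv.le, le_rfl⟩ huv

theorem hill_mono {h g : ℝ → ℝ} (H : Hill h g) {s t x y : ℝ} (hs : 0 ≤ s) (hst : s < t)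
    (ht : t < 1) (hx : IsCh h g s x) (hy : IsCh h g t y) : y < x ∧ x + s < y + t := by
  obtain ⟨x0, x1, xe, xg, xg'⟩ := hx
  obtain ⟨y0, y1, ye, yg, yg'⟩ := hy
  have h1 : y < x := by
    by_contra hxy
    push Not at hxy
    have a := hill_mono_auxB H (u := x + s) (v := y + t) (z := x + s) (by linarith) le_rfl (by linarith) y1 xg'
    have b : h x ≤ h y := by
      rcases hxy.eq_or_lt with e | e
      · rw [e]
      · exact (hill_mono_auxA H x0 e le_rfl (by linarith) yg).le
    linarith
  refine ⟨h1, ?_⟩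
  by_contra hxy
  push Not at hxy
  have a := hill_mono_auxA H y0 h1 le_rfl (by linarith) xg
  have b : h (x + s) ≤ h (y + t) := by
    rcases hxy.eq_or_lt with e | e
    · rw [e]
    · exact (hill_mono_auxB H (by linarith) le_rfl e x1 yg').le
  linarith

end Pool.Agent.Helper216.XRay
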