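import Pool.Agent.Helper216.XRay.Defs
import Pool.Agent.Helper216.XRay.P_hill_mono

open Set Filter Topology MeasureTheory

namespace Pool.Agent.Helper216.XRay



theorem hill_lip {h g : ℝ → ℝ} (H : Hill h g) {xm : ℝ → ℝ}
    (hx : ∀ s ∈ Ico (0:ℝ) 1, IsCh h g s (xm s)) :
    ∀ s ∈ Ico (0:ℝ) 1, ∀ t ∈ Ico (0:ℝ) 1, |xm s - xm t| ≤ |s - t| := by
  intro s hs t ht
  rcases lt_trichotomy s t with h1 | h1 | h1
  · obtain ⟨h2, h3⟩ := hill_mono H hs.1 h1 ht.2 (hx s hs) (hx t ht)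
    rw [abs_of_pos (by linarith), abs_of_neg (by linarith)]
    linarith
  · subst h1
    simp
  · obtain ⟨h2, h3⟩ := hill_mono H ht.1 h1 hs.2 (hx t ht) (hx s hs)
    rw [abs_of_neg (by linarith), abs_of_pos (by linarith)]
    linarith

end Pool.Agent.Helper216.XRay
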