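import Pool.Agent.Helper216.XRay.Defs

open Set Filter Topology MeasureTheory

namespace Pool.Agent.Helper216.XRay



theorem hill_sign {h g : ℝ → ℝ} (H : Hill h g) {s x : ℝ} (hs : s ∈ Ioo (0:ℝ) 1)
    (hx : IsCh h g s x) : 0 < g x ∧ g (x+s) < 0 := by
  obtain ⟨h0, h1, heq, hg0, hg1⟩ := hx
  have hs0 : 0 < s := hs.1
  have hsub : ∀ y ∈ Icc x (x+s), y ∈ Ioo (0:ℝ) 1 := fun y hy =>
    ⟨lt_of_lt_of_le h0 hy.1, lt_of_le_of_lt hy.2 h1⟩
  have hxm : x ∈ Icc x (x+s) := ⟨le_rfl, by linarith⟩
  have hxsm : x + s ∈ Icc x (x+s) := ⟨by linarith, le_rfl⟩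
  have hcont : ContinuousOn h (Icc x (x+s)) := fun y hy =>
    (H.der y (hsub y hy)).continuousAt.continuousWithinAt
  constructor
  · rcases hg0.lt_or_eq with h2 | h2
    · exact h2
    · exfalso
      have hanti : StrictAntiOn h (Icc x (x+s)) := by
        apply strictAntiOn_of_deriv_neg (convex_Icc _ _) hcont
        intro y hy
        rw [interior_Icc] at hy
        have hyI : y ∈ Icc x (x+s) := ⟨hy.1.le, hy.2.le⟩
        rw [(H.der y (hsub y hyI)).deriv, h2]
        exact H.anti (hsub x hxm) (hsub y hyI) hy.1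
      have := hanti hxm hxsm (by linarith)
      rw [heq] at this
      exact lt_irrefl _ this
  · rcases hg1.lt_or_eq with h2 | h2
    · exact h2
    · exfalso
      have hmono : StrictMonoOn h (Icc x (x+s)) := by
        apply strictMonoOn_of_deriv_pos (convex_Icc _ _) hcont
        intro y hy
        rw [interior_Icc] at hy
        have hyI : y ∈ Icc x (x+s) := ⟨hy.1.le, hy.2.le⟩
        rw [(H.der y (hsub y hyI)).deriv, ← h2]
        exact H.anti (hsub y hyI) (hsub (x+s) hxsm) hy.2
      have := hmono hxm hxsm (by linarith)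
      rw [heq] at this
      exact lt_irrefl _ this

end Pool.Agent.Helper216.XRay
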