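import Pool.Agent.Helper216.XRay.Defs
import Pool.Agent.Helper216.XRay.P_hill_sign
import Pool.Agent.Helper216.XRay.P_hill_mono
import Pool.Agent.Helper216.XRay.P_hill_lip

open Set Filter Topology MeasureTheory

namespace Pool.Agent.Helper216.XRay



theorem hill_cont {h g : ℝ → ℝ} (H : Hill h g) {xm : ℝ → ℝ}
    (hx : ∀ s ∈ Ico (0:ℝ) 1, IsCh h g s (xm s)) :
    ContinuousOn (fun s => h (xm s)) (Ico 0 1) ∧ ContinuousOn (vn g xm) (Ico 0 1) := by
  have hxc : ContinuousOn xm (Ico 0 1) := by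
    rw [Metric.continuousOn_iff]
    intro s hs ε hε
    refine ⟨ε, hε, fun t ht hd => ?_⟩
    rw [Real.dist_eq] at hd ⊢
    exact lt_of_le_of_lt (hill_lip H hx t ht s hs) hd
  have hm1 : MapsTo xm (Ico 0 1) (Ioo 0 1) := by
    intro s hs
    obtain ⟨h1, h2, -⟩ := hx s hs
    exact ⟨h1, by linarith [hs.1]⟩
  have hm2 : MapsTo (fun s => xm s + s) (Ico 0 1) (Ioo 0 1) := by
    intro s hs
    obtain ⟨h1, h2, -⟩ := hx s hs
    exact ⟨by linarith [hs.1], h2⟩
  have hhc : ContinuousOn h (Ioo 0 1) := fun X hX => (H.der X hX).continuousAt.continuousWithinAt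
  have hg1 : ContinuousOn (fun s => g (xm s)) (Ico 0 1) := H.cont.comp hxc hm1
  have hg2 : ContinuousOn (fun s => g (xm s + s)) (Ico 0 1) :=
    H.cont.comp (hxc.add continuousOn_id) hm2
  refine ⟨hhc.comp hxc hm1, ?_⟩
  intro s hs
  rcases eq_or_lt_of_le hs.1 with h0 | h0
  · subst h0
    obtain ⟨-, -, -, h4, h5⟩ := hx 0 hs
    rw [add_zero] at h5
    have hz : g (xm 0) = 0 := le_antisymm h5 h4
    have hv : vn g xm 0 = 0 := by
      unfold vn
      rw [hz, zero_mul, zero_div]
    show Tendsto (vn g xm) (𝓝[Ico 0 1] 0) (𝓝 (vn g xm 0))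
    rw [hv]
    have ht : Tendsto (fun s => g (xm s)) (𝓝[Ico 0 1] 0) (𝓝 0) := by
      have := hg1 0 hs
      unfold ContinuousWithinAt at this
      beta_reduce at this
      rw [hz] at this
      exact this
    refine tendsto_of_tendsto_of_tendsto_of_le_of_le' tendsto_const_nhds ht ?_ ?_
    · filter_upwards [self_mem_nhdsWithin] with s hs
      obtain ⟨-, -, -, h4, h5⟩ := hx s hs
      unfold vn
      exact div_nonneg (mul_nonneg h4 (by linarith)) (by linarith)
    · filter_upwards [self_mem_nhdsWithin] with s hs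
      obtain ⟨-, -, -, h4, h5⟩ := hx s hs
      unfold vn
      rcases eq_or_lt_of_le (show 0 ≤ g (xm s) - g (xm s + s) by linarith) with h6 | h6
      · rw [← h6, div_zero]
        exact h4
      · rw [div_le_iff₀ h6]
        nlinarith [mul_nonneg h4 h4]
  · obtain ⟨h1, h2⟩ := hill_sign H ⟨h0, hs.2⟩ (hx s hs)
    have hne : g (xm s) - g (xm s + s) ≠ 0 := by
      have : 0 < g (xm s) - g (xm s + s) := by linarith
      exact this.ne'
    exact ((hg1 s hs).mul (hg2 s hs).neg).div ((hg1 s hs).sub (hg2 s hs)) hne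

end Pool.Agent.Helper216.XRay
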