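import Pool.Agent.Helper216.XRay.Defs
import Pool.Agent.Helper216.XRay.P_hill_sign
import Pool.Agent.Helper216.XRay.P_hill_mono
import Pool.Agent.Helper216.XRay.P_hill_lip

open Set Filter Topology MeasureTheory

namespace Pool.Agent.Helper216.XRay



theorem hill_der_x {h g : ℝ → ℝ} (H : Hill h g) {xm : ℝ → ℝ}
    (hx : ∀ s ∈ Ico (0:ℝ) 1, IsCh h g s (xm s)) {s : ℝ} (hs : s ∈ Ioo (0:ℝ) 1) :
    HasDerivAt xm (g (xm s + s) / (g (xm s) - g (xm s + s))) s := by
  have hsI : s ∈ Ico (0:ℝ) 1 := ⟨hs.1.le, hs.2⟩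
  obtain ⟨hx0, hx1, hxe, -, -⟩ := hx s hsI
  obtain ⟨hp, hq⟩ := hill_sign H hs (hx s hsI)
  have hs0 := hs.1
  have hev : ∀ᶠ t in 𝓝 s, t ∈ Ioo (0:ℝ) 1 := isOpen_Ioo.mem_nhds hs
  have hev' : ∀ᶠ t in 𝓝 s, t ∈ Ico (0:ℝ) 1 := hev.mono fun t ht => ⟨ht.1.le, ht.2⟩
  have hO : (fun t => xm t - xm s) =O[𝓝 s] (fun t => t - s) := by
    refine Asymptotics.IsBigO.of_bound 1 (hev'.mono fun t ht => ?_)
    rw [one_mul, Real.norm_eq_abs, Real.norm_eq_abs]
    have := hill_lip H hx t ht s hsI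
    exact this
  have hid : Tendsto (fun t : ℝ => t - s) (𝓝 s) (𝓝 0) := by
    have : Tendsto (fun t : ℝ => t - s) (𝓝 s) (𝓝 (s - s)) := tendsto_id.sub_const s
    rwa [sub_self] at this
  have hc0 : Tendsto (fun t => xm t - xm s) (𝓝 s) (𝓝 0) := hO.trans_tendsto hid
  have hc : Tendsto xm (𝓝 s) (𝓝 (xm s)) := by
    have := hc0.add_const (xm s)
    simpa using this
  have hc2 : Tendsto (fun t => xm t + t) (𝓝 s) (𝓝 (xm s + s)) := hc.add tendsto_id
  have hO2 : (fun t => (xm t + t) - (xm s + s)) =O[𝓝 s] (fun t => t - s) := by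
    have h1 : (fun t => (xm t + t) - (xm s + s)) = fun t => (xm t - xm s) + (t - s) := by
      funext t; ring
    rw [h1]
    exact hO.add (Asymptotics.isBigO_refl _ _)
  have d1 : HasDerivAt h (g (xm s)) (xm s) := H.der _ ⟨hx0, by linarith⟩
  have d2 : HasDerivAt h (g (xm s + s)) (xm s + s) := H.der _ ⟨by linarith, hx1⟩
  have l1 := ((hasDerivAt_iff_isLittleO.1 d1).comp_tendsto hc).trans_isBigO hO
  have l2 := ((hasDerivAt_iff_isLittleO.1 d2).comp_tendsto hc2).trans_isBigO hO2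
  rw [hasDerivAt_iff_isLittleO]
  have l3 := (l1.sub l2).const_mul_left (1 / (g (xm s) - g (xm s + s)))
  have hne : g (xm s) - g (xm s + s) ≠ 0 := by
    have : 0 < g (xm s) - g (xm s + s) := by linarith
    exact this.ne'
  refine (l3.neg_left).congr' (hev'.mono fun t ht => ?_) (Eventually.of_forall fun t => rfl)
  have e1 := (hx t ht).2.2.1
  simp only [Function.comp_apply, smul_eq_mul]
  rw [← e1, ← hxe]
  field_simp
  ring
end Pool.Agent.Helper216.XRay
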