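import Pool.Agent.Helper216.XRay.Defs
import Pool.Agent.Helper216.XRay.P_hill_sign
import Pool.Agent.Helper216.XRay.P_hill_der_x

open Set Filter Topology MeasureTheory

namespace Pool.Agent.Helper216.XRay



theorem hill_der_w {h g : ℝ → ℝ} (H : Hill h g) {xm : ℝ → ℝ}
    (hx : ∀ s ∈ Ico (0:ℝ) 1, IsCh h g s (xm s)) {s : ℝ} (hs : s ∈ Ioo (0:ℝ) 1) :
    HasDerivAt (fun s => h (xm s)) (-vn g xm s) s := by
  have hs' : s ∈ Ico (0:ℝ) 1 := ⟨hs.1.le, hs.2⟩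
  obtain ⟨h1, h2, _, _, _⟩ := hx s hs'
  have h3 : xm s ∈ Ioo (0:ℝ) 1 := ⟨h1, by linarith [hs.1]⟩
  have h4 := (H.der (xm s) h3).comp s (hill_der_x H hx hs)
  refine h4.congr_deriv ?_
  unfold vn
  ring

end Pool.Agent.Helper216.XRay
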