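import Pool.Agent.Helper216.XRay.Defs

open Set Filter Topology MeasureTheory

namespace Pool.Agent.Helper216.XRay



theorem hill_max {h g : ℝ → ℝ} (H : Hill h g) {s x : ℝ} (hs : s ∈ Ico (0:ℝ) 1)
    (hx : IsCh h g s x) : ∀ X ∈ Ioo 0 (1-s), min (h X) (h (X+s)) ≤ h x := by
  obtain ⟨hx0, hx1, hxe, hg0, hg1⟩ := hx
  obtain ⟨hs0, hs1⟩ := hs
  rintro X ⟨hX0, hX1⟩
  rcases le_total X x with hle | hle
  · refine (min_le_left _ _).trans ?_
    have hsub : ∀ y ∈ Icc X x, y ∈ Ioo (0:ℝ) 1 := fun y hy =>
      ⟨lt_of_lt_of_le hX0 hy.1, lt_of_le_of_lt hy.2 (by linarith)⟩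
    have hmono : MonotoneOn h (Icc X x) := by
      refine monotoneOn_of_deriv_nonneg (convex_Icc X x) ?_ ?_ ?_
      · intro y hy
        exact (H.der y (hsub y hy)).continuousAt.continuousWithinAt
      · intro y hy
        exact (H.der y (hsub y (interior_subset hy))).differentiableAt.differentiableWithinAt
      · intro y hy
        have hy' := interior_subset hy
        rw [(H.der y (hsub y hy')).deriv]
        have := H.anti.antitoneOn (hsub y hy') ⟨hx0, by linarith⟩ hy'.2
        linarith
    exact hmono ⟨le_refl _, hle⟩ ⟨hle, le_refl _⟩ hle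
  · refine (min_le_right _ _).trans ?_
    rw [hxe]
    have hsub : ∀ y ∈ Icc (x + s) (X + s), y ∈ Ioo (0:ℝ) 1 := fun y hy =>
      ⟨by linarith [hy.1], lt_of_le_of_lt hy.2 (by linarith)⟩
    have hanti : AntitoneOn h (Icc (x + s) (X + s)) := by
      refine antitoneOn_of_deriv_nonpos (convex_Icc _ _) ?_ ?_ ?_
      · intro y hy
        exact (H.der y (hsub y hy)).continuousAt.continuousWithinAt
      · intro y hy
        exact (H.der y (hsub y (interior_subset hy))).differentiableAt.differentiableWithinAt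
      · intro y hy
        have hy' := interior_subset hy
        rw [(H.der y (hsub y hy')).deriv]
        have := H.anti.antitoneOn ⟨by linarith, hx1⟩ (hsub y hy') hy'.1
        linarith
    have hle' : x + s ≤ X + s := by linarith
    exact hanti ⟨le_refl _, hle'⟩ ⟨hle', le_refl _⟩ hle'

end Pool.Agent.Helper216.XRay
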