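import Pool.Agent.Helper216.XRay.Defs

open Set Filter Topology MeasureTheory

namespace Pool.Agent.Helper216.XRay



theorem gg_split (v N' : ℝ → ℝ) (X : ℝ) : gg v N' X = gg v (fun _ => 0) X - N' X := by
  unfold gg
  split_ifs <;> ring

end Pool.Agent.Helper216.XRay
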