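import Pool.Agent.Helper216.XRay.Defs
import Pool.Agent.Helper216.XRay.P_cls_nonneg

open Set Filter Topology MeasureTheory

namespace Pool.Agent.Helper216.XRay



theorem uu_cont {w v : ℝ → ℝ} (hC : Cls w v) :
    ContinuousOn (gg v (fun _ => 0)) (Ioo 0 1) := by
  have e : gg v (fun _ => 0) = fun X : ℝ => if X ≤ 3/4 then 4/3 * v (1 - 4/3*X) - 0
      else -4 * v (4*X-3) - 0 := rfl
  rw [e]
  have hcl1 : closure {a : ℝ | a ≤ 3/4} = Iic (3/4) := closure_Iic _
  have hcl2 : closure {a : ℝ | ¬ a ≤ 3/4} = Ici (3/4) := by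
    have : {a : ℝ | ¬ a ≤ 3/4} = Ioi (3/4) := by
      ext x
      simp
    rw [this, closure_Ioi]
  have hfr : frontier {a : ℝ | a ≤ 3/4} = {3/4} := frontier_Iic
  apply ContinuousOn.if
  · rintro a ⟨_, ha⟩
    rw [hfr, mem_singleton_iff] at ha
    subst ha
    have h1 : (1 : ℝ) - 4/3 * (3/4) = 0 := by norm_num
    have h2 : (4 : ℝ) * (3/4) - 3 = 0 := by norm_num
    rw [h1, h2, hC.v0]
    ring
  · rw [hcl1]
    refine ContinuousOn.sub (ContinuousOn.mul continuousOn_const ?_) continuousOn_const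
    refine hC.vcont.comp (by fun_prop) ?_
    rintro x ⟨⟨h1, h2⟩, h3⟩
    rw [mem_Iic] at h3
    constructor <;> linarith
  · rw [hcl2]
    refine ContinuousOn.sub (ContinuousOn.mul continuousOn_const ?_) continuousOn_const
    refine hC.vcont.comp (by fun_prop) ?_
    rintro x ⟨⟨h1, h2⟩, h3⟩
    rw [mem_Ici] at h3
    constructor <;> linarith

end Pool.Agent.Helper216.XRay
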