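import Pool.Agent.Helper216.XRay.Defs
import Pool.Agent.Helper216.XRay.P_uu_cont
import Pool.Agent.Helper216.XRay.P_gg_split

open Set Filter Topology MeasureTheory

namespace Pool.Agent.Helper216.XRay



theorem gg_cont {N N' w v : ℝ → ℝ} (hN : NiceN N N') (hC : Cls w v) :
    ContinuousOn (gg v N') (Ioo 0 1) := by
  have h : gg v N' = fun X => gg v (fun _ => 0) X - N' X := by
    funext X
    exact gg_split v N' X
  rw [h]
  exact (uu_cont hC).sub (hN.cont.mono Ioo_subset_Icc_self)

end Pool.Agent.Helper216.XRay
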