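import Pool.Agent.Helper216.XRay.Defs

open Set Filter Topology MeasureTheory

namespace Pool.Agent.Helper216.XRay



theorem uu_incL {w v : ℝ → ℝ} (hC : Cls w v) {X Y : ℝ}
    (hX : 0 < X) (hXY : X ≤ Y) (hY : Y ≤ 3/4) :
    (1/100)*(1/X - 1/Y) ≤ gg v (fun _ => 0) X - gg v (fun _ => 0) Y := by
  have hY0 : 0 < Y := lt_of_lt_of_le hX hXY
  have h := hC.inc (1 - 4/3*Y) ⟨by linarith, by linarith⟩ (1 - 4/3*X) ⟨by linarith, by linarith⟩
    (by linarith)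
  have e1 : (1 : ℝ) / (1 - (1 - 4/3*X)) = 3/4 * (1/X) := by
    have : (1 : ℝ) - (1 - 4/3*X) = 4/3*X := by ring
    rw [this]; field_simp
  have e2 : (1 : ℝ) / (1 - (1 - 4/3*Y)) = 3/4 * (1/Y) := by
    have : (1 : ℝ) - (1 - 4/3*Y) = 4/3*Y := by ring
    rw [this]; field_simp
  rw [e1, e2] at h
  unfold gg
  rw [if_pos (hXY.trans hY), if_pos hY]
  linarith

end Pool.Agent.Helper216.XRay
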