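import Pool.Agent.Helper216.XRay.Defs
import Pool.Agent.Helper216.XRay.P_uu_incL
import Pool.Agent.Helper216.XRay.P_gg_split

open Set Filter Topology MeasureTheory

namespace Pool.Agent.Helper216.XRay



theorem gg_incL {N N' w v : ℝ → ℝ} (hN : NiceN N N') (hC : Cls w v) {X Y : ℝ}
    (hX : 0 < X) (hXY : X ≤ Y) (hY : Y ≤ 3/4) :
    (1/100)*(1/X - 1/Y) + 9/10*(Y-X) ≤ gg v N' X - gg v N' Y := by
  rw [gg_split v N' X, gg_split v N' Y]
  have h1 := uu_incL hC hX hXY hY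
  have h2 := hN.str X ⟨hX.le, by linarith⟩ Y ⟨by linarith, by linarith⟩ hXY
  linarith

end Pool.Agent.Helper216.XRay
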