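import Pool.Agent.Helper216.XRay.Defs

open Set Filter Topology MeasureTheory

namespace Pool.Agent.Helper216.XRay



theorem uu_incR {w v : ℝ → ℝ} (hC : Cls w v) {X Y : ℝ}
    (hX : 3/4 ≤ X) (hXY : X ≤ Y) (hY : Y < 1) :
    (1/100)*(1/(1-Y) - 1/(1-X)) ≤ gg v (fun _ => 0) X - gg v (fun _ => 0) Y := by
  have hg : ∀ Z : ℝ, 3/4 ≤ Z → gg v (fun _ => 0) Z = -4 * v (4*Z-3) := by
    intro Z hZ
    unfold gg
    rcases eq_or_lt_of_le hZ with h | h
    · subst h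
      rw [if_pos le_rfl]
      norm_num
      rw [hC.v0]; norm_num
    · rw [if_neg (not_le.2 h)]
      ring
  rw [hg X hX, hg Y (hX.trans hXY)]
  have h := hC.inc (4*X-3) ⟨by linarith, by linarith⟩ (4*Y-3) ⟨by linarith, by linarith⟩ (by linarith)
  have h1 : 1/(1-(4*Y-3)) = (1/4) * (1/(1-Y)) := by
    have : (1:ℝ) - Y ≠ 0 := by linarith
    have h2 : 1-(4*Y-3) = 4*(1-Y) := by ring
    rw [h2]; field_simp
  have h2 : 1/(1-(4*X-3)) = (1/4) * (1/(1-X)) := by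
    have : (1:ℝ) - X ≠ 0 := by linarith
    have h2 : 1-(4*X-3) = 4*(1-X) := by ring
    rw [h2]; field_simp
  rw [h1, h2] at h
  linarith
end Pool.Agent.Helper216.XRay
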