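import Pool.Agent.Helper216.XRay.Defs
import Pool.Agent.Helper216.XRay.P_uu_incR
import Pool.Agent.Helper216.XRay.P_gg_split

open Set Filter Topology MeasureTheory

namespace Pool.Agent.Helper216.XRay



theorem gg_incR {N N' w v : ℝ → ℝ} (hN : NiceN N N') (hC : Cls w v) {X Y : ℝ}
    (hX : 3/4 ≤ X) (hXY : X ≤ Y) (hY : Y < 1) :
    (1/100)*(1/(1-Y) - 1/(1-X)) + 9/10*(Y-X) ≤ gg v N' X - gg v N' Y := by
  have h1 := uu_incR hC hX hXY hY
  have h2 := hN.str X ⟨by linarith, by linarith⟩ Y ⟨by linarith, by linarith⟩ hXY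
  rw [gg_split v N' X, gg_split v N' Y]
  linarith

end Pool.Agent.Helper216.XRay
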