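import Pool.Agent.Helper216.XRay.Defs
import Pool.Agent.Helper216.XRay.P_gg_incL
import Pool.Agent.Helper216.XRay.P_gg_incR

open Set Filter Topology MeasureTheory

namespace Pool.Agent.Helper216.XRay



theorem gg_incAll_aux {a b : ℝ} (ha : 0 < a) (hab : a ≤ b) : 0 ≤ (1/100 : ℝ)*(1/a - 1/b) := by
  have := one_div_le_one_div_of_le ha hab
  have h2 : 0 ≤ 1/a - 1/b := by linarith
  positivity

theorem gg_incAll {N N' w v : ℝ → ℝ} (hN : NiceN N N') (hC : Cls w v) {X Y : ℝ}
    (hX : 0 < X) (hXY : X ≤ Y) (hY : Y < 1) :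
    9/10*(Y-X) ≤ gg v N' X - gg v N' Y := by
  have hL : ∀ {A B : ℝ}, 0 < A → A ≤ B → B ≤ 3/4 → 9/10*(B-A) ≤ gg v N' A - gg v N' B := by
    intro A B hA hAB hB
    have h1 := gg_incL hN hC hA hAB hB
    have h2 := gg_incAll_aux hA hAB
    linarith
  have hR : ∀ {A B : ℝ}, 3/4 ≤ A → A ≤ B → B < 1 → 9/10*(B-A) ≤ gg v N' A - gg v N' B := by
    intro A B hA hAB hB
    have h1 := gg_incR hN hC hA hAB hB
    have h2 := gg_incAll_aux (a := 1 - B) (b := 1 - A) (by linarith) (by linarith)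
    linarith
  rcases le_or_gt Y (3/4) with h | h
  · exact hL hX hXY h
  · rcases le_or_gt (3/4) X with h' | h'
    · exact hR h' hXY hY
    · have h1 := hL hX h'.le le_rfl
      have h2 := hR le_rfl h.le hY
      linarith

end Pool.Agent.Helper216.XRay
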