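import Pool.Agent.Helper216.XRay.Defs
import Pool.Agent.Helper216.XRay.P_cls_nonneg

open Set Filter Topology MeasureTheory

namespace Pool.Agent.Helper216.XRay



theorem uu_der_zero {w v : ℝ → ℝ} (hC : Cls w v) : HasDerivWithinAt w 0 (Ici 0) 0 := by
  have h01 : Ioo (0:ℝ) 1 ∈ 𝓝[>] (0:ℝ) := Ioo_mem_nhdsGT (by norm_num)
  apply hasDerivWithinAt_Ici_of_tendsto_deriv (s := Ioo (0:ℝ) 1)
  · intro s hs
    exact (hC.der s hs).differentiableAt.differentiableWithinAt
  · exact (hC.cont 0 (by simp)).mono Ioo_subset_Ico_self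
  · exact h01
  · have h1 : Tendsto (fun s => - v s) (𝓝[>] (0:ℝ)) (𝓝 0) := by
      have h2 : ContinuousWithinAt v (Ico 0 1) 0 := hC.vcont 0 (by simp)
      have h3 : Tendsto v (𝓝[Ico 0 1] (0:ℝ)) (𝓝 (v 0)) := h2
      rw [hC.v0] at h3
      have h4 : 𝓝[>] (0:ℝ) ≤ 𝓝[Ico 0 1] (0:ℝ) := by
        rw [nhdsWithin_le_iff]
        filter_upwards [h01] with s hs using Ioo_subset_Ico_self hs
      have := (h3.mono_left h4).neg
      simpa using this
    refine h1.congr' ?_
    filter_upwards [h01] with s hs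
    exact (hC.der s hs).deriv.symm

theorem uu_der {w v : ℝ → ℝ} (hC : Cls w v) {X : ℝ} (hX : X ∈ Ioo (0:ℝ) 1) :
    HasDerivAt (fun X => w (sJ X)) (gg v (fun _ => 0) X) X := by
  have hd1 : HasDerivAt (fun Z : ℝ => 1 - 4/3*Z) (-(4/3)) X := by
    have := ((hasDerivAt_id X).const_mul (4/3:ℝ)).const_sub 1
    simpa using this
  have hd2 : HasDerivAt (fun Z : ℝ => 4*Z - 3) 4 X := by
    have := ((hasDerivAt_id X).const_mul (4:ℝ)).sub_const 3
    simpa using this
  rcases lt_trichotomy X (3/4) with h | h | h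
  · have hs : 1 - 4/3*X ∈ Ioo (0:ℝ) 1 := ⟨by linarith [hX.1], by linarith [hX.1]⟩
    have h1 := (hC.der _ hs).comp X hd1
    have h2 : (fun X => w (sJ X)) =ᶠ[𝓝 X] (w ∘ fun Z : ℝ => 1 - 4/3*Z) := by
      filter_upwards [Iio_mem_nhds h] with Z hZ
      have hZ' : Z ≤ 3/4 := le_of_lt hZ
      simp [sJ, hZ']
    refine (h1.congr_of_eventuallyEq h2).congr_deriv ?_
    simp only [gg, if_pos h.le]
    ring
  · subst h
    have h0 := uu_der_zero hC
    have e1 : (1:ℝ) - 4/3*(3/4) = 0 := by norm_num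
    have e2 : (4:ℝ)*(3/4) - 3 = 0 := by norm_num
    have hL : HasDerivWithinAt (fun X => w (sJ X)) 0 (Iic (3/4)) (3/4) := by
      have h0' : HasDerivWithinAt w 0 (Ici 0) ((fun Z : ℝ => 1 - 4/3*Z) (3/4)) := by
        simp only [e1]; exact h0
      have h1 := h0'.comp (3/4 : ℝ) hd1.hasDerivWithinAt (s := Iic (3/4)) (fun Z hZ => by
        simp only [mem_Iic] at hZ
        simp only [mem_Ici]
        linarith)
      refine (h1.congr_deriv (by simp)).congr ?_ ?_
      · intro Z hZ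
        simp only [mem_Iic] at hZ
        simp [sJ, hZ]
      · simp [sJ]
    have hR : HasDerivWithinAt (fun X => w (sJ X)) 0 (Ici (3/4)) (3/4) := by
      have h0' : HasDerivWithinAt w 0 (Ici 0) ((fun Z : ℝ => 4*Z - 3) (3/4)) := by
        simp only [e2]; exact h0
      have h1 := h0'.comp (3/4 : ℝ) hd2.hasDerivWithinAt (s := Ici (3/4)) (fun Z hZ => by
        simp only [mem_Ici] at hZ ⊢
        linarith)
      refine (h1.congr_deriv (by simp)).congr ?_ ?_
      · intro Z hZ
        simp only [mem_Ici] at hZ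
        rcases hZ.eq_or_lt with h | h
        · subst h
          simp only [sJ, Function.comp, if_pos le_rfl]
          norm_num
        · simp [sJ, not_le.mpr h]
      · simp only [sJ, Function.comp, if_pos le_rfl]
        norm_num
    have hU := hL.union hR
    rw [Iic_union_Ici, hasDerivWithinAt_univ] at hU
    refine hU.congr_deriv ?_
    simp only [gg, if_pos le_rfl, e1, hC.v0]
    norm_num
  · have hs : 4*X - 3 ∈ Ioo (0:ℝ) 1 := ⟨by linarith [hX.1], by linarith [hX.2]⟩
    have h1 := (hC.der _ hs).comp X hd2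
    have h2 : (fun X => w (sJ X)) =ᶠ[𝓝 X] (w ∘ fun Z : ℝ => 4*Z - 3) := by
      filter_upwards [Ioi_mem_nhds h] with Z hZ
      have hZ' : ¬ Z ≤ 3/4 := not_le.mpr hZ
      simp [sJ, hZ']
    refine (h1.congr_of_eventuallyEq h2).congr_deriv ?_
    simp only [gg, if_neg (not_le.mpr h)]
    ring

end Pool.Agent.Helper216.XRay
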