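import Pool.Agent.Helper216.XRay.Defs
import Pool.Agent.Helper216.XRay.P_uu_der
import Pool.Agent.Helper216.XRay.P_gg_split

open Set Filter Topology MeasureTheory

namespace Pool.Agent.Helper216.XRay



theorem hh_der {N N' w v : ℝ → ℝ} (hN : NiceN N N') (hC : Cls w v) {X : ℝ}
    (hX : X ∈ Ioo (0:ℝ) 1) : HasDerivAt (hh w N) (gg v N' X) X := by
  rw [gg_split]
  exact (uu_der hC hX).sub (hN.der X (Ioo_subset_Icc_self hX))

end Pool.Agent.Helper216.XRay
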