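import Pool.Agent.Helper216.XRay.Defs

open Set Filter Topology MeasureTheory

namespace Pool.Agent.Helper216.XRay

theorem sJ_mem {X : ℝ} (hX : X ∈ Ioo (0:ℝ) 1) : sJ X ∈ Ico (0:ℝ) 1 := by
  obtain ⟨h1, h2⟩ := hX
  unfold sJ
  split_ifs with h
  · constructor <;> linarith
  · push Not at h
    constructor <;> linarith

end Pool.Agent.Helper216.XRay
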