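import Pool.Agent.Helper216.XRay.Defs
import Pool.Agent.Helper216.XRay.P_sJ_mem
import Pool.Agent.Helper216.XRay.P_cls_bounds

open Set Filter Topology MeasureTheory

namespace Pool.Agent.Helper216.XRay



theorem hh_lim_bound {N N' w v : ℝ → ℝ} (hN : NiceN N N') (hC : Cls w v) :
    ∃ M : ℝ, ∀ X ∈ Ioo (0:ℝ) 1, hh w N X ≤ (1/100) * Real.log (1 - sJ X) + M := by
  have hc : ContinuousOn N (Icc 0 1) := fun X hX => (hN.der X hX).continuousAt.continuousWithinAt
  obtain ⟨M, hM⟩ := isCompact_Icc.exists_bound_of_continuousOn hc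
  refine ⟨w 0 + 1/100 + M, ?_⟩
  intro X hX
  have hs := sJ_mem hX
  have h1 := (cls_bounds hC 0 ⟨le_rfl, one_pos⟩ (sJ X) hs hs.1).1
  have h2 := hM X ⟨hX.1.le, hX.2.le⟩
  rw [Real.norm_eq_abs] at h2
  have h3 := (abs_le.1 h2).1
  have h4 := hs.2
  simp only [sub_zero, Real.log_one, add_zero, zero_sub] at h1
  unfold hh
  linarith

theorem hh_lim {N N' w v : ℝ → ℝ} (hN : NiceN N N') (hC : Cls w v) :
    Tendsto (hh w N) (𝓝[>] 0) atBot ∧ Tendsto (hh w N) (𝓝[<] 1) atBot := by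
  obtain ⟨M, hM⟩ := hh_lim_bound hN hC
  have key : ∀ l : Filter ℝ, Tendsto (fun X => 1 - sJ X) l (𝓝[>] 0) →
      (∀ᶠ X in l, X ∈ Ioo (0:ℝ) 1) → Tendsto (hh w N) l atBot := by
    intro l hl hl2
    have h1 : Tendsto (fun X => (1/100) * Real.log (1 - sJ X) + M) l atBot := by
      apply tendsto_atBot_add_const_right
      apply Tendsto.const_mul_atBot (by norm_num)
      exact Real.tendsto_log_nhdsGT_zero.comp hl
    refine tendsto_atBot_mono' l ?_ h1
    filter_upwards [hl2] with X hX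
    exact hM X hX
  have hJ : ∀ X ∈ Ioo (0:ℝ) 1, 1 - sJ X ∈ Ioi (0:ℝ) := by
    intro X hX
    have := (sJ_mem hX).2
    show 0 < 1 - sJ X
    linarith
  constructor
  · have e : ∀ᶠ X in 𝓝[>] (0:ℝ), X ∈ Ioo (0:ℝ) 1 := Ioo_mem_nhdsGT one_pos
    apply key _ _ e
    rw [tendsto_nhdsWithin_iff]
    refine ⟨?_, ?_⟩
    · have h1 : Tendsto (fun X : ℝ => 4/3*X) (𝓝[>] 0) (𝓝 0) := by
        have h2 : ContinuousAt (fun X : ℝ => 4/3*X) 0 := by fun_prop
        have h3 := h2.tendsto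
        simp only [mul_zero] at h3
        exact h3.mono_left nhdsWithin_le_nhds
      refine h1.congr' ?_
      have e2 : ∀ᶠ X in 𝓝[>] (0:ℝ), X ∈ Ioo (0:ℝ) (3/4) := Ioo_mem_nhdsGT (by norm_num)
      filter_upwards [e2] with X hX
      unfold sJ
      rw [if_pos hX.2.le]
      ring
    · filter_upwards [e] with X hX
      exact hJ X hX
  · have e : ∀ᶠ X in 𝓝[<] (1:ℝ), X ∈ Ioo (0:ℝ) 1 := Ioo_mem_nhdsLT one_pos
    apply key _ _ e
    rw [tendsto_nhdsWithin_iff]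
    refine ⟨?_, ?_⟩
    · have h1 : Tendsto (fun X : ℝ => 4*(1-X)) (𝓝[<] 1) (𝓝 0) := by
        have h2 : ContinuousAt (fun X : ℝ => 4*(1-X)) 1 := by fun_prop
        have h3 := h2.tendsto
        simp only [sub_self, mul_zero] at h3
        exact h3.mono_left nhdsWithin_le_nhds
      refine h1.congr' ?_
      have e2 : ∀ᶠ X in 𝓝[<] (1:ℝ), X ∈ Ioo (3/4:ℝ) 1 := Ioo_mem_nhdsLT (by norm_num)
      filter_upwards [e2] with X hX
      unfold sJ
      rw [if_neg (not_le.2 hX.1)]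
      ring
    · filter_upwards [e] with X hX
      exact hJ X hX

end Pool.Agent.Helper216.XRay
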