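import Pool.Agent.Helper216.XRay.Defs
import Pool.Agent.Helper216.XRay.P_hh_der
import Pool.Agent.Helper216.XRay.P_gg_cont
import Pool.Agent.Helper216.XRay.P_gg_incAll
import Pool.Agent.Helper216.XRay.P_hh_lim

open Set Filter Topology MeasureTheory

namespace Pool.Agent.Helper216.XRay



theorem hill_of_cls {N N' w v : ℝ → ℝ} (hN : NiceN N N') (hC : Cls w v) :
    Hill (hh w N) (gg v N') := by
  refine ⟨fun X hX => hh_der hN hC hX, gg_cont hN hC, ?_, (hh_lim hN hC).1, (hh_lim hN hC).2⟩
  intro X hX Y hY hXY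
  have := gg_incAll hN hC hX.1 hXY.le hY.2
  linarith

end Pool.Agent.Helper216.XRay
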