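import Pool.Agent.Helper216.XRay.Defs
import Pool.Agent.Helper216.XRay.P_cls_nonneg

open Set Filter Topology MeasureTheory

namespace Pool.Agent.Helper216.XRay



theorem uu_boundL {w v : ℝ → ℝ} (hC : Cls w v) {X : ℝ} (hX : 0 < X) (hX2 : X ≤ 3/4) :
    0 ≤ gg v (fun _ => 0) X ∧ gg v (fun _ => 0) X ≤ (313-(400/3)*X)/(30*X) := by
  have hs : 1 - 4/3*X ∈ Ico (0:ℝ) 1 := ⟨by linarith, by linarith⟩
  have h0 := cls_nonneg hC _ hs
  have h1 := hC.up _ hs
  have hg : gg v (fun _ => 0) X = 4/3 * v (1 - 4/3*X) := by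
    unfold gg
    rw [if_pos hX2, sub_zero]
  rw [hg]
  refine ⟨by positivity, ?_⟩
  have h2 : (100*(1 - 4/3*X)+213)/(30*(1-(1 - 4/3*X))) = 3/4 * ((313-(400/3)*X)/(30*X)) := by
    have hX' : X ≠ 0 := hX.ne'
    have e : (1 - (1 - 4/3*X)) = 4/3*X := by ring
    rw [e]
    field_simp
    ring
  rw [h2] at h1
  linarith

end Pool.Agent.Helper216.XRay
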