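import Pool.Agent.Helper216.XRay.Defs
import Pool.Agent.Helper216.XRay.P_uu_boundL
import Pool.Agent.Helper216.XRay.P_gg_split

open Set Filter Topology MeasureTheory

namespace Pool.Agent.Helper216.XRay



theorem gg_boundL {N N' w v : ℝ → ℝ} (hN : NiceN N N') (hC : Cls w v) {X : ℝ}
    (hX : 0 < X) (hX2 : X ≤ 3/4) :
    gg v N' X ≤ (313-(400/3)*X)/(30*X) - 29/10 ∧ -(71/10) ≤ gg v N' X := by
  have h1 := uu_boundL hC hX hX2
  have hm : X ∈ Icc (0:ℝ) 1 := ⟨hX.le, by linarith⟩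
  have h2 := hN.lo X hm
  have h3 := hN.hi X hm
  rw [gg_split]
  exact ⟨by linarith [h1.2], by linarith [h1.1]⟩

end Pool.Agent.Helper216.XRay
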