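import Pool.Agent.Helper216.XRay.Defs
import Pool.Agent.Helper216.XRay.P_cls_nonneg

open Set Filter Topology MeasureTheory

namespace Pool.Agent.Helper216.XRay



theorem uu_boundR {w v : ℝ → ℝ} (hC : Cls w v) {X : ℝ} (hX : 3/4 ≤ X) (hX2 : X < 1) :
    gg v (fun _ => 0) X ≤ 0 ∧ -gg v (fun _ => 0) X ≤ (313-400*(1-X))/(30*(1-X)) := by
  unfold gg
  by_cases h : X ≤ 3/4
  · have hX3 : X = 3/4 := le_antisymm h hX
    subst hX3
    rw [if_pos le_rfl]
    have h1 : (1 : ℝ) - 4/3*(3/4) = 0 := by norm_num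
    rw [h1, hC.v0]
    norm_num
  · rw [if_neg h]
    push Not at h
    have hmem : 4*X - 3 ∈ Ico (0:ℝ) 1 := ⟨by linarith, by linarith⟩
    have hn := cls_nonneg hC _ hmem
    have hu := hC.up _ hmem
    have h1 : (0:ℝ) < 1 - X := by linarith
    have e1 : (100*(4*X-3)+213)/(30*(1-(4*X-3))) = (1/4) * ((313-400*(1-X))/(30*(1-X))) := by
      rw [show (1:ℝ)-(4*X-3) = 4*(1-X) by ring]
      field_simp
      ring
    rw [e1] at hu
    constructor
    · linarith
    · linarith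

end Pool.Agent.Helper216.XRay
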