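import Pool.Agent.Helper216.XRay.Defs
import Pool.Agent.Helper216.XRay.P_uu_boundR
import Pool.Agent.Helper216.XRay.P_gg_split

open Set Filter Topology MeasureTheory

namespace Pool.Agent.Helper216.XRay



theorem gg_boundR {N N' w v : ℝ → ℝ} (hN : NiceN N N') (hC : Cls w v) {X : ℝ}
    (hX : 3/4 ≤ X) (hX2 : X < 1) :
    -gg v N' X ≤ (313-400*(1-X))/(30*(1-X)) + 71/10 ∧ gg v N' X < 0 := by
  obtain ⟨h1, h2⟩ := uu_boundR hC hX hX2
  have hmem : X ∈ Icc (0:ℝ) 1 := ⟨by linarith, hX2.le⟩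
  have h3 := hN.hi X hmem
  have h4 := hN.lo X hmem
  have h5 := gg_split v N' X
  constructor
  · rw [h5]; linarith
  · rw [h5]; linarith

end Pool.Agent.Helper216.XRay
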