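import Pool.Agent.Helper216.XRay.Defs
import Pool.Agent.Helper216.XRay.P_hill_sign
import Pool.Agent.Helper216.XRay.P_hill_mono
import Pool.Agent.Helper216.XRay.P_hill_lip
import Pool.Agent.Helper216.XRay.P_hill_der_x

open Set Filter Topology MeasureTheory

namespace Pool.Agent.Helper216.XRay



theorem hill_dini_mono {a b a' b' : ℝ} (ha : 0 < a) (hb : 0 < b) (haa : a ≤ a') (hbb : b ≤ b') :
    a * b / (a + b) ≤ a' * b' / (a' + b') := by
  have ha' : 0 < a' := lt_of_lt_of_le ha haa
  have hb' : 0 < b' := lt_of_lt_of_le hb hbb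
  rw [div_le_div_iff₀ (by positivity) (by positivity)]
  have e : a' * b' * (a + b) - a * b * (a' + b') = a * a' * (b' - b) + b * b' * (a' - a) := by ring
  have h1 : 0 ≤ a * a' * (b' - b) := by
    have : 0 ≤ b' - b := by linarith
    positivity
  have h2 : 0 ≤ b * b' * (a' - a) := by
    have : 0 ≤ a' - a := by linarith
    positivity
  linarith

theorem hill_dini {h g : ℝ → ℝ} (H : Hill h g) {xm : ℝ → ℝ}
    (hx : ∀ s ∈ Ico (0:ℝ) 1, IsCh h g s (xm s)) {s : ℝ} (hs : s ∈ Ioo (0:ℝ) 1)
    {A B K : ℝ} (hA : 0 ≤ A) (hB : 0 ≤ B)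
    (h1 : ∀ x', 0 < x' → x' ≤ xm s → A * (xm s - x') ≤ g x' - g (xm s))
    (h2 : ∀ y', xm s + s ≤ y' → y' < 1 → B * (y' - (xm s + s)) ≤ g (xm s + s) - g y')
    (hK : K * (g (xm s) - g (xm s + s))^3 < A * (-g (xm s + s))^3 + B * (g (xm s))^3) :
    ∀ᶠ t in 𝓝[>] s, K * (t - s) ≤ vn g xm t - vn g xm s := by
  have hsI : s ∈ Ico (0:ℝ) 1 := ⟨hs.1.le, hs.2⟩
  obtain ⟨hp, hq⟩ := hill_sign H hs (hx s hsI)
  have hder := hill_der_x H hx hs
  set x := xm s with hxdef
  set p := g x with hpdef
  set q := -g (x + s) with hqdef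
  have hq' : 0 < q := by rw [hqdef]; linarith
  have hgy : g (x + s) = -q := by rw [hqdef]; ring
  rw [hgy] at hder
  have hpq : 0 < p + q := by linarith
  have hder2 : HasDerivAt xm (-q / (p + q)) s := by
    have : p - -q = p + q := by ring
    rw [this] at hder
    exact hder
  -- the two functions
  have ha : HasDerivAt (fun t => p + A * (x - xm t)) (A * (0 - -q / (p + q))) s := by
    have h3 := (((hasDerivAt_const s x).sub hder2).const_mul A).const_add p
    exact h3
  have hb : HasDerivAt (fun t => q + B * (xm t + t - (x + s))) (B * (-q / (p + q) + 1)) s := by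
    have h3 := (((hder2.add (hasDerivAt_id s)).sub_const (x + s)).const_mul B).const_add q
    exact h3
  have has : (fun t => p + A * (x - xm t)) s = p := by
    show p + A * (x - xm s) = p
    rw [← hxdef]; ring
  have hbs : (fun t => q + B * (xm t + t - (x + s))) s = q := by
    show q + B * (xm s + s - (x + s)) = q
    rw [← hxdef]; ring
  have hF := (ha.mul hb).div (ha.add hb) (by
    show (fun t => p + A * (x - xm t)) s + (fun t => q + B * (xm t + t - (x + s))) s ≠ 0
    rw [has, hbs]; exact hpq.ne')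
  have hval : K < ((A * (0 - -q / (p + q)) * (fun t => q + B * (xm t + t - (x + s))) s +
      (fun t => p + A * (x - xm t)) s * (B * (-q / (p + q) + 1))) *
      ((fun t => p + A * (x - xm t)) s + (fun t => q + B * (xm t + t - (x + s))) s) -
      ((fun t => p + A * (x - xm t)) s * (fun t => q + B * (xm t + t - (x + s))) s) *
      (A * (0 - -q / (p + q)) + B * (-q / (p + q) + 1))) /
      ((fun t => p + A * (x - xm t)) s + (fun t => q + B * (xm t + t - (x + s))) s) ^ 2 := by
    rw [has, hbs]
    have e : ((A * (0 - -q / (p + q)) * q + p * (B * (-q / (p + q) + 1))) * (p + q) -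
        (p * q) * (A * (0 - -q / (p + q)) + B * (-q / (p + q) + 1))) / (p + q) ^ 2 =
        (A * q ^ 3 + B * p ^ 3) / (p + q) ^ 3 := by
      field_simp
      ring
    rw [e, lt_div_iff₀ (by positivity)]
    have e2 : g (xm s) - g (xm s + s) = p + q := by
      rw [← hxdef, hgy, ← hpdef]; ring
    rw [hgy] at hK
    have e3 : p - -q = p + q := by ring
    rw [e3] at hK
    exact hK
  have hsl := (hasDerivAt_iff_tendsto_slope.1 hF).mono_left
    (nhdsWithin_mono s (show Ioi s ⊆ {s}ᶜ from fun t ht => ne_of_gt ht))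
  have hev := hsl.eventually (lt_mem_nhds hval)
  have hlt1 : ∀ᶠ t in 𝓝[>] s, t < 1 :=
    (eventually_lt_nhds hs.2).filter_mono nhdsWithin_le_nhds
  filter_upwards [hev, hlt1, self_mem_nhdsWithin] with t ht ht1 hts
  have hts' : s < t := hts
  have htI : t ∈ Ico (0:ℝ) 1 := ⟨(hs.1.trans hts').le, ht1⟩
  obtain ⟨hm1, hm2⟩ := hill_mono H hs.1.le hts' ht1 (hx s hsI) (hx t htI)
  rw [← hxdef] at hm1 hm2
  have hxt := hx t htI
  have g1 := h1 (xm t) hxt.1 hm1.le
  have g2 := h2 (xm t + t) hm2.le hxt.2.1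
  rw [hgy] at g2
  rw [slope_def_field, lt_div_iff₀ (by linarith)] at ht
  have hFs : (((fun t => p + A * (x - xm t)) * fun t => q + B * (xm t + t - (x + s))) /
      ((fun t => p + A * (x - xm t)) + fun t => q + B * (xm t + t - (x + s)))) s = vn g xm s := by
    show (p + A * (x - xm s)) * (q + B * (xm s + s - (x + s))) /
      ((p + A * (x - xm s)) + (q + B * (xm s + s - (x + s)))) = vn g xm s
    unfold vn
    rw [← hxdef, hgy, ← hpdef]
    have e4 : p + A * (x - x) = p := by ring
    have e5 : q + B * (x + s - (x + s)) = q := by ring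
    rw [e4, e5, neg_neg, sub_neg_eq_add]
  have hFt : (((fun t => p + A * (x - xm t)) * fun t => q + B * (xm t + t - (x + s))) /
      ((fun t => p + A * (x - xm t)) + fun t => q + B * (xm t + t - (x + s)))) t ≤ vn g xm t := by
    show (p + A * (x - xm t)) * (q + B * (xm t + t - (x + s))) /
      ((p + A * (x - xm t)) + (q + B * (xm t + t - (x + s)))) ≤ vn g xm t
    unfold vn
    have e6 : g (xm t) - g (xm t + t) = g (xm t) + -g (xm t + t) := by ring
    rw [e6]
    apply hill_dini_mono
    · have : 0 ≤ A * (x - xm t) := mul_nonneg hA (by linarith)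
      linarith
    · have : 0 ≤ B * (xm t + t - (x + s)) := mul_nonneg hB (by linarith)
      linarith
    · linarith
    · linarith
  rw [hFs] at ht
  linarith

end Pool.Agent.Helper216.XRay
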