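import Pool.Agent.Helper216.XRay.Defs
import Pool.Agent.Helper216.XRay.P_hill_sign
import Pool.Agent.Helper216.XRay.P_hill_dini
import Pool.Agent.Helper216.XRay.P_alg_cube
import Pool.Agent.Helper216.XRay.P_gg_incL
import Pool.Agent.Helper216.XRay.P_gg_incR
import Pool.Agent.Helper216.XRay.P_gg_incAll
import Pool.Agent.Helper216.XRay.P_hill_of_cls
import Pool.Agent.Helper216.XRay.P_gg_boundL
import Pool.Agent.Helper216.XRay.P_gg_boundR

open Set Filter Topology MeasureTheory

namespace Pool.Agent.Helper216.XRay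



theorem step_dini_aux1 {a b : ℝ} (ha : 0 < a) (hab : a ≤ b) :
    (1/100)/b^2 * (b - a) ≤ (1/100)*(1/a - 1/b) := by
  have hb : 0 < b := lt_of_lt_of_le ha hab
  have e1 : (1/100)*(1/a - 1/b) = (1/100) * ((b - a) / (a * b)) := by
    field_simp
  have e2 : (1/100)/b^2 * (b - a) = (1/100) * ((b - a) / b^2) := by ring
  rw [e1, e2]
  apply mul_le_mul_of_nonneg_left _ (by norm_num)
  apply div_le_div_of_nonneg_left (by linarith) (by positivity)
  nlinarith

theorem step_dini {N N' w v : ℝ → ℝ} (hN : NiceN N N') (hC : Cls w v) {xm : ℝ → ℝ}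
    (hx : ∀ s ∈ Ico (0:ℝ) 1, IsCh (hh w N) (gg v N') s (xm s)) :
    ∀ s ∈ Ioo (0:ℝ) 1, ∀ K, K < (1/100)/(1-s)^2 →
      ∀ᶠ t in 𝓝[>] s, K * (t - s) ≤ vn (gg v N') xm t - vn (gg v N') xm s := by
  intro s hs K hK
  have H := hill_of_cls hN hC
  have hxs := hx s ⟨hs.1.le, hs.2⟩
  obtain ⟨hp, hq⟩ := hill_sign H hs hxs
  obtain ⟨hx0, hy1, -, -, -⟩ := hxs
  have hs0 := hs.1
  have hs1 := hs.2
  have hx34 : xm s < 3/4 := by
    by_contra hcon
    push Not at hcon
    have := (gg_boundR hN hC hcon (by linarith)).2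
    linarith
  have hpq : 0 < (gg v N' (xm s) - gg v N' (xm s + s))^3 := by
    have : 0 < gg v N' (xm s) - gg v N' (xm s + s) := by linarith
    positivity
  by_cases hy : 3/4 ≤ xm s + s
  · refine hill_dini H hx hs (A := (1/100)/(xm s)^2) (B := (1/100)/(1-(xm s + s))^2) (by positivity)
      (by positivity) ?_ ?_ ?_
    · intro x' hx'0 hx'
      have h := gg_incL hN hC hx'0 hx' hx34.le
      have h2 := step_dini_aux1 hx'0 hx'
      have h3 : 0 ≤ 9/10 * (xm s - x') := by linarith
      linarith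
    · intro y' hy' hy'1
      have h := gg_incR hN hC hy hy' hy'1
      have h2 := step_dini_aux1 (a := 1 - y') (b := 1 - (xm s + s)) (by linarith) (by linarith)
      have h3 : 0 ≤ 9/10 * (y' - (xm s + s)) := by linarith
      have h4 : (1 - (xm s + s)) - (1 - y') = y' - (xm s + s) := by ring
      rw [h4] at h2
      linarith
    · have h := alg_cube (x := xm s) (z := 1 - (xm s + s)) (p := gg v N' (xm s))
        (q := -gg v N' (xm s + s)) hx0 (by linarith) hp (by linarith)
      have e1 : xm s + (1 - (xm s + s)) = 1 - s := by ring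
      have e2 : gg v N' (xm s) + -gg v N' (xm s + s) = gg v N' (xm s) - gg v N' (xm s + s) := by ring
      rw [e1, e2] at h
      have h1 : K * (gg v N' (xm s) - gg v N' (xm s + s))^3 <
          (1/100)/(1-s)^2 * (gg v N' (xm s) - gg v N' (xm s + s))^3 :=
        mul_lt_mul_of_pos_right hK hpq
      have e3 : (1/100)/(1-s)^2 * (gg v N' (xm s) - gg v N' (xm s + s))^3 =
          (1/100) * (1/(1-s)^2 * (gg v N' (xm s) - gg v N' (xm s + s))^3) := by ring
      have e4 : (1/100)/(xm s)^2 * (-gg v N' (xm s + s))^3 +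
          (1/100)/(1-(xm s + s))^2 * (gg v N' (xm s))^3 =
          (1/100) * ((-gg v N' (xm s + s))^3/(xm s)^2 +
            (gg v N' (xm s))^3/(1-(xm s + s))^2) := by ring
      rw [e4]
      calc K * (gg v N' (xm s) - gg v N' (xm s + s))^3 < _ := h1
        _ = _ := e3
        _ ≤ _ := mul_le_mul_of_nonneg_left h (by norm_num)
  · push Not at hy
    refine hill_dini H hx hs (A := 9/10) (B := 9/10) (by norm_num)
      (by norm_num) ?_ ?_ ?_
    · intro x' hx'0 hx'
      exact gg_incAll hN hC hx'0 hx' (by linarith)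
    · intro y' hy' hy'1
      exact gg_incAll hN hC (by linarith) hy' hy'1
    · have hK2 : (1/100)/(1-s)^2 ≤ 9/40 := by
        have h1 : (1:ℝ)/4 < 1 - s := by linarith
        rw [div_le_iff₀ (by nlinarith)]
        nlinarith
      have h1 : K * (gg v N' (xm s) - gg v N' (xm s + s))^3 <
          9/40 * (gg v N' (xm s) - gg v N' (xm s + s))^3 :=
        mul_lt_mul_of_pos_right (lt_of_lt_of_le hK hK2) hpq
      have h2 : 9/40 * (gg v N' (xm s) - gg v N' (xm s + s))^3 ≤
          9/10 * (-gg v N' (xm s + s))^3 + 9/10 * (gg v N' (xm s))^3 := by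
        have h3 : 0 ≤ (gg v N' (xm s) + -gg v N' (xm s + s)) *
            (gg v N' (xm s) - -gg v N' (xm s + s))^2 :=
          mul_nonneg (by linarith) (sq_nonneg _)
        nlinarith [h3]
      linarith

end Pool.Agent.Helper216.XRay

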