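import Pool.Agent.Helper216.XRay.Defs
import Pool.Agent.Helper216.XRay.P_hill_sign
import Pool.Agent.Helper216.XRay.P_alg_up
import Pool.Agent.Helper216.XRay.P_hill_of_cls
import Pool.Agent.Helper216.XRay.P_gg_boundL
import Pool.Agent.Helper216.XRay.P_gg_boundR

open Set Filter Topology MeasureTheory

namespace Pool.Agent.Helper216.XRay



theorem step_up {N N' w v : ℝ → ℝ} (hN : NiceN N N') (hC : Cls w v) {xm : ℝ → ℝ}
    (hx : ∀ s ∈ Ico (0:ℝ) 1, IsCh (hh w N) (gg v N') s (xm s)) :
    ∀ s ∈ Ico (0:ℝ) 1, vn (gg v N') xm s ≤ (100*s+213)/(30*(1-s)) := by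
  intro s hs
  have hs1 : 0 < 1 - s := by linarith [hs.2]
  obtain ⟨hx0, hxs, heq, hg1, hg2⟩ := hx s hs
  rcases eq_or_lt_of_le hs.1 with h0 | h0
  · subst h0
    rw [add_zero] at hg2
    have h1 : gg v N' (xm 0) = 0 := le_antisymm hg2 hg1
    unfold vn
    rw [h1, zero_mul, zero_div]
    norm_num
  · have hsign := hill_sign (hill_of_cls hN hC) ⟨h0, hs.2⟩ (hx s hs)
    obtain ⟨hp, hq⟩ := hsign
    have hq' : 0 < -gg v N' (xm s + s) := by linarith
    have hx34 : xm s ≤ 3/4 := by
      by_contra hcon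
      push Not at hcon
      have := (gg_boundR hN hC hcon.le (by linarith)).2
      linarith
    have hvn : vn (gg v N') xm s = gg v N' (xm s) * (-gg v N' (xm s + s)) /
        (gg v N' (xm s) + (-gg v N' (xm s + s))) := by
      unfold vn
      rw [← sub_eq_add_neg]
    rw [hvn]
    by_cases hy : 3/4 ≤ xm s + s
    · have h1 := (gg_boundL hN hC hx0 hx34).1
      have h2 := (gg_boundR hN hC hy hxs).1
      have h3 := alg_up hx0 (z := 1 - (xm s + s)) (by linarith) hx34 (by linarith) hp hq' h1 h2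
      have e1 : xm s + (1 - (xm s + s)) = 1 - s := by ring
      rw [e1] at h3
      have e2 : 313 - 100 * (1 - s) = 100 * s + 213 := by ring
      rw [e2] at h3
      exact h3
    · push Not at hy
      have h1 := (gg_boundL hN hC (by linarith : 0 < xm s + s) hy.le).2
      have h2 : gg v N' (xm s) * (-gg v N' (xm s + s)) /
        (gg v N' (xm s) + (-gg v N' (xm s + s))) ≤ -gg v N' (xm s + s) := by
        rw [div_le_iff₀ (by linarith)]
        nlinarith
      have h3 : (71/10 : ℝ) ≤ (100*s+213)/(30*(1-s)) := by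
        rw [le_div_iff₀ (by linarith)]
        nlinarith
      linarith

end Pool.Agent.Helper216.XRay
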