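import Pool.Agent.Helper216.XRay.Defs
import Pool.Agent.Helper216.XRay.P_hill_ch_exists
import Pool.Agent.Helper216.XRay.P_hill_max
import Pool.Agent.Helper216.XRay.P_hill_der_w
import Pool.Agent.Helper216.XRay.P_hill_cont
import Pool.Agent.Helper216.XRay.P_dini_inc
import Pool.Agent.Helper216.XRay.P_hill_of_cls
import Pool.Agent.Helper216.XRay.P_step_up
import Pool.Agent.Helper216.XRay.P_step_dini

open Set Filter Topology MeasureTheory

namespace Pool.Agent.Helper216.XRay



theorem cls_step {N N' w v : ℝ → ℝ} (hN : NiceN N N') (hC : Cls w v) :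
    ∃ w1 v1, Cls w1 v1 ∧ IsT N w w1 := by
  classical
  have H := hill_of_cls hN hC
  have hex := hill_ch_exists H
  obtain ⟨xm, hx⟩ : ∃ xm : ℝ → ℝ, ∀ s ∈ Ico (0:ℝ) 1, IsCh (hh w N) (gg v N') s (xm s) := by
    refine ⟨fun s => if hs : s ∈ Ico (0:ℝ) 1 then (hex s hs).choose else 0, fun s hs => ?_⟩
    simp only [dif_pos hs]
    exact (hex s hs).choose_spec
  have hcont := hill_cont H hx
  refine ⟨fun s => hh w N (xm s), vn (gg v N') xm, ⟨hcont.1, fun s hs => hill_der_w H hx hs,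
    hcont.2, ?_, step_up hN hC hx, dini_inc hcont.2 (step_dini hN hC hx)⟩, ?_⟩
  · have h0 := hx 0 ⟨le_rfl, one_pos⟩
    obtain ⟨_, _, _, h1, h2⟩ := h0
    have h3 : gg v N' (xm 0) = 0 := by
      rw [add_zero] at h2
      exact le_antisymm h2 h1
    unfold vn
    rw [h3, zero_mul, zero_div]
  · intro s hs
    have h := hx s hs
    refine ⟨⟨xm s, ⟨h.1, by linarith [h.2.1]⟩, rfl, h.2.2.1.symm⟩, fun X hX => ?_⟩
    exact hill_max H hs h X hX

end Pool.Agent.Helper216.XRay
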