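import Pool.Agent.Helper216.XRay.Defs
import Pool.Agent.Helper216.XRay.P_sJ_mem

open Set Filter Topology MeasureTheory

namespace Pool.Agent.Helper216.XRay



theorem disp {N w w1 : ℝ → ℝ} {M : ℝ} (ha : AntitoneOn w (Ico 0 1)) (hT : IsT N w w1)
    (hM : ∀ X ∈ Icc (0:ℝ) 1, |N X| ≤ M) : ∀ s ∈ Ico (0:ℝ) 1, |w1 s - w s| ≤ M := by
  intro s hs
  have hs0 := hs.1
  have hs1 := hs.2
  have hNle : ∀ X ∈ Icc (0:ℝ) 1, -M ≤ N X ∧ N X ≤ M := fun X hX => abs_le.mp (hM X hX)
  obtain ⟨⟨x, hx, hx1, hx2⟩, hall⟩ := hT s hs
  have hx0 := hx.1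
  have hxs := hx.2
  rw [abs_le]
  constructor
  · have hX : (3/4 * (1 - s)) ∈ Ioo 0 (1 - s) := by
      constructor
      · have : 0 < 1 - s := by linarith
        positivity
      · linarith
    have h1 := hall _ hX
    have e1 : sJ (3/4 * (1 - s)) = s := by
      unfold sJ
      rw [if_pos (by linarith)]
      ring
    have e2 : sJ (3/4 * (1 - s) + s) = s := by
      unfold sJ
      split_ifs with hc
      · have : s = 0 := by linarith
        rw [this]
        norm_num
      · ring
    have h2 : w s - M ≤ min (hh w N (3/4 * (1 - s))) (hh w N (3/4 * (1 - s) + s)) := by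
      apply le_min
      · unfold hh
        rw [e1]
        have := (hNle (3/4 * (1 - s)) ⟨by linarith, by linarith⟩).2
        linarith
      · unfold hh
        rw [e2]
        have := (hNle (3/4 * (1 - s) + s) ⟨by linarith, by linarith⟩).2
        linarith
    linarith
  · by_cases hc : x ≤ 3/4 * (1 - s)
    · have hm := sJ_mem (X := x) ⟨hx0, by linarith⟩
      have h1 : s ≤ sJ x := by
        unfold sJ
        rw [if_pos (by linarith)]
        linarith
      have h2 := ha hs hm h1
      have h3 := (hNle x ⟨hx0.le, by linarith⟩).1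
      unfold hh at hx1
      linarith
    · push Not at hc
      have hm := sJ_mem (X := x + s) ⟨by linarith, by linarith⟩
      have h1 : s ≤ sJ (x + s) := by
        unfold sJ
        rw [if_neg (by linarith)]
        linarith
      have h2 := ha hs hm h1
      have h3 := (hNle (x + s) ⟨by linarith, by linarith⟩).1
      unfold hh at hx2
      linarith

end Pool.Agent.Helper216.XRay
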