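import Pool.Agent.Helper216.XRay.Defs
import Pool.Agent.Helper216.XRay.P_sJ_mem

open Set Filter Topology MeasureTheory

namespace Pool.Agent.Helper216.XRay



lemma nonexp_one {N w w' w1 w1' : ℝ → ℝ} {D : ℝ} (h1 : IsT N w w1) (h2 : IsT N w' w1')
    (hD : ∀ s ∈ Ico (0:ℝ) 1, |w s - w' s| ≤ D) : ∀ s ∈ Ico (0:ℝ) 1, w1 s ≤ w1' s + D := by
  intro s hs
  obtain ⟨x, hx, hx1, hx2⟩ := (h1 s hs).1
  have h3 := (h2 s hs).2 x hx
  have key : ∀ X ∈ Ioo (0:ℝ) 1, hh w N X - D ≤ hh w' N X := by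
    intro X hX
    have := abs_le.1 (hD _ (sJ_mem hX))
    unfold hh
    linarith [this.2]
  have hxa : x ∈ Ioo (0:ℝ) 1 := ⟨hx.1, by linarith [hx.2, hs.1]⟩
  have hxb : x + s ∈ Ioo (0:ℝ) 1 := ⟨by linarith [hx.1, hs.1], by linarith [hx.2]⟩
  have h4 := key x hxa
  have h5 := key (x + s) hxb
  rw [hx1] at h4
  rw [hx2] at h5
  have h6 : w1 s - D ≤ min (hh w' N x) (hh w' N (x + s)) := le_min h4 h5
  linarith

theorem nonexp {N w w' w1 w1' : ℝ → ℝ} {D : ℝ} (h1 : IsT N w w1) (h2 : IsT N w' w1')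
    (hD : ∀ s ∈ Ico (0:ℝ) 1, |w s - w' s| ≤ D) : ∀ s ∈ Ico (0:ℝ) 1, |w1 s - w1' s| ≤ D := by
  intro s hs
  have ha := nonexp_one h1 h2 hD s hs
  have hb := nonexp_one h2 h1 (fun s hs => by rw [abs_sub_comm]; exact hD s hs) s hs
  rw [abs_le]
  constructor <;> linarith

end Pool.Agent.Helper216.XRay
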