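import Pool.Agent.Helper216.XRay.Defs
import Pool.Agent.Helper216.XRay.P_cls_anti
import Pool.Agent.Helper216.XRay.P_cls_step
import Pool.Agent.Helper216.XRay.P_nonexp
import Pool.Agent.Helper216.XRay.P_disp
import Pool.Agent.Helper216.XRay.P_cls_mix
import Pool.Agent.Helper216.XRay.P_cls_base

open Set Filter Topology MeasureTheory

namespace Pool.Agent.Helper216.XRay



theorem iter_aux {N N' : ℝ → ℝ} (hN : NiceN N N') {M : ℝ} (hM : ∀ X ∈ Icc (0:ℝ) 1, |N X| ≤ M)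
    {a : ℝ} (ha : a ∈ Ioo (0:ℝ) 1) (k : ℕ) :
    ∃ w v w1 v1 : ℝ → ℝ, Cls w v ∧ Cls w1 v1 ∧ IsT N w w1 ∧ ∀ s ∈ Ico (0:ℝ) 1,
      |(1-a)*w1 s + a*((1/100)*(Real.log (1-s) + s)) - w s| ≤ (1-a)^(k+1) * M := by
  have ha1 : 0 < 1 - a := by linarith [ha.2]
  induction k with
  | zero =>
    obtain ⟨w1, v1, hC1, hT⟩ := cls_step hN cls_base
    refine ⟨_, _, w1, v1, cls_base, hC1, hT, ?_⟩
    intro s hs
    have h := disp (cls_anti cls_base) hT hM s hs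
    have e : (1-a)*w1 s + a*((1/100)*(Real.log (1-s) + s)) - (1/100)*(Real.log (1-s) + s)
        = (1 - a) * (w1 s - (1/100)*(Real.log (1-s) + s)) := by ring
    show |(1-a)*w1 s + a*((1/100)*(Real.log (1-s) + s)) - (1/100)*(Real.log (1-s) + s)| ≤ _
    rw [e, abs_mul, abs_of_pos ha1, zero_add, pow_one]
    exact mul_le_mul_of_nonneg_left h ha1.le
  | succ k ih =>
    obtain ⟨w, v, w1, v1, hC, hC1, hT, hb⟩ := ih
    have hC' := cls_mix hC1 cls_base ha.1.le ha.2.le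
    obtain ⟨w1', v1', hC1', hT'⟩ := cls_step hN hC'
    refine ⟨_, _, w1', v1', hC', hC1', hT', ?_⟩
    intro s hs
    have h := nonexp hT' hT hb s hs
    show |(1-a)*w1' s + a*((1/100)*(Real.log (1-s) + s))
      - ((1-a)*w1 s + a*((1/100)*(Real.log (1-s) + s)))| ≤ _
    have e : (1-a)*w1' s + a*((1/100)*(Real.log (1-s) + s))
      - ((1-a)*w1 s + a*((1/100)*(Real.log (1-s) + s))) = (1 - a) * (w1' s - w1 s) := by ring
    rw [e, abs_mul, abs_of_pos ha1, pow_succ' _ (k+1), mul_assoc]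
    exact mul_le_mul_of_nonneg_left h ha1.le

theorem iter {N N' : ℝ → ℝ} (hN : NiceN N N') : ∀ a ∈ Ioo (0:ℝ) 1, ∀ δ > (0:ℝ),
    ∃ w v w1 v1 : ℝ → ℝ, Cls w v ∧ Cls w1 v1 ∧ IsT N w w1 ∧ ∀ s ∈ Ico (0:ℝ) 1,
      |(1-a)*w1 s + a*((1/100)*(Real.log (1-s) + s)) - w s| ≤ δ := by
  intro a ha δ hδ
  have hcont : ContinuousOn N (Icc 0 1) := fun X hX => (hN.der X hX).continuousAt.continuousWithinAt
  obtain ⟨M, hM⟩ := isCompact_Icc.exists_bound_of_continuousOn hcont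
  have hM' : ∀ X ∈ Icc (0:ℝ) 1, |N X| ≤ M := fun X hX => by simpa [Real.norm_eq_abs] using hM X hX
  have ha1 : 0 < 1 - a := by linarith [ha.2]
  have ha2 : 1 - a < 1 := by linarith [ha.1]
  have hlim : Tendsto (fun k : ℕ => (1-a)^(k+1) * M) atTop (𝓝 (0 * M)) := by
    apply Tendsto.mul_const
    exact (tendsto_pow_atTop_nhds_zero_of_lt_one ha1.le ha2).comp (tendsto_add_atTop_nat 1)
  rw [zero_mul] at hlim
  obtain ⟨k, hk⟩ := (hlim.eventually (gt_mem_nhds hδ)).exists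
  obtain ⟨w, v, w1, v1, hC, hC1, hT, hb⟩ := iter_aux hN hM' ha k
  exact ⟨w, v, w1, v1, hC, hC1, hT, fun s hs => (hb s hs).trans hk.le⟩

end Pool.Agent.Helper216.XRay
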