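import Pool.Agent.Helper216.XRay.Defs
import Pool.Agent.Helper216.XRay.P_cls_bounds
import Pool.Agent.Helper216.XRay.P_cls_shift
import Pool.Agent.Helper216.XRay.P_isT_shift
import Pool.Agent.Helper216.XRay.P_iter

open Set Filter Topology MeasureTheory

namespace Pool.Agent.Helper216.XRay



theorem approx {N N' : ℝ → ℝ} (hN : NiceN N N') : ∀ n : ℕ,
    ∃ (w v w1 : ℝ → ℝ) (c : ℝ), Cls w v ∧ w 0 = 0 ∧ IsT N w w1 ∧ ∀ s ∈ Ico (0:ℝ) 1,
      |w1 s - w s - c| ≤ (1/((n:ℝ)+1))*(2 - 22*Real.log (1-s)) := by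
  intro n
  have hn : (0:ℝ) < (n:ℝ) + 2 := by positivity
  have hn1 : (0:ℝ) < (n:ℝ) + 1 := by positivity
  have ha0 : (0:ℝ) < 1 / ((n:ℝ) + 2) := by positivity
  have ha1 : 1 / ((n:ℝ) + 2) < 1 := by
    rw [div_lt_one hn]
    linarith [Nat.cast_nonneg (α := ℝ) n]
  obtain ⟨w, v, w1, v1, hC, hC1, hT, hb⟩ := iter hN (1 / ((n:ℝ) + 2)) ⟨ha0, ha1⟩
    (1 / ((n:ℝ) + 2)) ha0
  refine ⟨fun s => w s - w 0, v, fun s => w1 s - w 0, (1 / ((n:ℝ) + 2)) * w1 0,
    cls_shift hC _, by simp, isT_shift hT _, ?_⟩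
  intro s hs
  have h0 : (0:ℝ) ∈ Ico (0:ℝ) 1 := ⟨le_refl _, by norm_num⟩
  obtain ⟨hl, hu⟩ := cls_bounds hC1 0 h0 s hs hs.1
  have hlog0 : Real.log (1 - 0) = 0 := by norm_num
  rw [hlog0] at hl hu
  have hlog : Real.log (1 - s) ≤ -s := by
    have := Real.log_le_sub_one_of_pos (show 0 < 1 - s by linarith [hs.2])
    linarith
  have hs0 := hs.1
  have he := hb s hs
  set a : ℝ := 1 / ((n:ℝ) + 2) with ha
  set L : ℝ := Real.log (1 - s) with hL
  have haa : a ≤ 1 / ((n:ℝ) + 1) := by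
    rw [ha]
    apply one_div_le_one_div_of_le hn1
    linarith
  have key : |w1 s - w 0 - (w s - w 0) - a * w1 0| ≤ a * (2 - 22 * L) := by
    rw [abs_le] at he ⊢
    constructor
    · nlinarith [he.1, he.2, mul_le_mul_of_nonneg_left hl ha0.le,
        mul_le_mul_of_nonneg_left hu ha0.le, mul_le_mul_of_nonneg_left hlog ha0.le,
        mul_nonneg ha0.le hs0]
    · nlinarith [he.1, he.2, mul_le_mul_of_nonneg_left hl ha0.le,
        mul_le_mul_of_nonneg_left hu ha0.le, mul_le_mul_of_nonneg_left hlog ha0.le,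
        mul_nonneg ha0.le hs0]
  refine key.trans ?_
  apply mul_le_mul_of_nonneg_right haa
  linarith

end Pool.Agent.Helper216.XRay
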