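import Pool.Agent.Helper216.XRay.Defs

open Set Filter Topology MeasureTheory

namespace Pool.Agent.Helper216.XRay



theorem body_compact {a b : ℝ} {f : ℝ → ℝ} (h : Prof a b f) : IsCompact (body a b f) := by
  have hc : ContinuousOn f (Icc a b) := by
    intro x hx
    rcases eq_or_lt_of_le hx.1 with hxa | hxa
    · subst hxa
      have h1 : ContinuousWithinAt f (Ioi a) a := by
        have := h.lima
        rw [← h.fa] at this
        exact this
      exact (continuousWithinAt_Ioi_iff_Ici.1 h1).mono Icc_subset_Ici_self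
    rcases eq_or_lt_of_le hx.2 with hxb | hxb
    · subst hxb
      have h1 : ContinuousWithinAt f (Iio x) x := by
        have := h.limb
        rw [← h.fb] at this
        exact this
      exact (continuousWithinAt_Iio_iff_Iic.1 h1).mono Icc_subset_Iic_self
    · exact ((h.conc.continuousOn isOpen_Ioo).continuousAt
        (Ioo_mem_nhds hxa hxb)).continuousWithinAt
  have hpos : ∀ x ∈ Icc a b, 0 ≤ f x := by
    intro x hx
    rcases eq_or_lt_of_le hx.1 with hxa | hxa
    · rw [← hxa, h.fa]
    rcases eq_or_lt_of_le hx.2 with hxb | hxb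
    · rw [hxb, h.fb]
    · exact (h.pos x ⟨hxa, hxb⟩).le
  have himg : body a b f =
      (fun q : ℝ × ℝ => (!₂[q.1, q.2 * f q.1] : E2)) '' (Icc a b ×ˢ Icc (-1 : ℝ) 1) := by
    ext p
    constructor
    · rintro ⟨h1, h2⟩
      by_cases h0 : f (p 0) = 0
      · refine ⟨(p 0, 0), ⟨h1, by norm_num, by norm_num⟩, ?_⟩
        rw [h0] at h2
        have h3 : p 1 = 0 := abs_eq_zero.1 (le_antisymm h2 (abs_nonneg _))
        ext i
        fin_cases i
        · simp
        · simp [h3]
      · have hp : 0 < f (p 0) := lt_of_le_of_ne (hpos _ h1) (Ne.symm h0)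
        refine ⟨(p 0, p 1 / f (p 0)), ⟨h1, ?_⟩, ?_⟩
        · show p 1 / f (p 0) ∈ Icc (-1 : ℝ) 1
          rw [Set.mem_Icc, ← abs_le, abs_div, abs_of_pos hp, div_le_one hp]
          exact h2
        · ext i
          fin_cases i
          · simp
          · simp [h0]
    · rintro ⟨⟨x, t⟩, ⟨hx, ht⟩, rfl⟩
      refine ⟨by simpa using hx, ?_⟩
      have h3 : |t| ≤ 1 := abs_le.2 ht
      have h4 := hpos x hx
      show |t * f x| ≤ f x
      rw [abs_mul, abs_of_nonneg h4]
      exact mul_le_of_le_one_left h4 h3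
  rw [himg]
  apply (isCompact_Icc.prod isCompact_Icc).image_of_continuousOn
  have h5 : ContinuousOn (fun q : ℝ × ℝ => (![q.1, q.2 * f q.1] : Fin 2 → ℝ))
      (Icc a b ×ˢ Icc (-1 : ℝ) 1) := by
    rw [continuousOn_pi]
    intro i
    fin_cases i
    · exact continuous_fst.continuousOn
    · exact continuous_snd.continuousOn.mul (hc.comp continuous_fst.continuousOn (fun q hq => hq.1))
  exact (PiLp.continuous_toLp 2 _).comp_continuousOn h5

end Pool.Agent.Helper216.XRay
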