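import Pool.Agent.Helper216.XRay.Defs

open Set Filter Topology MeasureTheory

namespace Pool.Agent.Helper216.XRay



theorem body_convex_lim {a b : ℝ} {f : ℝ → ℝ} (h : Prof a b f) (x : ℝ) (hx : x ∈ Icc a b) :
    Tendsto (fun s : ℝ => f (x + s * ((a + b) / 2 - x))) (𝓝[>] 0) (𝓝 (f x)) := by
  have hab := h.lt
  have hcont : Tendsto (fun s : ℝ => x + s * ((a + b) / 2 - x)) (𝓝[>] 0) (𝓝 x) := by
    have : Tendsto (fun s : ℝ => x + s * ((a + b) / 2 - x)) (𝓝 0) (𝓝 (x + 0 * ((a + b) / 2 - x))) :=
      Continuous.tendsto (by fun_prop) 0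
    rw [zero_mul, add_zero] at this
    exact this.mono_left nhdsWithin_le_nhds
  rcases eq_or_lt_of_le hx.1 with h1 | h1
  · subst h1
    rw [h.fa]
    refine h.lima.comp (tendsto_nhdsWithin_of_tendsto_nhds_of_eventually_within _ hcont ?_)
    filter_upwards [self_mem_nhdsWithin] with s hs
    have hs0 : (0 : ℝ) < s := hs
    change a < a + s * ((a + b) / 2 - a)
    have : 0 < s * ((a + b) / 2 - a) := mul_pos hs0 (by linarith)
    linarith
  · rcases eq_or_lt_of_le hx.2 with h2 | h2
    · subst h2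
      rw [h.fb]
      refine h.limb.comp (tendsto_nhdsWithin_of_tendsto_nhds_of_eventually_within _ hcont ?_)
      filter_upwards [self_mem_nhdsWithin] with s hs
      have hs0 : (0 : ℝ) < s := hs
      change x + s * ((a + x) / 2 - x) < x
      have : 0 < s * (x - (a + x) / 2) := mul_pos hs0 (by linarith)
      linarith
    · have hc : ContinuousOn f (Ioo a b) := h.conc.continuousOn isOpen_Ioo
      have hca : ContinuousAt f x := hc.continuousAt (isOpen_Ioo.mem_nhds ⟨h1, h2⟩)
      exact hca.tendsto.comp hcont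

theorem body_convex_conc {a b : ℝ} {f : ℝ → ℝ} (h : Prof a b f) : ConcaveOn ℝ (Icc a b) f := by
  refine ⟨convex_Icc a b, ?_⟩
  intro x hx y hy s t hs ht hst
  have hab := h.lt
  simp only [smul_eq_mul]
  have hz : s * x + t * y ∈ Icc a b := by
    have := convex_Icc a b hx hy hs ht hst
    simpa using this
  have l1 := body_convex_lim h x hx
  have l2 := body_convex_lim h y hy
  have l3 := body_convex_lim h _ hz
  refine le_of_tendsto_of_tendsto ((l1.const_mul s).add (l2.const_mul t)) l3 ?_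
  have hmem : ∀ᶠ r : ℝ in 𝓝[>] 0, r ∈ Ioo (0:ℝ) 1 := Ioo_mem_nhdsGT (by norm_num)
  filter_upwards [hmem] with r hr
  have hin : ∀ u ∈ Icc a b, u + r * ((a + b) / 2 - u) ∈ Ioo a b := by
    intro u hu
    constructor
    · have h1 : 0 ≤ (1 - r) * (u - a) := mul_nonneg (by linarith [hr.2]) (by linarith [hu.1])
      have h2 : 0 < r * ((a + b) / 2 - a) := mul_pos hr.1 (by linarith)
      nlinarith
    · have h1 : 0 ≤ (1 - r) * (b - u) := mul_nonneg (by linarith [hr.2]) (by linarith [hu.2])
      have h2 : 0 < r * (b - (a + b) / 2) := mul_pos hr.1 (by linarith)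
      nlinarith
  have h3 := h.conc.2 (hin x hx) (hin y hy) hs ht hst
  simp only [smul_eq_mul] at h3
  have h4 : s * (x + r * ((a + b) / 2 - x)) + t * (y + r * ((a + b) / 2 - y)) =
      (s * x + t * y) + r * ((a + b) / 2 - (s * x + t * y)) := by
    have ht' : t = 1 - s := by linarith
    rw [ht']; ring
  rw [h4] at h3
  exact h3

theorem body_convex {a b : ℝ} {f : ℝ → ℝ} (h : Prof a b f) : Convex ℝ (body a b f) := by
  have hc := body_convex_conc h
  intro p hp q hq s t hs ht hst
  have h0 : (s • p + t • q) 0 = s * p 0 + t * q 0 := by simp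
  have h1 : (s • p + t • q) 1 = s * p 1 + t * q 1 := by simp
  have h3 := hc.2 hp.1 hq.1 hs ht hst
  simp only [smul_eq_mul] at h3
  refine ⟨?_, ?_⟩
  · rw [h0]
    have := convex_Icc a b hp.1 hq.1 hs ht hst
    simpa using this
  · rw [h0, h1]
    calc |s * p 1 + t * q 1| ≤ |s * p 1| + |t * q 1| := abs_add_le _ _
      _ = s * |p 1| + t * |q 1| := by rw [abs_mul, abs_mul, abs_of_nonneg hs, abs_of_nonneg ht]
      _ ≤ s * f (p 0) + t * f (q 0) := add_le_add (mul_le_mul_of_nonneg_left hp.2 hs)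
          (mul_le_mul_of_nonneg_left hq.2 ht)
      _ ≤ f (s * p 0 + t * q 0) := h3

end Pool.Agent.Helper216.XRay
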