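import Pool.Agent.Helper216.XRay.Defs

open Set Filter Topology MeasureTheory

namespace Pool.Agent.Helper216.XRay



theorem body_interior {a b : ℝ} {f : ℝ → ℝ} (h : Prof a b f) {x : ℝ} (hx : x ∈ Ioo a b) :
    (!₂[x, 0] : E2) ∈ interior (body a b f) := by
  have hfc : ContinuousAt f x := (h.conc.continuousOn isOpen_Ioo).continuousAt (Ioo_mem_nhds hx.1 hx.2)
  have c0 : Continuous (fun p : E2 => p 0) := (EuclideanSpace.proj (0 : Fin 2) : E2 →L[ℝ] ℝ).continuous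
  have c1 : Continuous (fun p : E2 => p 1) := (EuclideanSpace.proj (1 : Fin 2) : E2 →L[ℝ] ℝ).continuous
  have e0 : (!₂[x, 0] : E2) 0 = x := rfl
  have e1 : (!₂[x, 0] : E2) 1 = 0 := rfl
  rw [mem_interior_iff_mem_nhds]
  have hF : ContinuousAt (fun p : E2 => f (p 0) - |p 1|) (!₂[x, 0] : E2) := by
    refine ContinuousAt.sub ?_ c1.abs.continuousAt
    exact ContinuousAt.comp (f := fun p : E2 => p 0) (g := f) (by rw [e0]; exact hfc) c0.continuousAt
  have hpos : 0 < f ((!₂[x, 0] : E2) 0) - |(!₂[x, 0] : E2) 1| := by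
    rw [e0, e1, abs_zero, sub_zero]; exact h.pos x hx
  have ev1 : ∀ᶠ p in 𝓝 (!₂[x, 0] : E2), 0 < f (p 0) - |p 1| := hF.eventually (lt_mem_nhds hpos)
  have ev2 : ∀ᶠ p in 𝓝 (!₂[x, 0] : E2), p 0 ∈ Ioo a b :=
    c0.continuousAt.eventually (show ∀ᶠ y in 𝓝 x, y ∈ Ioo a b from Ioo_mem_nhds hx.1 hx.2)
  filter_upwards [ev1, ev2] with p hp1 hp2
  exact ⟨Ioo_subset_Icc_self hp2, by linarith⟩

end Pool.Agent.Helper216.XRay
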