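import Pool.Agent.Helper216.XRay.Defs
import Pool.Agent.Helper216.XRay.P_body_convex
import Pool.Agent.Helper216.XRay.P_body_compact
import Pool.Agent.Helper216.XRay.P_body_interior

open Set Filter Topology MeasureTheory

namespace Pool.Agent.Helper216.XRay



theorem body_admissible {a b e1 e2 : ℝ} {f : ℝ → ℝ} (h : Prof a b f) (he : e1 ≠ e2)
    (h1 : e1 ∉ Icc a b) (h2 : e2 ∉ Icc a b) :
    Admissible !₂[e1, 0] !₂[e2, 0] (body a b f) := by
  refine ⟨body_convex h, body_compact h, ?_, ?_, ?_⟩
  · intro hm
    apply h1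
    have := hm.1
    simpa using this
  · intro hm
    apply h2
    have := hm.1
    simpa using this
  · refine ⟨!₂[(a + b) / 2, 0], ?_, body_interior h ⟨?_, ?_⟩⟩
    · have hne : e2 - e1 ≠ 0 := sub_ne_zero.2 he.symm
      have heq : (!₂[(a + b) / 2, 0] : E2) =
          AffineMap.lineMap (!₂[e1, 0] : E2) (!₂[e2, 0] : E2) (((a + b) / 2 - e1) / (e2 - e1)) := by
        ext i
        fin_cases i
        · simp [AffineMap.lineMap_apply]
          field_simp
          ring
        · simp [AffineMap.lineMap_apply]
      rw [heq]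
      exact AffineMap.lineMap_mem_affineSpan_pair _ _ _
    · linarith [h.lt]
    · linarith [h.lt]

end Pool.Agent.Helper216.XRay
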