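import Pool.Agent.Helper216.XRay.Defs

open Set Filter Topology MeasureTheory

namespace Pool.Agent.Helper216.XRay



theorem chord_slope {a b e θ : ℝ} {f : ℝ → ℝ} (hθ : Real.cos θ ≠ 0) :
    chord (body a b f) !₂[e, 0] θ = Real.sqrt (1 + (Real.tan θ)^2) *
      Metric.diam {x : ℝ | x ∈ Icc a b ∧ |Real.tan θ| * |x - e| ≤ f x} := by
  set m := Real.tan θ with hm
  set S : Set ℝ := {x : ℝ | x ∈ Icc a b ∧ |m| * |x - e| ≤ f x} with hS
  have hsin : Real.sin θ = m * Real.cos θ := by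
    rw [hm, Real.tan_mul_cos hθ]
  have hdist : ∀ x y : ℝ, dist (!₂[x, m * (x - e)] : E2) !₂[y, m * (y - e)] =
      Real.sqrt (1 + m ^ 2) * dist x y := by
    intro x y
    rw [EuclideanSpace.dist_eq, Fin.sum_univ_two]
    simp only [Real.dist_eq, sq_abs]
    have h1 : ((!₂[x, m * (x - e)] : E2) 0 - (!₂[y, m * (y - e)] : E2) 0) ^ 2 +
        ((!₂[x, m * (x - e)] : E2) 1 - (!₂[y, m * (y - e)] : E2) 1) ^ 2 =
        (1 + m ^ 2) * (x - y) ^ 2 := by
      simp
      ring
    rw [h1, Real.sqrt_mul (by positivity), Real.sqrt_sq_eq_abs]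
  have hc : 0 < Real.sqrt (1 + m ^ 2) := Real.sqrt_pos.2 (by positivity)
  let c : NNReal := ⟨Real.sqrt (1 + m ^ 2), hc.le⟩
  have hc0 : c ≠ 0 := fun h => hc.ne' (congrArg NNReal.toReal h)
  let φ : ℝ →ᵈ E2 := Dilation.mkOfDistEq (fun x => (!₂[x, m * (x - e)] : E2))
    ⟨c, hc0, hdist⟩
  have hφ : ∀ x, φ x = !₂[x, m * (x - e)] := fun x => rfl
  have hrat : c = Dilation.ratio φ := by
    refine Dilation.ratio_unique_of_dist_ne_zero (x := (0:ℝ)) (y := 1) (by simp) ?_
    rw [hφ, hφ]; exact hdist 0 1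
  have himg : body a b f ∩ {p | ∃ t : ℝ, p = (!₂[e, 0] : E2) + t • dir θ} = φ '' S := by
    ext p
    constructor
    · rintro ⟨⟨h1, h2⟩, t, rfl⟩
      have e0 : ((!₂[e, 0] : E2) + t • dir θ) 0 = e + t * Real.cos θ := by
        simp [dir]
      have e1 : ((!₂[e, 0] : E2) + t • dir θ) 1 = t * Real.sin θ := by
        simp [dir]
      have e2 : t * Real.sin θ = m * (e + t * Real.cos θ - e) := by
        rw [hsin]; ring
      rw [e0] at h1 h2
      rw [e1, e2, abs_mul] at h2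
      refine ⟨e + t * Real.cos θ, ⟨h1, h2⟩, ?_⟩
      rw [hφ]
      ext i
      fin_cases i
      · simp [dir]
      · simp [dir, hsin]; ring
    · rintro ⟨x, ⟨h1, h2⟩, rfl⟩
      rw [hφ]
      refine ⟨⟨?_, ?_⟩, (x - e) / Real.cos θ, ?_⟩
      · simpa using h1
      · simpa [abs_mul] using h2
      · ext i
        fin_cases i
        · simp [dir]
          field_simp
          ring
        · simp [dir, hsin]
          field_simp
  unfold chord
  rw [himg, Dilation.diam_image, ← hrat]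
  rfl

end Pool.Agent.Helper216.XRay
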