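import Pool.Agent.Helper216.XRay.Defs

open Set Filter Topology MeasureTheory

namespace Pool.Agent.Helper216.XRay



theorem chord_vert {a b e θ : ℝ} {f : ℝ → ℝ} (he : e ∉ Icc a b) (hθ : Real.cos θ = 0) :
    chord (body a b f) !₂[e, 0] θ = 0 := by
  unfold chord
  have h : body a b f ∩ {p | ∃ t : ℝ, p = !₂[e, 0] + t • dir θ} = ∅ := by
    rw [Set.eq_empty_iff_forall_notMem]
    rintro p ⟨hp, t, rfl⟩
    have h1 : (!₂[e, 0] + t • dir θ : E2) 0 = e := by
      simp [dir, hθ]
    have h2 := hp.1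
    rw [h1] at h2
    exact he h2
  rw [h, Metric.diam_empty]

end Pool.Agent.Helper216.XRay
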