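import Pool.Agent.Helper216.XRay.Defs
import Pool.Agent.Helper216.XRay.P_chord_vert
import Pool.Agent.Helper216.XRay.P_chord_slope

open Set Filter Topology MeasureTheory

namespace Pool.Agent.Helper216.XRay



theorem chord_one_iff (m q y u : ℝ) (hm : 0 < m) (hq : q = 100000 * Real.log m) (hy : 0 < y) :
    m * y ≤ y * Real.exp (u / 100000) ↔ q ≤ u := by
  rw [mul_comm m y, mul_le_mul_iff_right₀ hy, ← Real.log_le_iff_le_exp hm, hq]
  constructor
  · intro h; linarith
  · intro h; linarith

theorem chord_one {w : ℝ → ℝ} {η θ : ℝ} (hη : η ∈ Icc (4/100000:ℝ) (5/100000))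
    (hd : ∀ q : ℝ, Metric.diam {X : ℝ | X ∈ Ioo (0:ℝ) 1 ∧ q ≤ w (sJ X)} =
      Metric.diam {X : ℝ | X ∈ Ioo (0:ℝ) 1 ∧ q ≤ hh w (NN η) X}) :
    chord (body 1 2 (Kf w)) !₂[-100000, 0] θ =
      chord (body (η-2) (η-1) (Lf η w)) !₂[-100000, 0] θ := by
  obtain ⟨hη1, hη2⟩ := hη
  have e1 : (-100000 : ℝ) ∉ Icc (1:ℝ) 2 := by
    intro h; linarith [h.1]
  have e2 : (-100000 : ℝ) ∉ Icc (η-2) (η-1) := by
    intro h; linarith [h.1]
  by_cases hθ : Real.cos θ = 0
  · rw [chord_vert e1 hθ, chord_vert e2 hθ]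
  rw [chord_slope hθ, chord_slope hθ]
  congr 1
  have hm0 : 0 ≤ |Real.tan θ| := abs_nonneg _
  generalize |Real.tan θ| = m at hm0
  rcases hm0.eq_or_lt with h0 | hm
  · have s1 : {x : ℝ | x ∈ Icc (1:ℝ) 2 ∧ m * |x - -100000| ≤ Kf w x} = Icc 1 2 := by
      ext x
      simp only [mem_ofPred_eq, and_iff_left_iff_imp]
      intro hx
      rw [← h0, zero_mul]
      unfold Kf
      split_ifs with hc
      · have : 0 < 100000 + x := by linarith [hc.1]
        positivity
      · exact le_rfl
    have s2 : {x : ℝ | x ∈ Icc (η-2) (η-1) ∧ m * |x - -100000| ≤ Lf η w x} = Icc (η-2) (η-1) := by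
      ext x
      simp only [mem_ofPred_eq, and_iff_left_iff_imp]
      intro hx
      rw [← h0, zero_mul]
      unfold Lf
      split_ifs with hc
      · have : 0 < 100000 + x := by linarith [hc.1]
        positivity
      · exact le_rfl
    rw [s1, s2, Real.diam_Icc (by norm_num), Real.diam_Icc (by linarith)]
    ring
  · have s1 : {x : ℝ | x ∈ Icc (1:ℝ) 2 ∧ m * |x - -100000| ≤ Kf w x} =
        (fun X : ℝ => 2 - X) '' {X : ℝ | X ∈ Ioo (0:ℝ) 1 ∧ 100000 * Real.log m ≤ w (sJ X)} := by
      ext x
      simp only [mem_ofPred_eq, mem_image]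
      constructor
      · rintro ⟨⟨hx1, hx2⟩, hx⟩
        have hy : 0 < 100000 + x := by linarith
        have hab : |x - -100000| = 100000 + x := by rw [abs_of_pos (by linarith)]; ring
        rw [hab] at hx
        unfold Kf at hx
        split_ifs at hx with hc
        · exact ⟨2 - x, ⟨⟨by linarith [hc.2], by linarith [hc.1]⟩,
            (chord_one_iff m _ _ _ hm rfl hy).mp hx⟩, by ring⟩
        · exfalso
          have := mul_pos hm hy
          linarith
      · rintro ⟨X, ⟨⟨hX1, hX2⟩, hX⟩, rfl⟩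
        have hy : 0 < 100000 + (2 - X) := by linarith
        have hab : |2 - X - -100000| = 100000 + (2 - X) := by rw [abs_of_pos (by linarith)]; ring
        refine ⟨⟨by linarith, by linarith⟩, ?_⟩
        rw [hab]
        unfold Kf
        rw [if_pos ⟨by linarith, by linarith⟩]
        refine (chord_one_iff m _ _ _ hm rfl hy).mpr ?_
        rw [show 2 - (2 - X) = X by ring]
        exact hX
    have s2 : {x : ℝ | x ∈ Icc (η-2) (η-1) ∧ m * |x - -100000| ≤ Lf η w x} =
        (fun X : ℝ => X - (2 - η)) ''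
          {X : ℝ | X ∈ Ioo (0:ℝ) 1 ∧ 100000 * Real.log m ≤ hh w (NN η) X} := by
      ext x
      simp only [mem_ofPred_eq, mem_image]
      constructor
      · rintro ⟨⟨hx1, hx2⟩, hx⟩
        have hy : 0 < 100000 + x := by linarith
        have hab : |x - -100000| = 100000 + x := by rw [abs_of_pos (by linarith)]; ring
        rw [hab] at hx
        unfold Lf at hx
        split_ifs at hx with hc
        · exact ⟨2 - η + x, ⟨⟨by linarith [hc.1], by linarith [hc.2]⟩,
            (chord_one_iff m _ _ _ hm rfl hy).mp hx⟩, by ring⟩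
        · exfalso
          have := mul_pos hm hy
          linarith
      · rintro ⟨X, ⟨⟨hX1, hX2⟩, hX⟩, rfl⟩
        have hy : 0 < 100000 + (X - (2 - η)) := by linarith
        have hab : |X - (2 - η) - -100000| = 100000 + (X - (2 - η)) := by
          rw [abs_of_pos (by linarith)]; ring
        refine ⟨⟨by linarith, by linarith⟩, ?_⟩
        rw [hab]
        unfold Lf
        rw [if_pos ⟨by linarith, by linarith⟩]
        refine (chord_one_iff m _ _ _ hm rfl hy).mpr ?_
        rw [show 2 - η + (X - (2 - η)) = X by ring]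
        exact hX
    have i1 : Isometry (fun X : ℝ => 2 - X) :=
      Isometry.of_dist_eq fun a b => by
        rw [Real.dist_eq, Real.dist_eq, ← abs_neg]; congr 1; ring
    have i2 : Isometry (fun X : ℝ => X - (2 - η)) :=
      Isometry.of_dist_eq fun a b => by
        rw [Real.dist_eq, Real.dist_eq]; congr 1; ring
    rw [s1, s2, i1.diam_image, i2.diam_image]
    exact hd _

end Pool.Agent.Helper216.XRay
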