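import Pool.Agent.Helper216.XRay.Defs
import Pool.Agent.Helper216.XRay.P_chord_vert
import Pool.Agent.Helper216.XRay.P_chord_slope
import Pool.Agent.Helper216.XRay.P_Lf_eq

open Set Filter Topology MeasureTheory

namespace Pool.Agent.Helper216.XRay



theorem chord_two {w : ℝ → ℝ} {η θ : ℝ} (hη : η ∈ Icc (4/100000:ℝ) (5/100000)) :
    chord (body 1 2 (Kf w)) !₂[0, 0] θ = chord (body (η-2) (η-1) (Lf η w)) !₂[0, 0] θ := by
  obtain ⟨hη1, hη2⟩ := hη
  by_cases hθ : Real.cos θ = 0
  · rw [chord_vert (by rintro ⟨h1, h2⟩; linarith) hθ,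
      chord_vert (by rintro ⟨h1, h2⟩; linarith) hθ]
  · rw [chord_slope hθ, chord_slope hθ]
    congr 1
    have hset : {x : ℝ | x ∈ Icc (η-2) (η-1) ∧ |Real.tan θ| * |x - 0| ≤ Lf η w x} =
        (IsometryEquiv.subLeft η) '' {x : ℝ | x ∈ Icc 1 2 ∧ |Real.tan θ| * |x - 0| ≤ Kf w x} := by
      ext x
      constructor
      · rintro ⟨⟨hx1, hx2⟩, hx3⟩
        refine ⟨η - x, ⟨⟨by linarith, by linarith⟩, ?_⟩, ?_⟩
        · rw [Lf_eq ⟨hη1, hη2⟩ ⟨hx1, hx2⟩, sub_zero, abs_of_neg (show x < 0 by linarith)] at hx3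
          have hpos : 0 < η - x := by linarith
          have hneg : 0 < -x := by linarith
          rw [le_div_iff₀ hpos] at hx3
          rw [sub_zero, abs_of_pos hpos]
          have : -x * (|Real.tan θ| * (η - x)) ≤ -x * Kf w (η - x) := by
            calc -x * (|Real.tan θ| * (η - x)) = |Real.tan θ| * -x * (η - x) := by ring
              _ ≤ -x * Kf w (η - x) := hx3
          exact le_of_mul_le_mul_left this hneg
        · show η - (η - x) = x
          ring
      · rintro ⟨y, ⟨⟨hy1, hy2⟩, hy3⟩, rfl⟩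
        have he : (IsometryEquiv.subLeft η) y = η - y := rfl
        rw [he]
        refine ⟨⟨by linarith, by linarith⟩, ?_⟩
        have hx : η - y ∈ Icc (η-2) (η-1) := ⟨by linarith, by linarith⟩
        rw [Lf_eq ⟨hη1, hη2⟩ hx, sub_zero, abs_of_neg (show η - y < 0 by linarith)]
        have hpos : 0 < y := by linarith
        have hneg : 0 < -(η - y) := by linarith
        have e1 : η - (η - y) = y := by ring
        rw [e1, le_div_iff₀ hpos]
        rw [sub_zero, abs_of_pos hpos] at hy3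
        calc |Real.tan θ| * -(η - y) * y = -(η - y) * (|Real.tan θ| * y) := by ring
          _ ≤ -(η - y) * Kf w y := mul_le_mul_of_nonneg_left hy3 hneg.le
    rw [hset, (IsometryEquiv.subLeft η).isometry.diam_image]

end Pool.Agent.Helper216.XRay
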