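import Pool.Agent.Helper216.XRay.Defs

open Set Filter Topology MeasureTheory

namespace Pool.Agent.Helper216.XRay



lemma conc_exp_core {f g : ℝ → ℝ} {a b : ℝ} {X Y u : ℝ} (hX : 0 < X) (hXY : X ≤ Y) (hY : Y < 1)
    (hf : ∀ Z ∈ Icc X Y, HasDerivAt f (g Z) Z) (hu : 0 < u) (hu34 : u ≤ 3/4) (hD : Y - X ≤ u / 10)
    (hg : ∀ Z ∈ Icc X Y, |g Z| ≤ 18/u) (hi : (Y - X)/(110*u^2) ≤ g X - g Y)
    (hb : |b| ≤ 1) (ha : 60000 ≤ a) :
    b * Real.exp (f Y/100000) + (a+b*Y) * (Real.exp (f Y/100000) * (g Y/100000)) ≤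
    b * Real.exp (f X/100000) + (a+b*X) * (Real.exp (f X/100000) * (g X/100000)) := by
  have hmv : |f X - f Y| ≤ 18/u * (Y - X) := by
    have := Convex.norm_image_sub_le_of_norm_hasDerivWithin_le (f := f) (f' := g) (C := 18/u) (s := Icc X Y)
      (x := Y) (y := X) (fun Z hZ => (hf Z hZ).hasDerivWithinAt) (fun Z hZ => by
        rw [Real.norm_eq_abs]; exact hg Z hZ) (convex_Icc X Y) (right_mem_Icc.2 hXY) (left_mem_Icc.2 hXY)
    rw [Real.norm_eq_abs, Real.norm_eq_abs, abs_sub_comm X Y, abs_of_nonneg (by linarith : 0 ≤ Y - X)] at this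
    exact this
  set δ : ℝ := (f X - f Y)/100000 with hδ
  have hexp : Real.exp (f X/100000) = Real.exp (f Y/100000) * Real.exp δ := by
    rw [← Real.exp_add]; congr 1; rw [hδ]; ring
  set A : ℝ := a + b*X with hA
  obtain ⟨hb1, hb2⟩ := abs_le.1 hb
  have hA1 : 59999 ≤ A := by rw [hA]; nlinarith
  have hδ1 : |δ| ≤ 18/u*(Y-X)/100000 := by
    rw [hδ, abs_div, abs_of_pos (by norm_num : (0:ℝ) < 100000)]
    exact div_le_div_of_nonneg_right hmv (by norm_num)
  have hq : 18/u*(Y-X) ≤ 18/10 := by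
    rw [div_mul_eq_mul_div, div_le_iff₀ hu]; linarith
  have hδ2 : |δ| ≤ 1 := by
    refine hδ1.trans ?_
    linarith
  have hed : |Real.exp δ - 1| ≤ 2 * |δ| := Real.abs_exp_sub_one_le hδ2
  have hgX : |g X| ≤ 18/u := hg X (left_mem_Icc.2 hXY)
  have hgY : |g Y| ≤ 18/u := hg Y (right_mem_Icc.2 hXY)
  have hB : |b + A * (g X/100000)| ≤ 1 + A * (18/u/100000) := by
    have h1 := abs_add_le b (A * (g X/100000))
    rw [abs_mul, abs_of_pos (by linarith : 0 < A), abs_div, abs_of_pos (by norm_num : (0:ℝ) < 100000)] at h1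
    have h2 : A * (|g X|/100000) ≤ A * (18/u/100000) := by
      apply mul_le_mul_of_nonneg_left _ (by linarith)
      exact div_le_div_of_nonneg_right hgX (by norm_num)
    linarith
  have h1 : -(2 * (18/u*(Y-X)/100000) * (1 + A * (18/u/100000))) ≤
      (Real.exp δ - 1) * (b + A * (g X/100000)) := by
    have h2 : |(Real.exp δ - 1) * (b + A * (g X/100000))| ≤
        2 * (18/u*(Y-X)/100000) * (1 + A * (18/u/100000)) := by
      rw [abs_mul]
      apply mul_le_mul _ hB (abs_nonneg _)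
      · have : 0 ≤ Y - X := by linarith
        positivity
      · linarith
    linarith [neg_abs_le ((Real.exp δ - 1) * (b + A * (g X/100000)))]
  have h3 : A * ((Y - X)/(110*u^2)) - (Y - X) * (18/u) ≤ A * g X - (a+b*Y) * g Y := by
    have e : A * g X - (a+b*Y) * g Y = A * (g X - g Y) - (Y-X) * (b * g Y) := by rw [hA]; ring
    rw [e]
    have h4 : b * g Y ≤ 18/u := by
      have : |b * g Y| ≤ 1 * (18/u) := by
        rw [abs_mul]; exact mul_le_mul hb hgY (abs_nonneg _) (by norm_num)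
      linarith [le_abs_self (b * g Y)]
    have h5 := mul_le_mul_of_nonneg_left hi (by linarith : 0 ≤ A)
    have h6 := mul_le_mul_of_nonneg_left h4 (by linarith : 0 ≤ Y - X)
    linarith
  have h7 : 0 ≤ -(2 * (18/u*(Y-X)/100000) * (1 + A * (18/u/100000))) +
      (A * ((Y - X)/(110*u^2)) - (Y - X) * (18/u))/100000 := by
    have e : -(2 * (18/u*(Y-X)/100000) * (1 + A * (18/u/100000))) +
      (A * ((Y - X)/(110*u^2)) - (Y - X) * (18/u))/100000 =
      (Y-X)/(u^2*100000) * (A * (1/110 - 648/100000) - 54 * u) := by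
      field_simp
      ring
    rw [e]
    apply mul_nonneg
    · have : 0 ≤ Y - X := by linarith
      positivity
    · nlinarith
  have h8 : b * Real.exp (f X/100000) + (a+b*X) * (Real.exp (f X/100000) * (g X/100000)) -
      (b * Real.exp (f Y/100000) + (a+b*Y) * (Real.exp (f Y/100000) * (g Y/100000))) =
      Real.exp (f Y/100000) * ((Real.exp δ - 1) * (b + A * (g X/100000)) + (A * g X - (a+b*Y) * g Y)/100000) := by
    rw [hexp, hA]; ring
  have h9 : 0 ≤ Real.exp (f Y/100000) * ((Real.exp δ - 1) * (b + A * (g X/100000)) + (A * g X - (a+b*Y) * g Y)/100000) := by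
    apply mul_nonneg (Real.exp_pos _).le
    have := div_le_div_of_nonneg_right h3 (by norm_num : (0:ℝ) ≤ 100000)
    linarith
  linarith

lemma conc_exp_chainL {P : ℝ → ℝ} {B : ℝ} (h : ∀ X Y, 0 < X → X ≤ Y → Y ≤ B → Y ≤ 11/10*X → P Y ≤ P X) :
    ∀ X Y, 0 < X → X ≤ Y → Y ≤ B → P Y ≤ P X := by
  have key : ∀ n : ℕ, ∀ X Y, 0 < X → X ≤ Y → Y ≤ B → Y ≤ (11/10:ℝ)^n*X → P Y ≤ P X := by
    intro n
    induction n with
    | zero =>
      intro X Y hX hXY hY hn
      rw [pow_zero, one_mul] at hn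
      rw [le_antisymm hn hXY]
    | succ n ih =>
      intro X Y hX hXY hY hn
      have hZ1 : X ≤ max X (Y/(11/10)) := le_max_left _ _
      have hZ2 : max X (Y/(11/10)) ≤ Y := by
        apply max_le hXY
        rw [div_le_iff₀ (by norm_num)]; linarith
      have hZ3 : Y ≤ 11/10 * max X (Y/(11/10)) := by
        have := le_max_right X (Y/(11/10))
        rw [div_le_iff₀ (by norm_num)] at this
        linarith
      have hZ4 : max X (Y/(11/10)) ≤ (11/10:ℝ)^n*X := by
        apply max_le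
        · have : (1:ℝ) ≤ (11/10:ℝ)^n := one_le_pow₀ (by norm_num)
          nlinarith
        · rw [div_le_iff₀ (by norm_num)]
          rw [pow_succ] at hn
          linarith
      have hZ0 : 0 < max X (Y/(11/10)) := lt_of_lt_of_le hX hZ1
      exact (h _ Y hZ0 hZ2 hY hZ3).trans (ih X _ hX hZ1 (hZ2.trans hY) hZ4)
  intro X Y hX hXY hY
  obtain ⟨n, hn⟩ := pow_unbounded_of_one_lt (Y/X) (by norm_num : (1:ℝ) < 11/10)
  rw [div_lt_iff₀ hX] at hn
  exact key n X Y hX hXY hY hn.le

theorem conc_exp {f g : ℝ → ℝ} {a b : ℝ} (hf : ∀ X ∈ Ioo (0:ℝ) 1, HasDerivAt f (g X) X)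
    (hg : ContinuousOn g (Ioo 0 1))
    (hL : ∀ X, 0 < X → X ≤ 3/4 → |g X| ≤ 18/X)
    (hR : ∀ X, 3/4 ≤ X → X < 1 → |g X| ≤ 18/(1-X))
    (iL : ∀ X Y, 0 < X → X ≤ Y → Y ≤ 3/4 → (1/100)*(1/X - 1/Y) ≤ g X - g Y)
    (iR : ∀ X Y, 3/4 ≤ X → X ≤ Y → Y < 1 → (1/100)*(1/(1-Y) - 1/(1-X)) ≤ g X - g Y)
    (hb : |b| ≤ 1) (ha : 60000 ≤ a) :
    ConcaveOn ℝ (Ioo 0 1) (fun X => (a+b*X)*Real.exp (f X/100000)) := by
  set P : ℝ → ℝ := fun X => b * Real.exp (f X/100000) + (a+b*X) * (Real.exp (f X/100000) * (g X/100000)) with hP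
  have hder : ∀ X ∈ Ioo (0:ℝ) 1, HasDerivAt (fun X => (a+b*X)*Real.exp (f X/100000)) (P X) X := by
    intro X hX
    have h1 : HasDerivAt (fun X : ℝ => a+b*X) b X := by
      have := ((hasDerivAt_id X).const_mul b).const_add a
      simpa using this
    have h2 : HasDerivAt (fun X => Real.exp (f X/100000)) (Real.exp (f X/100000) * (g X/100000)) X :=
      ((hf X hX).div_const 100000).exp
    exact h1.mul h2
  have antiL : ∀ X Y, 0 < X → X ≤ Y → Y ≤ 3/4 → P Y ≤ P X := by
    apply conc_exp_chainL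
    intro X Y hX hXY hY h11
    apply conc_exp_core (u := X) hX hXY (by linarith) (fun Z hZ => hf Z ⟨lt_of_lt_of_le hX hZ.1, by linarith [hZ.2]⟩) hX
      (hXY.trans hY) (by linarith) _ _ hb ha
    · intro Z hZ
      refine (hL Z (lt_of_lt_of_le hX hZ.1) (hZ.2.trans hY)).trans ?_
      exact div_le_div_of_nonneg_left (by norm_num) hX hZ.1
    · refine le_trans ?_ (iL X Y hX hXY hY)
      have hY0 : 0 < Y := lt_of_lt_of_le hX hXY
      have e : (1/100:ℝ)*(1/X - 1/Y) = (Y-X)/(100*(X*Y)) := by field_simp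
      rw [e]
      apply div_le_div_of_nonneg_left (by linarith) (by positivity)
      nlinarith
  have antiR : ∀ X Y, 3/4 ≤ X → X ≤ Y → Y < 1 → P Y ≤ P X := by
    have h1 := conc_exp_chainL (P := fun u => - P (1-u)) (B := 1/4) (by
      intro u v hu huv hv h11
      show - P (1-v) ≤ - P (1-u)
      apply neg_le_neg
      apply conc_exp_core (u := u) (X := 1-v) (Y := 1-u) (by linarith) (by linarith) (by linarith)
        (fun Z hZ => hf Z ⟨by linarith [hZ.1], by linarith [hZ.2]⟩) hu (by linarith) (by linarith) _ _ hb ha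
      · intro Z hZ
        refine (hR Z (by linarith [hZ.1]) (by linarith [hZ.2])).trans ?_
        exact div_le_div_of_nonneg_left (by norm_num) hu (by linarith [hZ.2])
      · refine le_trans ?_ (iR (1-v) (1-u) (by linarith) (by linarith) (by linarith))
        have hv0 : 0 < v := lt_of_lt_of_le hu huv
        have e : (1/100:ℝ)*(1/(1-(1-u)) - 1/(1-(1-v))) = ((1-u)-(1-v))/(100*(u*v)) := by
          have e1 : (1:ℝ) - (1-u) = u := by ring
          have e2 : (1:ℝ) - (1-v) = v := by ring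
          rw [e1, e2]
          field_simp
          ring
        rw [e]
        apply div_le_div_of_nonneg_left (by linarith) (by positivity)
        nlinarith)
    intro X Y hX hXY hY
    have h2 := h1 (1-Y) (1-X) (by linarith) (by linarith) (by linarith)
    simp only [sub_sub_cancel] at h2
    linarith
  have hanti : AntitoneOn P (Ioo 0 1) := by
    intro X hX Y hY hXY
    rcases le_total Y (3/4) with h | h
    · exact antiL X Y hX.1 hXY h
    · rcases le_total X (3/4) with h' | h'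
      · exact (antiR (3/4) Y le_rfl h hY.2).trans (antiL X (3/4) hX.1 h' le_rfl)
      · exact antiR X Y h' hXY hY.2
  apply AntitoneOn.concaveOn_of_deriv (convex_Ioo 0 1)
  · intro X hX
    exact (hder X hX).continuousAt.continuousWithinAt
  · rw [interior_Ioo]
    intro X hX
    exact (hder X hX).differentiableAt.differentiableWithinAt
  · rw [interior_Ioo]
    intro X hX Y hY hXY
    rw [(hder X hX).deriv, (hder Y hY).deriv]
    exact hanti hX hY hXY

end Pool.Agent.Helper216.XRay
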