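import Pool.Agent.Helper216.XRay.Defs
import Pool.Agent.Helper216.XRay.P_hh_der
import Pool.Agent.Helper216.XRay.P_gg_cont
import Pool.Agent.Helper216.XRay.P_gg_incL
import Pool.Agent.Helper216.XRay.P_gg_incR
import Pool.Agent.Helper216.XRay.P_gg_boundL
import Pool.Agent.Helper216.XRay.P_gg_boundR
import Pool.Agent.Helper216.XRay.P_conc_exp

open Set Filter Topology MeasureTheory

namespace Pool.Agent.Helper216.XRay



theorem cls_conc_h {N N' w v : ℝ → ℝ} {a b : ℝ} (hN : NiceN N N') (hC : Cls w v)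
    (hb : |b| ≤ 1) (ha : 60000 ≤ a) :
    ConcaveOn ℝ (Ioo 0 1) (fun X => (a+b*X)*Real.exp (hh w N X/100000)) := by
  refine conc_exp (f := hh w N) (g := gg v N') (fun X hX => hh_der hN hC hX) (gg_cont hN hC)
    ?_ ?_ ?_ ?_ hb ha
  · intro X h0 h1
    obtain ⟨h2, h3⟩ := gg_boundL hN hC h0 h1
    have e : (313-(400/3)*X)/(30*X) = (313/30)/X - 40/9 := by
      field_simp
      ring
    rw [e] at h2
    have h4 : (71/10) ≤ 18 / X := by
      rw [le_div_iff₀ h0]; nlinarith
    have h5 : (313/30)/X ≤ 18 / X := by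
      apply div_le_div_of_nonneg_right _ h0.le
      norm_num
    rw [abs_le]
    constructor <;> linarith
  · intro X h0 h1
    obtain ⟨h2, h3⟩ := gg_boundR hN hC h0 h1
    have hp : 0 < 1 - X := by linarith
    have e : (313-400*(1-X))/(30*(1-X)) = (313/30)/(1-X) - 40/3 := by
      field_simp
      ring
    rw [e] at h2
    have h4 : 0 ≤ 18 / (1 - X) := by positivity
    have h5 : (313/30)/(1-X) ≤ 18 / (1-X) := by
      apply div_le_div_of_nonneg_right _ hp.le
      norm_num
    rw [abs_le]
    constructor <;> linarith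
  · intro X Y h0 h1 h2
    have := gg_incL hN hC h0 h1 h2
    linarith
  · intro X Y h0 h1 h2
    have := gg_incR hN hC h0 h1 h2
    linarith

end Pool.Agent.Helper216.XRay
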