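import Pool.Agent.Helper216.XRay.Defs
import Pool.Agent.Helper216.XRay.P_uu_der
import Pool.Agent.Helper216.XRay.P_uu_cont
import Pool.Agent.Helper216.XRay.P_uu_incL
import Pool.Agent.Helper216.XRay.P_uu_incR
import Pool.Agent.Helper216.XRay.P_uu_boundL
import Pool.Agent.Helper216.XRay.P_uu_boundR
import Pool.Agent.Helper216.XRay.P_conc_exp

open Set Filter Topology MeasureTheory

namespace Pool.Agent.Helper216.XRay



theorem cls_conc_u {w v : ℝ → ℝ} {a b : ℝ} (hC : Cls w v)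
    (hb : |b| ≤ 1) (ha : 60000 ≤ a) :
    ConcaveOn ℝ (Ioo 0 1) (fun X => (a+b*X)*Real.exp (w (sJ X)/100000)) := by
  refine conc_exp (f := fun X => w (sJ X)) (g := gg v (fun _ => 0)) (fun X hX => uu_der hC hX)
    (uu_cont hC) ?_ ?_ (fun X Y h1 h2 h3 => uu_incL hC h1 h2 h3)
    (fun X Y h1 h2 h3 => uu_incR hC h1 h2 h3) hb ha
  · intro X h0 h1
    obtain ⟨k1, k2⟩ := uu_boundL hC h0 h1
    rw [abs_of_nonneg k1]
    refine k2.trans ?_
    rw [div_le_div_iff₀ (by positivity) h0]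
    nlinarith
  · intro X h0 h1
    obtain ⟨k1, k2⟩ := uu_boundR hC h0 h1
    rw [abs_of_nonpos k1]
    refine k2.trans ?_
    have h2 : 0 < 1 - X := by linarith
    rw [div_le_div_iff₀ (by positivity) h2]
    nlinarith

end Pool.Agent.Helper216.XRay
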