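import Pool.Agent.Helper216.XRay.Defs
import Pool.Agent.Helper216.XRay.P_cls_bounds

open Set Filter Topology MeasureTheory

namespace Pool.Agent.Helper216.XRay



theorem coercive {N : ℝ → ℝ} {M : ℝ} (hM : ∀ X ∈ Icc (0:ℝ) 1, |N X| ≤ M) {s : ℝ}
    (hs : s ∈ Ico (0:ℝ) 1) : ∃ δ > 0, ∀ w v w1 : ℝ → ℝ, Cls w v → w 0 = 0 → IsT N w w1 →
      ∀ x ∈ Ioo 0 (1-s), hh w N x = w1 s → hh w N (x+s) = w1 s → δ ≤ x ∧ x + s ≤ 1 - δ := by
  obtain ⟨hs0, hs1⟩ := hs
  set L : ℝ := (313/30)*Real.log (1-s) - M with hL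
  refine ⟨min ((1/4) * Real.exp (100*(L-M)-1)) (1/4), lt_min (by positivity) (by norm_num), ?_⟩
  intro w v w1 hC hw0 hT x hx hx1 hx2
  have hup : ∀ t ∈ Ico (0:ℝ) 1, w t ≤ (1/100)*(Real.log (1-t) + 1) := by
    intro t ht
    have h1 := (cls_bounds hC 0 ⟨le_rfl, one_pos⟩ t ht ht.1).1
    rw [hw0, sub_zero, Real.log_one] at h1
    have h2 := ht.2
    linarith
  have hlow : L ≤ w1 s := by
    have h1 := (cls_bounds hC 0 ⟨le_rfl, one_pos⟩ s ⟨hs0, hs1⟩ hs0).2
    rw [hw0, sub_zero, Real.log_one] at h1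
    have hX0 : (3/4*(1-s)) ∈ Ioo 0 (1-s) := ⟨by linarith, by linarith⟩
    have h2 := (hT s ⟨hs0, hs1⟩).2 _ hX0
    have h3 : sJ (3/4*(1-s)) = s := by
      unfold sJ
      rw [if_pos (by linarith)]
      ring
    have h4 : sJ (3/4*(1-s) + s) = s := by
      unfold sJ
      rcases eq_or_lt_of_le hs0 with h | h
      · rw [← h]
        norm_num
      · rw [if_neg (by linarith)]
        ring
    have h5 : hh w N (3/4*(1-s)) ≥ L := by
      unfold hh
      rw [h3]
      have h6 := (abs_le.mp (hM (3/4*(1-s)) ⟨by linarith, by linarith⟩)).2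
      linarith
    have h7 : hh w N (3/4*(1-s) + s) ≥ L := by
      unfold hh
      rw [h4]
      have h6 := (abs_le.mp (hM (3/4*(1-s) + s) ⟨by linarith, by linarith⟩)).2
      linarith
    exact le_trans (le_min h5 h7) h2
  have hd1 := min_le_left ((1/4) * Real.exp (100*(L-M)-1)) (1/4 : ℝ)
  have hd2 := min_le_right ((1/4) * Real.exp (100*(L-M)-1)) (1/4 : ℝ)
  obtain ⟨hx3, hx4⟩ := hx
  have hexp := Real.exp_pos (100*(L-M)-1)
  constructor
  · rcases le_or_gt x (3/4) with h | h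
    · have h1 : sJ x = 1 - 4/3*x := by
        unfold sJ
        rw [if_pos h]
      have h2 := hup (sJ x) (by rw [h1]; exact ⟨by linarith, by linarith⟩)
      have h3 : 1 - sJ x = 4/3*x := by rw [h1]; ring
      rw [h3] at h2
      have h4 := (abs_le.mp (hM x ⟨by linarith, by linarith⟩)).1
      unfold hh at hx1
      have h5 : 100*(L-M)-1 ≤ Real.log (4/3*x) := by linarith
      have h6 : Real.exp (100*(L-M)-1) ≤ 4/3*x := (Real.le_log_iff_exp_le (by linarith)).mp h5
      linarith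
    · linarith
  · rcases le_or_gt (x+s) (3/4) with h | h
    · linarith
    · have h1 : sJ (x+s) = 4*(x+s) - 3 := by
        unfold sJ
        rw [if_neg (by linarith)]
      have h2 := hup (sJ (x+s)) (by rw [h1]; exact ⟨by linarith, by linarith⟩)
      have h3 : 1 - sJ (x+s) = 4*(1-(x+s)) := by rw [h1]; ring
      rw [h3] at h2
      have h4 := (abs_le.mp (hM (x+s) ⟨by linarith, by linarith⟩)).1
      unfold hh at hx2
      have h5 : 100*(L-M)-1 ≤ Real.log (4*(1-(x+s))) := by linarith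
      have h6 : Real.exp (100*(L-M)-1) ≤ 4*(1-(x+s)) := (Real.le_log_iff_exp_le (by linarith)).mp h5
      linarith

end Pool.Agent.Helper216.XRay
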