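import Pool.Agent.Helper216.XRay.Defs
import Pool.Agent.Helper216.XRay.P_cls_bounds

open Set Filter Topology MeasureTheory

namespace Pool.Agent.Helper216.XRay



theorem lim_bounds {w : ℝ → ℝ} (hL : LimCls w) : w 0 = 0 ∧
    ∀ s ∈ Ico (0:ℝ) 1, ∀ t ∈ Ico (0:ℝ) 1, s ≤ t →
    (1/100)*((Real.log (1-s) + s) - (Real.log (1-t) + t)) ≤ w s - w t ∧
    w s - w t ≤ (313/30)*(Real.log (1-s) - Real.log (1-t)) := by
  obtain ⟨F, W, V, hF, hC, h0, hlim⟩ := hL
  haveI := hF
  constructor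
  · have h1 := hlim 0 ⟨le_rfl, one_pos⟩
    have h2 : (fun n => W n 0) = fun _ => (0 : ℝ) := funext h0
    rw [h2] at h1
    exact (tendsto_nhds_unique h1 tendsto_const_nhds)
  · intro s hs t ht hst
    have h1 : Tendsto (fun n => W n s - W n t) F (𝓝 (w s - w t)) := (hlim s hs).sub (hlim t ht)
    exact ⟨ge_of_tendsto' h1 fun n => (cls_bounds (hC n) s hs t ht hst).1,
      le_of_tendsto' h1 fun n => (cls_bounds (hC n) s hs t ht hst).2⟩

end Pool.Agent.Helper216.XRay
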