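import Pool.Agent.Helper216.XRay.Defs
import Pool.Agent.Helper216.XRay.P_lim_bounds

open Set Filter Topology MeasureTheory

namespace Pool.Agent.Helper216.XRay



theorem lim_anti_log {s t : ℝ} (hs : 0 ≤ s) (hst : s < t) (ht : t < 1) :
    Real.log (1-t) + t < Real.log (1-s) + s := by
  have h1 : 0 < 1 - s := by linarith
  have h2 : 0 < 1 - t := by linarith
  have h3 : Real.log ((1-t)/(1-s)) < (1-t)/(1-s) - 1 := by
    apply Real.log_lt_sub_one_of_pos (div_pos h2 h1)
    intro h4
    rw [div_eq_one_iff_eq h1.ne'] at h4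
    linarith
  rw [Real.log_div h2.ne' h1.ne'] at h3
  have h5 : (1-t)/(1-s) - 1 = (s-t)/(1-s) := by
    field_simp
    ring
  have h6 : (s-t)/(1-s) ≤ s - t := by
    rw [div_le_iff₀ h1]
    nlinarith
  linarith

theorem lim_anti {w : ℝ → ℝ} (hL : LimCls w) :
    StrictAntiOn w (Ico 0 1) ∧ ContinuousOn w (Ico 0 1) ∧ Tendsto w (𝓝[<] 1) atBot := by
  obtain ⟨h0, hb⟩ := lim_bounds hL
  have hanti : StrictAntiOn w (Ico 0 1) := by
    intro s hs t ht hst
    have h1 := (hb s hs t ht hst.le).1
    have h2 := lim_anti_log hs.1 hst ht.2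
    linarith
  refine ⟨hanti, ?_, ?_⟩
  · intro s hs
    have hbd : ∀ x ∈ Ico (0:ℝ) 1,
        ‖w x - w s‖ ≤ (313/30)*|Real.log (1-x) - Real.log (1-s)| := by
      intro x hx
      rw [Real.norm_eq_abs]
      rcases le_total x s with h | h
      · have h1 : 0 ≤ w x - w s := sub_nonneg.2 (hanti.antitoneOn hx hs h)
        rw [abs_of_nonneg h1]
        refine (hb x hx s hs h).2.trans ?_
        exact mul_le_mul_of_nonneg_left (le_abs_self _) (by norm_num)
      · have h1 : 0 ≤ w s - w x := sub_nonneg.2 (hanti.antitoneOn hs hx h)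
        rw [abs_sub_comm, abs_of_nonneg h1, abs_sub_comm]
        refine (hb s hs x hx h).2.trans ?_
        exact mul_le_mul_of_nonneg_left (le_abs_self _) (by norm_num)
    rw [ContinuousWithinAt, tendsto_iff_norm_sub_tendsto_zero]
    have hc : ContinuousWithinAt
        (fun x : ℝ => (313/30)*|Real.log (1-x) - Real.log (1-s)|) (Ico 0 1) s := by
      have h1 : ContinuousAt (fun x : ℝ => Real.log (1-x)) s :=
        (continuousAt_const.sub continuousAt_id).log (by
          have := hs.2
          have h9 : 0 < 1 - s := by linarith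
          exact h9.ne')
      exact (continuousAt_const.mul ((h1.sub continuousAt_const).abs)).continuousWithinAt
    have hc' : Tendsto (fun x : ℝ => (313/30)*|Real.log (1-x) - Real.log (1-s)|)
        (𝓝[Ico 0 1] s) (𝓝 0) := by
      have := hc.tendsto
      simpa using this
    refine squeeze_zero' (Eventually.of_forall fun x => norm_nonneg _) ?_ hc'
    filter_upwards [self_mem_nhdsWithin] with x hx
    exact hbd x hx
  · have hlog : Tendsto (fun s : ℝ => Real.log (1-s)) (𝓝[<] 1) atBot := by
      refine Real.tendsto_log_nhdsGT_zero.comp ?_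
      rw [tendsto_nhdsWithin_iff]
      constructor
      · have : Tendsto (fun s : ℝ => 1 - s) (𝓝 1) (𝓝 (1 - 1)) :=
          (continuous_const.sub continuous_id).tendsto 1
        rw [sub_self] at this
        exact this.mono_left nhdsWithin_le_nhds
      · filter_upwards [self_mem_nhdsWithin] with s hs
        have hs' : s < 1 := hs
        exact mem_Ioi.2 (sub_pos.2 hs')
    have h1 : Tendsto (fun s : ℝ => (1/100)*(Real.log (1-s) + 1)) (𝓝[<] 1) atBot := by
      have h2 : Tendsto (fun s : ℝ => Real.log (1-s) + 1) (𝓝[<] 1) atBot :=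
        tendsto_atBot_add_const_right _ 1 hlog
      exact h2.const_mul_atBot (by norm_num)
    refine tendsto_atBot_mono' _ ?_ h1
    filter_upwards [Ico_mem_nhdsLT (show (0:ℝ) < 1 by norm_num)] with s hs
    have h3 := (hb 0 ⟨le_rfl, by norm_num⟩ s hs hs.1).1
    rw [h0, sub_zero, Real.log_one] at h3
    have h4 := hs.2
    linarith

end Pool.Agent.Helper216.XRay
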