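import Pool.Agent.Helper216.XRay.Defs

open Set Filter Topology MeasureTheory

namespace Pool.Agent.Helper216.XRay



theorem sJ_cont : Continuous sJ := by
  unfold sJ
  refine Continuous.if_le (by fun_prop) (by fun_prop) continuous_id continuous_const ?_
  intro x hx
  have hx' : x = 3 / 4 := hx
  rw [hx']
  norm_num

end Pool.Agent.Helper216.XRay
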