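import Pool.Agent.Helper216.XRay.Defs
import Pool.Agent.Helper216.XRay.P_sJ_mem
import Pool.Agent.Helper216.XRay.P_sJ_cont
import Pool.Agent.Helper216.XRay.P_lim_bounds
import Pool.Agent.Helper216.XRay.P_lim_anti

open Set Filter Topology MeasureTheory

namespace Pool.Agent.Helper216.XRay



theorem int_u {w : ℝ → ℝ} (hL : LimCls w) : IntegrableOn (fun X => w (sJ X)) (Ioo 0 1) := by
  have hlog : IntervalIntegrable Real.log volume 0 1 := intervalIntegral.intervalIntegrable_log'
  have hlog2 : IntervalIntegrable (fun X => Real.log (1 - X)) volume 0 1 := by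
    have := (intervalIntegral.intervalIntegrable_log' (a := 1) (b := 0)).comp_sub_left 1
    simpa using this
  have hG : IntegrableOn (fun X => (313/30 : ℝ) * (-Real.log X - Real.log (1 - X))) (Ioo 0 1) :=
    (intervalIntegrable_iff_integrableOn_Ioo_of_le zero_le_one).mp
      ((hlog.neg.sub hlog2).const_mul (313/30))
  refine Integrable.mono' hG ?_ ?_
  · refine ContinuousOn.aestronglyMeasurable ?_ measurableSet_Ioo
    exact (lim_anti hL).2.1.comp sJ_cont.continuousOn (fun X hX => sJ_mem hX)
  · refine (ae_restrict_iff' measurableSet_Ioo).mpr (Filter.Eventually.of_forall fun X hX => ?_)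
    have ht := sJ_mem hX
    obtain ⟨h0, hb⟩ := lim_bounds hL
    obtain ⟨h1, h2⟩ := hb 0 ⟨le_rfl, zero_lt_one⟩ (sJ X) ht ht.1
    rw [h0, sub_zero, Real.log_one, zero_add, zero_sub, zero_sub] at h1
    rw [h0, sub_zero, Real.log_one, zero_sub, zero_sub] at h2
    have h3 : Real.log (1 - sJ X) ≤ (1 - sJ X) - 1 :=
      Real.log_le_sub_one_of_pos (by linarith [ht.2])
    have h4 : w (sJ X) ≤ 0 := by nlinarith
    have hl1 : Real.log X ≤ 0 := Real.log_nonpos hX.1.le hX.2.le
    have hl2 : Real.log (1 - X) ≤ 0 := Real.log_nonpos (by linarith [hX.2]) (by linarith [hX.1])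
    have h5 : Real.log X + Real.log (1 - X) ≤ Real.log (1 - sJ X) := by
      unfold sJ
      split_ifs with hX34
      · have e1 : 1 - (1 - 4/3 * X) = 4/3 * X := by ring
        rw [e1, Real.log_mul (by norm_num) hX.1.ne']
        have : 0 ≤ Real.log (4/3) := Real.log_nonneg (by norm_num)
        linarith
      · have e1 : 1 - (4 * X - 3) = 4 * (1 - X) := by ring
        rw [e1, Real.log_mul (by norm_num) (by linarith [hX.2])]
        have : 0 ≤ Real.log 4 := Real.log_nonneg (by norm_num)
        linarith
    rw [Real.norm_eq_abs, abs_of_nonpos h4]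
    nlinarith

end Pool.Agent.Helper216.XRay
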