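import Pool.Agent.Helper216.XRay.Defs
import Pool.Agent.Helper216.XRay.P_sJ_mem
import Pool.Agent.Helper216.XRay.P_sJ_cont
import Pool.Agent.Helper216.XRay.P_cls_bounds

open Set Filter Topology MeasureTheory

namespace Pool.Agent.Helper216.XRay



theorem joint_conv_aux {w v : ℝ → ℝ} (hC : Cls w v) : ∀ s ∈ Ico (0:ℝ) 1, ∀ t ∈ Ico (0:ℝ) 1,
    |w s - w t| ≤ (313/30) * |Real.log (1-s) - Real.log (1-t)| := by
  have key : ∀ s ∈ Ico (0:ℝ) 1, ∀ t ∈ Ico (0:ℝ) 1, s ≤ t →
      |w s - w t| ≤ (313/30) * |Real.log (1-s) - Real.log (1-t)| := by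
    intro s hs t ht hst
    obtain ⟨h1, h2⟩ := cls_bounds hC s hs t ht hst
    have hs1 : 0 < 1 - s := by linarith [hs.2]
    have ht1 : 0 < 1 - t := by linarith [ht.2]
    have h3 : t - s ≤ Real.log (1 - s) - Real.log (1 - t) := by
      rw [← Real.log_div hs1.ne' ht1.ne']
      have h4 := Real.one_sub_inv_le_log_of_pos (div_pos hs1 ht1)
      refine le_trans ?_ h4
      rw [inv_div, le_sub_iff_add_le, ← le_sub_iff_add_le', div_le_iff₀ hs1]
      nlinarith [hs.1, ht.1]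
    have h5 : 0 ≤ w s - w t := by
      refine le_trans ?_ h1
      apply mul_nonneg (by norm_num)
      linarith
    have h6 : 0 ≤ Real.log (1 - s) - Real.log (1 - t) := by linarith
    rw [abs_of_nonneg h5, abs_of_nonneg h6]
    exact h2
  intro s hs t ht
  rcases le_total s t with h | h
  · exact key s hs t ht h
  · have := key t ht s hs h
    rwa [abs_sub_comm, abs_sub_comm (Real.log (1 - t))] at this

theorem joint_conv {N N' w : ℝ → ℝ} (hN : NiceN N N') {F : Filter ℕ} {W V : ℕ → ℝ → ℝ}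
    (hW : ∀ n, Cls (W n) (V n)) (hl : ∀ s ∈ Ico (0:ℝ) 1, Tendsto (fun n => W n s) F (𝓝 (w s)))
    {xs : ℕ → ℝ} {x : ℝ} (hx : x ∈ Ioo (0:ℝ) 1) (hxs : ∀ n, xs n ∈ Ioo (0:ℝ) 1)
    (hxl : Tendsto xs F (𝓝 x)) : Tendsto (fun n => hh (W n) N (xs n)) F (𝓝 (hh w N x)) := by
  have ht := sJ_mem hx
  have hN1 : Tendsto (fun n => N (xs n)) F (𝓝 (N x)) :=
    (hN.der x ⟨hx.1.le, hx.2.le⟩).continuousAt.tendsto.comp hxl
  have hsl : Tendsto (fun n => sJ (xs n)) F (𝓝 (sJ x)) := (sJ_cont.tendsto x).comp hxl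
  have hlog : Tendsto (fun n => Real.log (1 - sJ (xs n))) F (𝓝 (Real.log (1 - sJ x))) := by
    apply Tendsto.log
    · exact tendsto_const_nhds.sub hsl
    · have := ht.2
      exact (by linarith : (0 : ℝ) < 1 - sJ x).ne'
  have hb : Tendsto (fun n => (313/30) * |Real.log (1 - sJ (xs n)) - Real.log (1 - sJ x)|) F
      (𝓝 0) := by
    have h1 := ((hlog.sub_const (Real.log (1 - sJ x))).abs).const_mul (313/30 : ℝ)
    simpa using h1
  have hd : Tendsto (fun n => W n (sJ (xs n)) - W n (sJ x)) F (𝓝 0) := by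
    apply squeeze_zero_norm _ hb
    intro n
    rw [Real.norm_eq_abs]
    exact joint_conv_aux (hW n) _ (sJ_mem (hxs n)) _ ht
  have hw := hl (sJ x) ht
  have h2 := (hd.add hw).sub hN1
  have e1 : (fun n => W n (sJ (xs n)) - W n (sJ x) + W n (sJ x) - N (xs n)) =
      fun n => hh (W n) N (xs n) := by
    funext n
    unfold hh
    ring
  rw [e1, zero_add] at h2
  exact h2

end Pool.Agent.Helper216.XRay
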