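import Pool.Agent.Helper216.XRay.Defs

open Set Filter Topology MeasureTheory

namespace Pool.Agent.Helper216.XRay



theorem level_h {h : ℝ → ℝ} (hc : StrictConcaveOn ℝ (Ioo 0 1) h) {s x τ : ℝ}
    (hs : s ∈ Ioo (0:ℝ) 1) (hx : x ∈ Ioo 0 (1-s)) (h1 : h x = τ) (h2 : h (x+s) = τ) :
    ∀ X ∈ Ioo (0:ℝ) 1, (τ ≤ h X ↔ X ∈ Icc x (x+s)) ∧ (τ < h X ↔ X ∈ Ioo x (x+s)) := by
  have hx1 : x ∈ Ioo (0:ℝ) 1 := ⟨hx.1, by linarith [hx.2, hs.1]⟩
  have hy1 : x + s ∈ Ioo (0:ℝ) 1 := ⟨by linarith [hx.1, hs.1], by linarith [hx.2]⟩
  have key : ∀ a ∈ Ioo (0:ℝ) 1, ∀ c ∈ Ioo (0:ℝ) 1, ∀ b, a < b → b < c → min (h a) (h c) < h b := by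
    intro a ha c hc' b hab hbc
    apply hc.lt_on_openSegment ha hc' (by linarith : a < c).ne
    rw [openSegment_eq_Ioo (by linarith)]
    exact ⟨hab, hbc⟩
  have hs0 := hs.1
  intro X hX
  rcases lt_trichotomy X x with hlt | heq | hgt
  · have h3 := key X hX (x + s) hy1 x hlt (by linarith)
    rw [h2, h1] at h3
    have h4 : h X < τ := by
      by_contra hcon
      push Not at hcon
      rw [min_eq_right hcon] at h3
      exact lt_irrefl _ h3
    constructor
    · constructor
      · intro h5; linarith
      · intro h5; linarith [h5.1]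
    · constructor
      · intro h5; linarith
      · intro h5; linarith [h5.1]
  · subst heq
    constructor
    · constructor
      · intro _; exact ⟨le_refl _, by linarith⟩
      · intro _; exact h1.ge
    · constructor
      · intro h5; linarith
      · intro h5; exact absurd h5.1 (lt_irrefl _)
  · rcases lt_trichotomy X (x + s) with hlt | heq | hgt2
    · have h3 := key x hx1 (x + s) hy1 X hgt hlt
      rw [h2, h1, min_self] at h3
      constructor
      · constructor
        · intro _; exact ⟨hgt.le, hlt.le⟩
        · intro _; exact h3.le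
      · constructor
        · intro _; exact ⟨hgt, hlt⟩
        · intro _; exact h3
    · subst heq
      constructor
      · constructor
        · intro _; exact ⟨hgt.le, le_refl _⟩
        · intro _; exact h2.ge
      · constructor
        · intro h5; linarith
        · intro h5; exact absurd h5.2 (lt_irrefl _)
    · have h3 := key x hx1 X hX (x + s) (by linarith) hgt2
      rw [h2, h1] at h3
      have h4 : h X < τ := by
        by_contra hcon
        push Not at hcon
        rw [min_eq_left hcon] at h3
        exact lt_irrefl _ h3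
      constructor
      · constructor
        · intro h5; linarith
        · intro h5; linarith [h5.2]
      · constructor
        · intro h5; linarith
        · intro h5; linarith [h5.2]

end Pool.Agent.Helper216.XRay
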