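import Pool.Agent.Helper216.XRay.Defs
import Pool.Agent.Helper216.XRay.P_sJ_mem

open Set Filter Topology MeasureTheory

namespace Pool.Agent.Helper216.XRay



theorem level_u {w : ℝ → ℝ} (hw : StrictAntiOn w (Ico 0 1)) {s X : ℝ} (hs : s ∈ Ico (0:ℝ) 1)
    (hX : X ∈ Ioo (0:ℝ) 1) :
    (w s ≤ w (sJ X) ↔ X ∈ Icc (3/4*(1-s)) (3/4+s/4)) ∧
    (w s < w (sJ X) ↔ X ∈ Ioo (3/4*(1-s)) (3/4+s/4)) := by
  have hm := sJ_mem hX
  have h1 : w s ≤ w (sJ X) ↔ sJ X ≤ s := by
    constructor
    · intro h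
      by_contra hc
      push Not at hc
      exact absurd (hw hs hm hc) (not_lt.2 h)
    · intro h
      rcases h.eq_or_lt with h | h
      · rw [h]
      · exact (hw hm hs h).le
  have h2 : w s < w (sJ X) ↔ sJ X < s := by
    constructor
    · intro h
      by_contra hc
      push Not at hc
      rcases hc.eq_or_lt with h' | h'
      · rw [h'] at h
        exact lt_irrefl _ h
      · exact absurd (hw hs hm h') (not_lt.2 h.le)
    · intro h
      exact hw hm hs h
  obtain ⟨hs0, hs1⟩ := hs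
  obtain ⟨hX0, hX1⟩ := hX
  rw [h1, h2, mem_Icc, mem_Ioo]
  unfold sJ
  split_ifs with hc
  · refine ⟨⟨fun h => ⟨by linarith, by linarith⟩, fun h => by linarith [h.1]⟩,
      ⟨fun h => ⟨by linarith, by linarith⟩, fun h => by linarith [h.1]⟩⟩
  · push Not at hc
    refine ⟨⟨fun h => ⟨by linarith, by linarith⟩, fun h => by linarith [h.2]⟩,
      ⟨fun h => ⟨by linarith, by linarith⟩, fun h => by linarith [h.2]⟩⟩

end Pool.Agent.Helper216.XRay
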