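import Pool.Agent.Helper216.XRay.Defs
import Pool.Agent.Helper216.XRay.P_sJ_mem
import Pool.Agent.Helper216.XRay.P_hh_der
import Pool.Agent.Helper216.XRay.P_gg_incAll

open Set Filter Topology MeasureTheory

namespace Pool.Agent.Helper216.XRay



theorem lim_strict_conc {N N' w v : ℝ → ℝ} (hN : NiceN N N') (hC : Cls w v) :
    ConcaveOn ℝ (Ioo 0 1) (fun X => hh w N X + 9/20 * X^2) := by
  have hd : ∀ X ∈ Ioo (0:ℝ) 1, HasDerivAt (fun X => hh w N X + 9/20 * X^2)
      (gg v N' X + 9/10 * X) X := by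
    intro X hX
    have h1 := hh_der hN hC hX
    have h2 : HasDerivAt (fun X : ℝ => 9/20 * X^2) (9/10 * X) X := by
      have h3 := (hasDerivAt_pow 2 X).const_mul (9/20 : ℝ)
      refine h3.congr_deriv ?_
      norm_num
      ring
    exact h1.add h2
  apply AntitoneOn.concaveOn_of_deriv (convex_Ioo 0 1)
  · exact fun X hX => (hd X hX).continuousAt.continuousWithinAt
  · rw [interior_Ioo]
    exact fun X hX => (hd X hX).differentiableAt.differentiableWithinAt
  · rw [interior_Ioo]
    intro X hX Y hY hXY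
    rw [(hd X hX).deriv, (hd Y hY).deriv]
    have := gg_incAll hN hC hX.1 hXY hY.2
    linarith

theorem lim_strict {N N' w : ℝ → ℝ} (hN : NiceN N N') (hL : LimCls w) :
    StrictConcaveOn ℝ (Ioo 0 1) (hh w N) := by
  obtain ⟨F, W, V, hF, hC, -, hlim⟩ := hL
  have hl : ∀ X ∈ Ioo (0:ℝ) 1, Tendsto (fun n => hh (W n) N X + 9/20 * X^2) F
      (𝓝 (hh w N X + 9/20 * X^2)) := by
    intro X hX
    apply Tendsto.add_const
    unfold hh
    exact (hlim _ (sJ_mem hX)).sub_const _
  refine ⟨convex_Ioo 0 1, ?_⟩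
  intro x hx y hy hxy a b ha hb hab
  have hz : a * x + b * y ∈ Ioo (0:ℝ) 1 := by
    have := (convex_Ioo (0:ℝ) 1) hx hy ha.le hb.le hab
    simpa using this
  have h1 : a * (hh w N x + 9/20 * x^2) + b * (hh w N y + 9/20 * y^2)
      ≤ hh w N (a * x + b * y) + 9/20 * (a * x + b * y)^2 := by
    refine le_of_tendsto_of_tendsto (((hl x hx).const_mul a).add ((hl y hy).const_mul b))
      (hl _ hz) ?_
    refine Eventually.of_forall fun n => ?_
    have := (lim_strict_conc hN (hC n)).2 hx hy ha.le hb.le hab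
    simpa using this
  have h2 : 0 < a * b * (x - y)^2 := by
    have : x - y ≠ 0 := sub_ne_zero.mpr hxy
    positivity
  have h3 : a * x^2 + b * y^2 - (a * x + b * y)^2 = a * b * (x - y)^2 := by
    have hb' : b = 1 - a := by linarith
    rw [hb']; ring
  simp only [smul_eq_mul]
  nlinarith

end Pool.Agent.Helper216.XRay
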