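import Pool.Agent.Helper216.XRay.Defs
import Pool.Agent.Helper216.XRay.P_lim_bounds
import Pool.Agent.Helper216.XRay.P_lim_anti
import Pool.Agent.Helper216.XRay.P_lim_strict
import Pool.Agent.Helper216.XRay.P_level_h

open Set Filter Topology MeasureTheory

namespace Pool.Agent.Helper216.XRay



theorem sup_h {N N' w : ℝ → ℝ} {c : ℝ} (hN : NiceN N N') (hL : LimCls w)
    (hfix : ∀ s ∈ Ioo (0:ℝ) 1, ∃ x ∈ Ioo 0 (1-s), hh w N x = w s + c ∧ hh w N (x+s) = w s + c) :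
    (∀ X ∈ Ioo (0:ℝ) 1, hh w N X ≤ c) ∧
    (∀ X ∈ Ioo (0:ℝ) 1, ∀ Y ∈ Ioo (0:ℝ) 1, hh w N X = c → hh w N Y = c → X = Y) := by
  have hw0 := (lim_bounds hL).1
  have hanti := (lim_anti hL).1
  have hconc := lim_strict hN hL
  have core : ∀ X ∈ Ioo (0:ℝ) 1, ∀ Y ∈ Ioo (0:ℝ) 1, c ≤ hh w N X → c ≤ hh w N Y → X = Y := by
    intro X hX Y hY hcX hcY
    have h1 : ∀ s ∈ Ioo (0:ℝ) 1, |X - Y| < s := by
      intro s hs
      obtain ⟨x, hx, hx1, hx2⟩ := hfix s hs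
      have hws : w s < 0 := by
        rw [← hw0]
        exact hanti ⟨le_rfl, by norm_num⟩ ⟨hs.1.le, hs.2⟩ hs.1
      have h2 := ((level_h hconc hs hx hx1 hx2 X hX).2).mp (by linarith)
      have h3 := ((level_h hconc hs hx hx1 hx2 Y hY).2).mp (by linarith)
      rw [abs_lt]
      constructor <;> linarith [h2.1, h2.2, h3.1, h3.2]
    by_contra hne
    have h4 : 0 < |X - Y| := abs_pos.mpr (sub_ne_zero.mpr hne)
    have h5 := h1 (min (|X - Y|) (1 / 2)) ⟨by positivity, by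
      exact (min_le_right _ _).trans_lt (by norm_num)⟩
    exact absurd h5 (not_lt.mpr (min_le_left _ _))
  refine ⟨?_, fun X hX Y hY h1 h2 => core X hX Y hY h1.ge h2.ge⟩
  intro X hX
  by_contra hcon
  push Not at hcon
  have hcont : ContinuousAt (hh w N) X :=
    (hconc.concaveOn.continuousOn isOpen_Ioo).continuousAt (isOpen_Ioo.mem_nhds hX)
  have h1 : ∀ᶠ Y in 𝓝 X, c < hh w N Y := hcont.eventually (lt_mem_nhds hcon)
  have h2 : ∀ᶠ Y in 𝓝 X, Y ∈ Ioo (0:ℝ) 1 := isOpen_Ioo.mem_nhds hX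
  have h3 : ∀ᶠ Y in 𝓝[≠] X, c < hh w N Y ∧ Y ∈ Ioo (0:ℝ) 1 :=
    (h1.and h2).filter_mono nhdsWithin_le_nhds
  obtain ⟨Y, ⟨hY1, hY2⟩, hY3⟩ := (h3.and self_mem_nhdsWithin).exists
  exact hY3 (core Y hY2 X hX hY1.le hcon.le)

end Pool.Agent.Helper216.XRay
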