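import Pool.Agent.Helper216.XRay.Defs
import Pool.Agent.Helper216.XRay.P_sJ_mem
import Pool.Agent.Helper216.XRay.P_lim_bounds
import Pool.Agent.Helper216.XRay.P_lim_anti
import Pool.Agent.Helper216.XRay.P_lim_strict
import Pool.Agent.Helper216.XRay.P_level_u
import Pool.Agent.Helper216.XRay.P_level_h
import Pool.Agent.Helper216.XRay.P_sup_h

open Set Filter Topology MeasureTheory

namespace Pool.Agent.Helper216.XRay



theorem levels_diam {N N' w : ℝ → ℝ} (hN : NiceN N N') (hL : LimCls w)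
    (hfix : ∀ s ∈ Ioo (0:ℝ) 1, ∃ x ∈ Ioo 0 (1-s), hh w N x = w s ∧ hh w N (x+s) = w s) (q : ℝ) :
    Metric.diam {X : ℝ | X ∈ Ioo (0:ℝ) 1 ∧ q ≤ w (sJ X)} =
      Metric.diam {X : ℝ | X ∈ Ioo (0:ℝ) 1 ∧ q ≤ hh w N X} := by
  obtain ⟨hw0, _⟩ := lim_bounds hL
  obtain ⟨hanti, hcont, hlim⟩ := lim_anti hL
  have h0mem : (0:ℝ) ∈ Ico (0:ℝ) 1 := ⟨le_rfl, one_pos⟩
  have hwle : ∀ s ∈ Ico (0:ℝ) 1, w s ≤ 0 := by
    intro s hs
    rw [← hw0]
    exact hanti.antitoneOn h0mem hs hs.1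
  obtain ⟨hsup, huniq⟩ := sup_h (c := 0) hN hL (fun s hs => by
    obtain ⟨x, hx, h1, h2⟩ := hfix s hs
    exact ⟨x, hx, by rw [h1, add_zero], by rw [h2, add_zero]⟩)
  rcases lt_trichotomy q 0 with hq | hq | hq
  · -- `q < 0`
    obtain ⟨t, ht, htq⟩ : ∃ t ∈ Ioo (0:ℝ) 1, w t < q := by
      have h1 : ∀ᶠ t in 𝓝[<] (1:ℝ), w t < q := hlim.eventually_lt_atBot q
      have h2 : ∀ᶠ t in 𝓝[<] (1:ℝ), t ∈ Ioo (0:ℝ) 1 := Ioo_mem_nhdsLT one_pos
      obtain ⟨t, h3, h4⟩ := (h1.and h2).exists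
      exact ⟨t, h4, h3⟩
    obtain ⟨s, hs, hsq⟩ : ∃ s ∈ Ioo (0:ℝ) t, w s = q := by
      have h1 := intermediate_value_Ioo' ht.1.le
        (hcont.mono (fun z hz => ⟨hz.1, lt_of_le_of_lt hz.2 ht.2⟩))
      exact h1 ⟨htq, by rw [hw0]; exact hq⟩
    have hs1 : s < 1 := hs.2.trans ht.2
    have hsI : s ∈ Ico (0:ℝ) 1 := ⟨hs.1.le, hs1⟩
    have e1 : {X : ℝ | X ∈ Ioo (0:ℝ) 1 ∧ q ≤ w (sJ X)} = Icc (3/4*(1-s)) (3/4+s/4) := by
      ext X
      constructor
      · rintro ⟨hX, h1⟩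
        rw [← hsq] at h1
        exact ((level_u hanti hsI hX).1).1 h1
      · intro hX
        have hX' : X ∈ Ioo (0:ℝ) 1 := by
          constructor
          · have := hX.1
            linarith
          · have := hX.2
            linarith
        refine ⟨hX', ?_⟩
        rw [← hsq]
        exact ((level_u hanti hsI hX').1).2 hX
    obtain ⟨x, hx, h1, h2⟩ := hfix s ⟨hs.1, hs1⟩
    have e2 : {X : ℝ | X ∈ Ioo (0:ℝ) 1 ∧ q ≤ hh w N X} = Icc x (x+s) := by
      ext X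
      constructor
      · rintro ⟨hX, h3⟩
        exact ((level_h (lim_strict hN hL) ⟨hs.1, hs1⟩ hx (h1.trans hsq) (h2.trans hsq) X hX).1).1 h3
      · intro hX
        have hX' : X ∈ Ioo (0:ℝ) 1 := by
          constructor
          · have := hX.1
            have := hx.1
            linarith
          · have := hX.2
            have := hx.2
            linarith
        exact ⟨hX', ((level_h (lim_strict hN hL) ⟨hs.1, hs1⟩ hx (h1.trans hsq) (h2.trans hsq)
          X hX').1).2 hX⟩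
    rw [e1, e2, Real.diam_Icc (by linarith [hs.1]), Real.diam_Icc (by linarith [hs.1])]
    ring
  · subst hq
    have hJ : ∀ X ∈ Ioo (0:ℝ) 1, 0 ≤ w (sJ X) → X = 3/4 := by
      intro X hX h1
      have h2 : sJ X = 0 := by
        by_contra hne
        have h3 := sJ_mem hX
        have h4 : 0 < sJ X := lt_of_le_of_ne h3.1 (Ne.symm hne)
        have h5 := hanti h0mem h3 h4
        rw [hw0] at h5
        linarith
      unfold sJ at h2
      split_ifs at h2 with h3
      · linarith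
      · linarith
    rw [Metric.diam_subsingleton, Metric.diam_subsingleton]
    · rintro X ⟨hX, h1⟩ Y ⟨hY, h2⟩
      exact huniq X hX Y hY (le_antisymm (hsup X hX) h1) (le_antisymm (hsup Y hY) h2)
    · rintro X ⟨hX, h1⟩ Y ⟨hY, h2⟩
      rw [hJ X hX h1, hJ Y hY h2]
  · have e1 : {X : ℝ | X ∈ Ioo (0:ℝ) 1 ∧ q ≤ w (sJ X)} = ∅ := by
      ext X
      constructor
      · rintro ⟨hX, h1⟩
        have := hwle (sJ X) (sJ_mem hX)
        linarith
      · intro h
        exact absurd h (Set.notMem_empty X)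
    have e2 : {X : ℝ | X ∈ Ioo (0:ℝ) 1 ∧ q ≤ hh w N X} = ∅ := by
      ext X
      constructor
      · rintro ⟨hX, h1⟩
        have := hsup X hX
        linarith
      · intro h
        exact absurd h (Set.notMem_empty X)
    rw [e1, e2]

end Pool.Agent.Helper216.XRay
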