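import Pool.Agent.Helper216.XRay.Defs
import Pool.Agent.Helper216.XRay.P_sJ_mem
import Pool.Agent.Helper216.XRay.P_cls_conc_h
import Pool.Agent.Helper216.XRay.P_cls_conc_u

open Set Filter Topology MeasureTheory

namespace Pool.Agent.Helper216.XRay



theorem lim_conc_aux {S : Set ℝ} {f : ℝ → ℝ} {F : Filter ℕ} (hF : F.NeBot) (G : ℕ → ℝ → ℝ)
    (hS : Convex ℝ S) (hG : ∀ n, ConcaveOn ℝ S (G n))
    (lim : ∀ x ∈ S, Tendsto (fun n => G n x) F (𝓝 (f x))) : ConcaveOn ℝ S f := by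
  refine ⟨hS, fun x hx y hy a b ha hb hab => ?_⟩
  have h1 : Tendsto (fun n => a • G n x + b • G n y) F (𝓝 (a • f x + b • f y)) :=
    ((lim x hx).const_smul a).add ((lim y hy).const_smul b)
  have h2 : Tendsto (fun n => G n (a • x + b • y)) F (𝓝 (f (a • x + b • y))) :=
    lim _ (hS hx hy ha hb hab)
  exact le_of_tendsto_of_tendsto' h1 h2 (fun n => (hG n).2 hx hy ha hb hab)

theorem lim_conc {N N' w : ℝ → ℝ} {a b : ℝ} (hN : NiceN N N') (hL : LimCls w)
    (hb : |b| ≤ 1) (ha : 60000 ≤ a) :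
    ConcaveOn ℝ (Ioo 0 1) (fun X => (a+b*X)*Real.exp (hh w N X/100000)) ∧
    ConcaveOn ℝ (Ioo 0 1) (fun X => (a+b*X)*Real.exp (w (sJ X)/100000)) := by
  obtain ⟨F, W, V, hF, hC, hW, hlim⟩ := hL
  constructor
  · refine lim_conc_aux hF (fun n X => (a+b*X)*Real.exp (hh (W n) N X/100000)) (convex_Ioo 0 1)
      (fun n => cls_conc_h hN (hC n) hb ha) ?_
    intro X hX
    have h1 : Tendsto (fun n => hh (W n) N X) F (𝓝 (hh w N X)) :=
      (hlim _ (sJ_mem hX)).sub_const _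
    exact ((Real.continuous_exp.tendsto _).comp (h1.div_const 100000)).const_mul _
  · refine lim_conc_aux hF (fun n X => (a+b*X)*Real.exp ((W n) (sJ X)/100000)) (convex_Ioo 0 1)
      (fun n => cls_conc_u (hC n) hb ha) ?_
    intro X hX
    exact ((Real.continuous_exp.tendsto _).comp ((hlim _ (sJ_mem hX)).div_const 100000)).const_mul _

end Pool.Agent.Helper216.XRay
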