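import Pool.Agent.Helper216.XRay.Defs
import Pool.Agent.Helper216.XRay.P_cls_bounds
import Pool.Agent.Helper216.XRay.P_cls_anti
import Pool.Agent.Helper216.XRay.P_approx
import Pool.Agent.Helper216.XRay.P_coercive
import Pool.Agent.Helper216.XRay.P_joint_conv

open Set Filter Topology MeasureTheory

namespace Pool.Agent.Helper216.XRay



lemma limit_exists_ul (u : ℕ → ℝ) (a b : ℝ) (h : ∀ n, u n ∈ Icc a b) :
    ∃ x ∈ Icc a b, Tendsto u ((Filter.hyperfilter ℕ : Ultrafilter ℕ) : Filter ℕ) (𝓝 x) := by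
  obtain ⟨x, hx, hx2⟩ := (isCompact_Icc (a := a) (b := b)).ultrafilter_le_nhds
    (Ultrafilter.map u (Filter.hyperfilter ℕ)) (by
      rw [Ultrafilter.coe_map, Filter.le_principal_iff, Filter.mem_map]
      exact Filter.univ_mem' h)
  exact ⟨x, hx, hx2⟩

theorem limit_exists {N N' : ℝ → ℝ} (hN : NiceN N N') : ∃ (w : ℝ → ℝ) (c : ℝ), LimCls w ∧
    ∀ s ∈ Ioo (0:ℝ) 1, ∃ x ∈ Ioo 0 (1-s), hh w N x = w s + c ∧ hh w N (x+s) = w s + c := by
  choose W V W1 C hCls hW0 hT happ using approx hN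
  let F : Filter ℕ := ((Filter.hyperfilter ℕ : Ultrafilter ℕ) : Filter ℕ)
  have hF : F.NeBot := by
    show (((Filter.hyperfilter ℕ : Ultrafilter ℕ) : Filter ℕ)).NeBot
    infer_instance
  have hFtop : F ≤ atTop := Nat.hyperfilter_le_atTop
  have hw : ∀ s : ℝ, ∃ y : ℝ, s ∈ Ico (0:ℝ) 1 → Tendsto (fun n => W n s) F (𝓝 y) := by
    intro s
    by_cases hs : s ∈ Ico (0:ℝ) 1
    · have hb : ∀ n, W n s ∈ Icc ((313/30) * Real.log (1-s)) 0 := by
        intro n
        have h0 : (0:ℝ) ∈ Ico (0:ℝ) 1 := ⟨le_refl _, one_pos⟩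
        have h1 := (cls_bounds (hCls n) 0 h0 s hs hs.1).2
        have h2 := cls_anti (hCls n) h0 hs hs.1
        rw [hW0 n] at h1 h2
        simp only [sub_zero, Real.log_one] at h1
        constructor
        · linarith
        · exact h2
      obtain ⟨y, _, hy⟩ := limit_exists_ul (fun n => W n s) _ _ hb
      exact ⟨y, fun _ => hy⟩
    · exact ⟨0, fun h => absurd h hs⟩
  choose w hwl using hw
  obtain ⟨M, hM⟩ : ∃ M : ℝ, ∀ X ∈ Icc (0:ℝ) 1, |N X| ≤ M := by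
    obtain ⟨M, hM⟩ := (isCompact_Icc (a := (0:ℝ)) (b := 1)).exists_bound_of_continuousOn
      (f := N) (fun X hX => (hN.der X hX).continuousAt.continuousWithinAt)
    exact ⟨M, fun X hX => by simpa [Real.norm_eq_abs] using hM X hX⟩
  have key : ∀ s ∈ Ico (0:ℝ) 1, ∃ x ∈ Ioo 0 (1-s), ∃ T : ℝ,
      Tendsto (fun n => W1 n s) F (𝓝 T) ∧ hh w N x = T ∧ hh w N (x+s) = T := by
    intro s hs
    obtain ⟨δ, hδ, hco⟩ := coercive hM hs
    have hx : ∀ n, ∃ x ∈ Ioo 0 (1-s), hh (W n) N x = W1 n s ∧ hh (W n) N (x+s) = W1 n s :=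
      fun n => (hT n s hs).1
    choose xs hxs hx1 hx2 using hx
    have hxb : ∀ n, xs n ∈ Icc δ (1 - s - δ) := by
      intro n
      have := hco (W n) (V n) (W1 n) (hCls n) (hW0 n) (hT n) (xs n) (hxs n) (hx1 n) (hx2 n)
      exact ⟨this.1, by linarith [this.2]⟩
    obtain ⟨x, hxm, hxl⟩ := limit_exists_ul xs _ _ hxb
    have hs0 := hs.1
    have hs1 := hs.2
    have hx01 : x ∈ Ioo (0:ℝ) 1 := ⟨by linarith [hxm.1], by linarith [hxm.2]⟩
    have hxs01 : x + s ∈ Ioo (0:ℝ) 1 := ⟨by linarith [hxm.1], by linarith [hxm.2]⟩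
    have h1 : Tendsto (fun n => hh (W n) N (xs n)) F (𝓝 (hh w N x)) :=
      joint_conv hN hCls (fun s hs => hwl s hs) hx01
        (fun n => ⟨(hxs n).1, by linarith [(hxs n).2]⟩) hxl
    have h2 : Tendsto (fun n => hh (W n) N (xs n + s)) F (𝓝 (hh w N (x + s))) :=
      joint_conv hN hCls (fun s hs => hwl s hs) hxs01
        (fun n => ⟨by linarith [(hxs n).1], by linarith [(hxs n).2]⟩)
        (xs := fun n => xs n + s) (hxl.add_const s)
    simp only [hx1] at h1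
    simp only [hx2] at h2
    exact ⟨x, ⟨hx01.1, by linarith [hxm.2]⟩, hh w N x, h1, rfl, tendsto_nhds_unique h2 h1⟩
  have herr : ∀ s ∈ Ico (0:ℝ) 1, Tendsto (fun n => W1 n s - W n s - C n) F (𝓝 0) := by
    intro s hs
    have h1 : Tendsto (fun n : ℕ => (1/((n:ℝ)+1))*(2 - 22*Real.log (1-s))) F (𝓝 0) := by
      have := (tendsto_one_div_add_atTop_nhds_zero_nat (𝕜 := ℝ)).mono_left hFtop
      simpa using this.mul_const (2 - 22*Real.log (1-s))
    exact squeeze_zero_norm (fun n => by rw [Real.norm_eq_abs]; exact happ n s hs) h1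
  have h0 : (0:ℝ) ∈ Ico (0:ℝ) 1 := ⟨le_refl _, one_pos⟩
  obtain ⟨x0, _, T0, hT0, _, _⟩ := key 0 h0
  have hC : Tendsto C F (𝓝 (T0 - w 0)) := by
    have := (hT0.sub (hwl 0 h0)).sub (herr 0 h0)
    simp only [sub_zero] at this
    refine this.congr ?_
    intro n
    ring
  refine ⟨w, T0 - w 0, ⟨F, W, V, hF, hCls, hW0, fun s hs => hwl s hs⟩, ?_⟩
  intro s hs
  have hs' : s ∈ Ico (0:ℝ) 1 := ⟨hs.1.le, hs.2⟩
  obtain ⟨x, hx, T, hTl, hT1, hT2⟩ := key s hs'
  have hTe : T = w s + (T0 - w 0) := by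
    have h1 := ((herr s hs').add (hwl s hs')).add hC
    simp only [zero_add] at h1
    have h2 : Tendsto (fun n => W1 n s) F (𝓝 (w s + (T0 - w 0))) := by
      refine h1.congr ?_
      intro n
      ring
    exact tendsto_nhds_unique hTl h2
  exact ⟨x, hx, by rw [hT1, hTe], by rw [hT2, hTe]⟩

end Pool.Agent.Helper216.XRay
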