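import Pool.Agent.Helper216.XRay.Defs
import Pool.Agent.Helper216.XRay.P_lim_bounds
import Pool.Agent.Helper216.XRay.P_lim_anti
import Pool.Agent.Helper216.XRay.P_lim_strict
import Pool.Agent.Helper216.XRay.P_level_u
import Pool.Agent.Helper216.XRay.P_level_h

open Set Filter Topology MeasureTheory

namespace Pool.Agent.Helper216.XRay



theorem vol_eq_aux (a b : ℝ) (ha : 0 < a) (hb : b < 1) (hab : a ≤ b) :
    volume (Ioo (0:ℝ) 1 \ Icc a b) = ENNReal.ofReal 1 - ENNReal.ofReal (b - a) := by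
  have h := measure_sdiff (μ := volume) (s₁ := Ioo (0:ℝ) 1) (s₂ := Icc a b)
    (fun x hx => ⟨lt_of_lt_of_le ha hx.1, lt_of_le_of_lt hx.2 hb⟩)
    measurableSet_Icc.nullMeasurableSet (by rw [Real.volume_Icc]; exact ENNReal.ofReal_ne_top)
  rw [h, Real.volume_Ioo, Real.volume_Icc, sub_zero]

theorem vol_eq {N N' w : ℝ → ℝ} {c : ℝ} (hN : NiceN N N') (hL : LimCls w)
    (hfix : ∀ s ∈ Ioo (0:ℝ) 1, ∃ x ∈ Ioo 0 (1-s), hh w N x = w s + c ∧ hh w N (x+s) = w s + c) :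
    ∀ r > (0:ℝ), volume {X | X ∈ Ioo (0:ℝ) 1 ∧ r < -w (sJ X)} =
      volume {X | X ∈ Ioo (0:ℝ) 1 ∧ r < c - hh w N X} := by
  intro r hr
  obtain ⟨h0, -⟩ := lim_bounds hL
  obtain ⟨hanti, hcont, htend⟩ := lim_anti hL
  obtain ⟨s, hs, hws⟩ : ∃ s ∈ Ioo (0:ℝ) 1, w s = -r := by
    have h1 : ∀ᶠ t in 𝓝[<] (1:ℝ), w t < -r := htend.eventually (eventually_lt_atBot _)
    have h2 : ∀ᶠ t in 𝓝[<] (1:ℝ), t ∈ Ioo (0:ℝ) 1 := Ioo_mem_nhdsLT (by norm_num)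
    obtain ⟨t, ht, ht2⟩ := (h1.and h2).exists
    have hc : ContinuousOn w (Icc 0 t) := hcont.mono fun x hx => ⟨hx.1, lt_of_le_of_lt hx.2 ht2.2⟩
    obtain ⟨s, hs, hws⟩ := intermediate_value_Icc' ht2.1.le hc
      (show -r ∈ Icc (w t) (w 0) from ⟨ht.le, by rw [h0]; linarith⟩)
    refine ⟨s, ⟨lt_of_le_of_ne hs.1 ?_, lt_of_le_of_lt hs.2 ht2.2⟩, hws⟩
    intro h
    rw [← h, h0] at hws
    linarith
  obtain ⟨x, hx, hx1, hx2⟩ := hfix s hs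
  have hsc := lim_strict hN hL
  have e1 : {X | X ∈ Ioo (0:ℝ) 1 ∧ r < -w (sJ X)} = Ioo (0:ℝ) 1 \ Icc (3/4*(1-s)) (3/4+s/4) := by
    ext X
    constructor
    · rintro ⟨hX, h⟩
      refine ⟨hX, fun h2 => ?_⟩
      have := ((level_u hanti ⟨hs.1.le, hs.2⟩ hX).1).2 h2
      linarith
    · rintro ⟨hX, h⟩
      refine ⟨hX, ?_⟩
      have : ¬ (w s ≤ w (sJ X)) := fun h2 => h (((level_u hanti ⟨hs.1.le, hs.2⟩ hX).1).1 h2)
      push Not at this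
      linarith
  have e2 : {X | X ∈ Ioo (0:ℝ) 1 ∧ r < c - hh w N X} = Ioo (0:ℝ) 1 \ Icc x (x+s) := by
    ext X
    constructor
    · rintro ⟨hX, h⟩
      refine ⟨hX, fun h2 => ?_⟩
      have := ((level_h hsc hs hx hx1 hx2 X hX).1).2 h2
      linarith
    · rintro ⟨hX, h⟩
      refine ⟨hX, ?_⟩
      have : ¬ (w s + c ≤ hh w N X) := fun h2 => h (((level_h hsc hs hx hx1 hx2 X hX).1).1 h2)
      push Not at this
      linarith
  rw [e1, e2, vol_eq_aux _ _ (by linarith [hs.2]) (by linarith [hs.2]) (by linarith [hs.1]),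
    vol_eq_aux _ _ hx.1 (by linarith [hx.2]) (by linarith [hs.1])]
  congr 2
  ring

end Pool.Agent.Helper216.XRay
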