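import Pool.Agent.Helper216.XRay.Defs
import Pool.Agent.Helper216.XRay.P_sJ_mem
import Pool.Agent.Helper216.XRay.P_sJ_cont
import Pool.Agent.Helper216.XRay.P_lim_bounds
import Pool.Agent.Helper216.XRay.P_lim_anti
import Pool.Agent.Helper216.XRay.P_lim_strict
import Pool.Agent.Helper216.XRay.P_sup_h
import Pool.Agent.Helper216.XRay.P_vol_eq
import Pool.Agent.Helper216.XRay.P_int_u

open Set Filter Topology MeasureTheory

namespace Pool.Agent.Helper216.XRay



theorem mean_c {N N' w : ℝ → ℝ} {c : ℝ} (hN : NiceN N N') (hL : LimCls w)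
    (hfix : ∀ s ∈ Ioo (0:ℝ) 1, ∃ x ∈ Ioo 0 (1-s), hh w N x = w s + c ∧ hh w N (x+s) = w s + c) :
    c = 0 := by
  obtain ⟨hw0, -⟩ := lim_bounds hL
  obtain ⟨hanti, -, -⟩ := lim_anti hL
  obtain ⟨hsup, -⟩ := sup_h hN hL hfix
  have hvol := vol_eq hN hL hfix
  have hi1 : IntegrableOn (fun X => w (sJ X)) (Ioo 0 1) := int_u hL
  have hNc : ContinuousOn N (Icc 0 1) := fun X hX => (hN.der X hX).continuousAt.continuousWithinAt
  have hiN : IntegrableOn N (Ioo 0 1) :=
    (hNc.integrableOn_compact isCompact_Icc).mono_set Ioo_subset_Icc_self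
  have hf1nn : 0 ≤ᵐ[volume.restrict (Ioo (0:ℝ) 1)] fun X => - w (sJ X) := by
    refine (ae_restrict_mem measurableSet_Ioo).mono (fun X hX => ?_)
    have h1 := sJ_mem hX
    have h2 : w (sJ X) ≤ w 0 := hanti.antitoneOn ⟨le_refl _, one_pos⟩ h1 h1.1
    rw [hw0] at h2
    simpa using h2
  have hf2nn : 0 ≤ᵐ[volume.restrict (Ioo (0:ℝ) 1)] fun X => c - hh w N X := by
    refine (ae_restrict_mem measurableSet_Ioo).mono (fun X hX => ?_)
    have := hsup X hX
    simpa using this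
  have hhi : IntegrableOn (fun X => hh w N X) (Ioo 0 1) := hi1.sub hiN
  have hf2i : IntegrableOn (fun X => c - hh w N X) (Ioo 0 1) :=
    (integrableOn_const (by simp)).sub hhi
  have hf1i : IntegrableOn (fun X => - w (sJ X)) (Ioo 0 1) := hi1.neg
  have hl : ∫⁻ X in Ioo (0:ℝ) 1, ENNReal.ofReal (- w (sJ X))
      = ∫⁻ X in Ioo (0:ℝ) 1, ENNReal.ofReal (c - hh w N X) := by
    rw [lintegral_eq_lintegral_meas_lt _ hf1nn hf1i.aestronglyMeasurable.aemeasurable,
      lintegral_eq_lintegral_meas_lt _ hf2nn hf2i.aestronglyMeasurable.aemeasurable]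
    apply setLIntegral_congr_fun measurableSet_Ioi
    intro r hr
    have hr' : (0:ℝ) < r := hr
    have h1 := hvol r hr'
    change (volume.restrict (Ioo (0:ℝ) 1)) {X | r < - w (sJ X)}
      = (volume.restrict (Ioo (0:ℝ) 1)) {X | r < c - hh w N X}
    rw [Measure.restrict_apply' measurableSet_Ioo, Measure.restrict_apply' measurableSet_Ioo]
    have e1 : {X | r < - w (sJ X)} ∩ Ioo (0:ℝ) 1 = {X | X ∈ Ioo (0:ℝ) 1 ∧ r < -w (sJ X)} := by
      ext X
      exact and_comm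
    have e2 : {X | r < c - hh w N X} ∩ Ioo (0:ℝ) 1
        = {X | X ∈ Ioo (0:ℝ) 1 ∧ r < c - hh w N X} := by
      ext X
      exact and_comm
    rw [e1, e2, h1]
  have hI : ∫ X in Ioo (0:ℝ) 1, (- w (sJ X)) = ∫ X in Ioo (0:ℝ) 1, (c - hh w N X) := by
    rw [integral_eq_lintegral_of_nonneg_ae hf1nn hf1i.aestronglyMeasurable,
      integral_eq_lintegral_of_nonneg_ae hf2nn hf2i.aestronglyMeasurable, hl]
  have hNI : ∫ X in Ioo (0:ℝ) 1, N X = 0 := by
    rw [← integral_Ioc_eq_integral_Ioo, ← intervalIntegral.integral_of_le zero_le_one]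
    exact hN.mean
  have hr : ∫ X in Ioo (0:ℝ) 1, (c - hh w N X)
      = c - (∫ X in Ioo (0:ℝ) 1, w (sJ X)) := by
    have e3 : ∫ X in Ioo (0:ℝ) 1, hh w N X
        = (∫ X in Ioo (0:ℝ) 1, w (sJ X)) - ∫ X in Ioo (0:ℝ) 1, N X := integral_sub hi1 hiN
    have hci : Integrable (fun _ : ℝ => c) (volume.restrict (Ioo (0:ℝ) 1)) := integrable_const c
    have e4 : ∫ X in Ioo (0:ℝ) 1, (c - hh w N X)
        = (∫ X in Ioo (0:ℝ) 1, c) - ∫ X in Ioo (0:ℝ) 1, hh w N X := integral_sub hci hhi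
    rw [e4, e3, hNI, sub_zero]
    simp
  rw [integral_neg, hr] at hI
  linarith

end Pool.Agent.Helper216.XRay
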