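import Pool.Agent.Helper216.XRay.Defs
import Pool.Agent.Helper216.XRay.P_lim_anti

open Set Filter Topology MeasureTheory

namespace Pool.Agent.Helper216.XRay



theorem prof_K {w : ℝ → ℝ} (hL : LimCls w)
    (hc : ∀ a b : ℝ, |b| ≤ 1 → 60000 ≤ a →
      ConcaveOn ℝ (Ioo 0 1) (fun X => (a+b*X)*Real.exp (w (sJ X)/100000)))
    (ht : Tendsto w (𝓝[<] 1) atBot) : Prof 1 2 (Kf w) := by
  have key : ∀ (l : Filter ℝ) (c : ℝ), l ≤ 𝓝 c → (∀ᶠ x in l, 1 < x ∧ x < 2) →
      Tendsto (fun x => sJ (2 - x)) l (𝓝[<] 1) → Tendsto (Kf w) l (𝓝 0) := by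
    intro l c hl h12 hs
    have h1 : Tendsto (fun x => Real.exp (w (sJ (2 - x)) / 100000)) l (𝓝 0) :=
      Real.tendsto_exp_atBot.comp ((ht.comp hs).atBot_div_const (by norm_num))
    have h2 : Tendsto (fun x : ℝ => 100000 + x) l (𝓝 (100000 + c)) :=
      ((continuous_const.add continuous_id).tendsto c).mono_left hl
    have h3 := h2.mul h1
    rw [mul_zero] at h3
    refine h3.congr' ?_
    filter_upwards [h12] with x hx
    simp only [Kf, if_pos hx]
  refine ⟨by norm_num, ?_, ?_, ?_, ?_, ?_, ?_⟩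
  · have h1 := hc 100002 (-1) (by norm_num) (by norm_num)
    have h2 : ∀ x ∈ Ioo (1:ℝ) 2, Kf w x =
        (100002 + (-1) * (2 - x)) * Real.exp (w (sJ (2 - x)) / 100000) := by
      intro x hx
      simp only [Kf, if_pos (show 1 < x ∧ x < 2 from hx)]
      congr 1
      ring
    refine ⟨convex_Ioo 1 2, fun x hx y hy a b ha hb hab => ?_⟩
    have hxy : a • x + b • y ∈ Ioo (1:ℝ) 2 := (convex_Ioo 1 2) hx hy ha hb hab
    rw [h2 x hx, h2 y hy, h2 _ hxy]
    have h3 := h1.2 (show 2 - x ∈ Ioo (0:ℝ) 1 from ⟨by linarith [hx.2], by linarith [hx.1]⟩)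
      (show 2 - y ∈ Ioo (0:ℝ) 1 from ⟨by linarith [hy.2], by linarith [hy.1]⟩) ha hb hab
    have h4 : a • (2 - x) + b • (2 - y) = 2 - (a • x + b • y) := by
      simp only [smul_eq_mul]
      have : a * (2 - x) + b * (2 - y) = 2 * (a + b) - (a * x + b * y) := by ring
      rw [this, hab]; ring
    rw [h4] at h3
    exact h3
  · intro x hx
    simp only [Kf, if_pos (show 1 < x ∧ x < 2 from hx)]
    have : 0 < 100000 + x := by linarith [hx.1]
    positivity
  · simp [Kf]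
  · simp [Kf]
  · have hmem : Ioo (1:ℝ) (5/4) ∈ 𝓝[>] (1:ℝ) := Ioo_mem_nhdsGT (by norm_num)
    refine key _ 1 nhdsWithin_le_nhds ?_ ?_
    · filter_upwards [hmem] with x hx
      exact ⟨hx.1, by linarith [hx.2]⟩
    · rw [tendsto_nhdsWithin_iff]
      have he : ∀ᶠ x in 𝓝[>] (1:ℝ), 5 - 4 * x = sJ (2 - x) := by
        filter_upwards [hmem] with x hx
        rw [sJ, if_neg (by linarith [hx.2])]
        ring
      constructor
      · have h1 : Tendsto (fun x : ℝ => 5 - 4 * x) (𝓝[>] (1:ℝ)) (𝓝 1) := by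
          have h2 : Tendsto (fun x : ℝ => 5 - 4 * x) (𝓝 (1:ℝ)) (𝓝 (5 - 4 * 1)) :=
            (by fun_prop : Continuous fun x : ℝ => 5 - 4 * x).tendsto 1
          norm_num at h2
          exact h2.mono_left nhdsWithin_le_nhds
        exact h1.congr' he
      · filter_upwards [hmem, he] with x hx hxe
        rw [← hxe]
        show 5 - 4 * x < 1
        linarith [hx.1]
  · have hmem : Ioo (5/4:ℝ) 2 ∈ 𝓝[<] (2:ℝ) := Ioo_mem_nhdsLT (by norm_num)
    refine key _ 2 nhdsWithin_le_nhds ?_ ?_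
    · filter_upwards [hmem] with x hx
      exact ⟨by linarith [hx.1], hx.2⟩
    · rw [tendsto_nhdsWithin_iff]
      have he : ∀ᶠ x in 𝓝[<] (2:ℝ), 1 - 4/3 * (2 - x) = sJ (2 - x) := by
        filter_upwards [hmem] with x hx
        rw [sJ, if_pos (by linarith [hx.1])]
      constructor
      · have h1 : Tendsto (fun x : ℝ => 1 - 4/3 * (2 - x)) (𝓝[<] (2:ℝ)) (𝓝 1) := by
          have h2 : Tendsto (fun x : ℝ => 1 - 4/3 * (2 - x)) (𝓝 (2:ℝ)) (𝓝 (1 - 4/3 * (2 - 2))) :=
            (by fun_prop : Continuous fun x : ℝ => 1 - 4/3 * (2 - x)).tendsto 2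
          norm_num at h2
          exact h2.mono_left nhdsWithin_le_nhds
        exact h1.congr' he
      · filter_upwards [hmem, he] with x hx hxe
        rw [← hxe]
        show 1 - 4/3 * (2 - x) < 1
        linarith [hx.2]

end Pool.Agent.Helper216.XRay
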