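import Pool.Agent.Helper216.XRay.Defs
import Pool.Agent.Helper216.XRay.P_Lf_eq

open Set Filter Topology MeasureTheory

namespace Pool.Agent.Helper216.XRay



theorem prof_L {w : ℝ → ℝ} {η : ℝ} (hη : η ∈ Icc (4/100000:ℝ) (5/100000)) (hL : LimCls w)
    (hc : ∀ a b : ℝ, |b| ≤ 1 → 60000 ≤ a →
      ConcaveOn ℝ (Ioo 0 1) (fun X => (a+b*X)*Real.exp (hh w (NN η) X/100000)))
    (hK : Prof 1 2 (Kf w)) : Prof (η-2) (η-1) (Lf η w) := by
  obtain ⟨hη1, hη2⟩ := hη
  have hη : η ∈ Icc (4/100000:ℝ) (5/100000) := ⟨hη1, hη2⟩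
  have hLf : ∀ x ∈ Ioo (η-2) (η-1), Lf η w x =
      (((99998+η) + 1 * (x + (2-η)))*Real.exp (hh w (NN η) (x + (2-η))/100000)) := by
    intro x hx
    unfold Lf
    rw [if_pos ⟨hx.1, hx.2⟩]
    have e1 : 2 - η + x = x + (2 - η) := by ring
    rw [e1]
    congr 1
    ring
  have gen : ∀ (l : Filter ℝ) (c : ℝ), Tendsto (fun x : ℝ => x) l (𝓝 c) → η - c ≠ 0 →
      Tendsto (fun x => Kf w (η - x)) l (𝓝 0) → (∀ᶠ x in l, x ∈ Icc (η-2) (η-1)) →
      Tendsto (Lf η w) l (𝓝 0) := by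
    intro l c h1 h2 h3 h4
    have h5 : Tendsto (fun x => (-x) * Kf w (η - x) / (η - x)) l (𝓝 ((-c) * 0 / (η - c))) :=
      ((h1.neg).mul h3).div (tendsto_const_nhds.sub h1) h2
    rw [mul_zero, zero_div] at h5
    exact h5.congr' (h4.mono fun x hx => (Lf_eq hη hx).symm)
  refine ⟨by linarith, ?_, ?_, ?_, ?_, ?_, ?_⟩
  · have hF := hc (99998+η) 1 (by norm_num) (by linarith)
    refine ⟨convex_Ioo _ _, ?_⟩
    intro x hx y hy a b ha hb hab
    have hm : a • x + b • y ∈ Ioo (η-2) (η-1) := (convex_Ioo (η-2) (η-1)) hx hy ha hb hab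
    rw [hLf x hx, hLf y hy, hLf _ hm]
    have h1 := hF.2 (x := x + (2-η)) (y := y + (2-η)) ⟨by linarith [hx.1], by linarith [hx.2]⟩
      ⟨by linarith [hy.1], by linarith [hy.2]⟩ ha hb hab
    have e1 : a • (x + (2 - η)) + b • (y + (2 - η)) = a • x + b • y + (2 - η) := by
      simp only [smul_eq_mul]
      have : a * (x + (2 - η)) + b * (y + (2 - η)) = a * x + b * y + (a + b) * (2 - η) := by ring
      rw [this, hab, one_mul]
    simp only [e1] at h1
    exact h1
  · intro x hx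
    rw [hLf x hx]
    have : 0 < (99998+η) + 1 * (x + (2-η)) := by linarith [hx.1]
    positivity
  · unfold Lf
    rw [if_neg]
    rintro ⟨h1, h2⟩
    exact lt_irrefl _ h1
  · unfold Lf
    rw [if_neg]
    rintro ⟨h1, h2⟩
    exact lt_irrefl _ h2
  · refine gen _ (η-2) (tendsto_id.mono_left nhdsWithin_le_nhds) (by norm_num) ?_ ?_
    · refine hK.limb.comp ?_
      rw [tendsto_nhdsWithin_iff]
      constructor
      · have h1 : Tendsto (fun x : ℝ => η - x) (𝓝 (η-2)) (𝓝 (η - (η-2))) :=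
          tendsto_const_nhds.sub tendsto_id
        rw [sub_sub_cancel] at h1
        exact h1.mono_left nhdsWithin_le_nhds
      · filter_upwards [self_mem_nhdsWithin] with x hx
        have : η - 2 < x := hx
        show η - x < 2
        linarith
    · have : Ioo (η-2) (η-1) ∈ 𝓝[>] (η-2) := Ioo_mem_nhdsGT (by linarith)
      filter_upwards [this] with x hx
      exact ⟨hx.1.le, hx.2.le⟩
  · refine gen _ (η-1) (tendsto_id.mono_left nhdsWithin_le_nhds) (by norm_num) ?_ ?_
    · refine hK.lima.comp ?_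
      rw [tendsto_nhdsWithin_iff]
      constructor
      · have h1 : Tendsto (fun x : ℝ => η - x) (𝓝 (η-1)) (𝓝 (η - (η-1))) :=
          tendsto_const_nhds.sub tendsto_id
        rw [sub_sub_cancel] at h1
        exact h1.mono_left nhdsWithin_le_nhds
      · filter_upwards [self_mem_nhdsWithin] with x hx
        have : x < η - 1 := hx
        show 1 < η - x
        linarith
    · have : Ioo (η-2) (η-1) ∈ 𝓝[<] (η-1) := Ioo_mem_nhdsLT (by linarith)
      filter_upwards [this] with x hx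
      exact ⟨hx.1.le, hx.2.le⟩
end Pool.Agent.Helper216.XRay
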