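import Mathlib

open Set

namespace Pool.Agent.Helper216.XRay

/-- The plane. -/
abbrev E2 : Type := EuclideanSpace ℝ (Fin 2)

/-- The unit vector that makes angle θ with the first coordinate axis. -/
noncomputable def dir (θ : ℝ) : E2 := !₂[Real.cos θ, Real.sin θ]

/-- The chord function of K at x: the length (diameter) of the intersection of K with the line
through x at angle θ to the first coordinate axis; it is 0 if the intersection is empty. -/
noncomputable def chord (K : Set E2) (x : E2) (θ : ℝ) : ℝ :=
  Metric.diam (K ∩ {p | ∃ t : ℝ, p = x + t • dir θ})

/-- K is a convex body admissible for the points x₁, x₂: compact and convex, contains neither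
point, and the line through the two points meets the interior of K. -/
def Admissible (x₁ x₂ : E2) (K : Set E2) : Prop :=
  Convex ℝ K ∧ IsCompact K ∧ x₁ ∉ K ∧ x₂ ∉ K ∧
    ((line[ℝ, x₁, x₂] : Set E2) ∩ interior K).Nonempty

end Pool.Agent.Helper216.XRay
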